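import Mathlib

/-!
# Sieve: integers not exactly divisible by any prime of a set of primes with divergent sum of
reciprocals have density zero (module DEN)
-/

set_option autoImplicit false

namespace Pool.Agent.Helper19.Sec

open Finset

/-- `n` is not exactly divisible by any `p` in `T` -/
def den_good (T : Finset ℕ) (n : ℕ) : Prop := ∀ p ∈ T, p ∣ n → p ^ 2 ∣ n

theorem den_good_mod (T : Finset ℕ) (M n : ℕ) (hM : ∀ p ∈ T, p ^ 2 ∣ M) :
    den_good T (n % M) ↔ den_good T n := by
  have key : ∀ p ∈ T, ((p ∣ n % M ↔ p ∣ n) ∧ (p ^ 2 ∣ n % M ↔ p ^ 2 ∣ n)) := by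
    intro p hp
    have h2 := hM p hp
    have h1 : p ∣ M := (Dvd.intro_left (p ^ 1) (by ring)).trans h2
    exact ⟨Nat.dvd_mod_iff h1, Nat.dvd_mod_iff h2⟩
  constructor
  · intro h p hp hpn
    exact (key p hp).2.1 (h p hp ((key p hp).1.2 hpn))
  · intro h p hp hpn
    exact (key p hp).2.2 (h p hp ((key p hp).1.1 hpn))

open Classical in
theorem den_single (q : ℕ) (hq : q.Prime) :
    ((range (q ^ 2)).filter (den_good {q})).card ≤ q ^ 2 - q + 1 := by
  have hq2 := hq.two_le
  have h1 : ((Ico 1 q).image (fun i => q * i)) ⊆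
      (range (q ^ 2)).filter (fun r => ¬ den_good {q} r) := by
    intro r hr
    obtain ⟨i, hi, rfl⟩ := mem_image.1 hr
    rw [mem_Ico] at hi
    rw [mem_filter, mem_range]
    refine ⟨by nlinarith [hi.1, hi.2], ?_⟩
    intro hgood
    have h2 := hgood q (mem_singleton_self q) (dvd_mul_right q i)
    rw [pow_two] at h2
    have h3 : q ∣ i := (Nat.mul_dvd_mul_iff_left hq.pos).1 h2
    have := Nat.le_of_dvd (by omega) h3
    omega
  have h2 : q - 1 ≤ ((range (q ^ 2)).filter (fun r => ¬ den_good {q} r)).card := by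
    have h3 : ((Ico 1 q).image (fun i => q * i)).card = q - 1 := by
      rw [card_image_of_injective, Nat.card_Ico]
      intro i j hij
      exact Nat.eq_of_mul_eq_mul_left hq.pos hij
    rw [← h3]
    exact card_le_card h1
  have h3 := card_filter_add_card_filter_not (s := range (q ^ 2)) (den_good {q})
  rw [card_range] at h3
  have h4 : q ≤ q ^ 2 := by nlinarith
  omega

open Classical in
theorem den_count (T : Finset ℕ) (hT : ∀ p ∈ T, p.Prime) :
    ((range (∏ p ∈ T, p ^ 2)).filter (den_good T)).card ≤ ∏ p ∈ T, (p ^ 2 - p + 1) := by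
  induction T using Finset.induction_on with
  | empty => exact (card_filter_le _ _).trans (by simp)
  | insert q T hqT ih =>
    have hq : q.Prime := hT q (mem_insert_self q T)
    have hT' : ∀ p ∈ T, p.Prime := fun p hp => hT p (mem_insert_of_mem hp)
    have ih' := ih hT'
    rw [prod_insert hqT, prod_insert hqT]
    set M := ∏ p ∈ T, p ^ 2 with hM
    have hMpos : 0 < M := prod_pos fun p hp => pow_pos (hT' p hp).pos 2
    have hcop : Nat.Coprime (q ^ 2) M := by
      rw [hM]
      refine Nat.Coprime.prod_right ?_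
      intro p hp
      refine Nat.Coprime.pow 2 2 ((Nat.coprime_primes hq (hT' p hp)).2 ?_)
      rintro rfl
      exact hqT hp
    have hdvd : ∀ p ∈ T, p ^ 2 ∣ M := fun p hp => dvd_prod_of_mem (fun p => p ^ 2) hp
    refine le_trans ?_ (Nat.mul_le_mul (den_single q hq) ih')
    rw [← card_product]
    refine card_le_card_of_injOn (fun r => (r % q ^ 2, r % M)) ?_ ?_
    · intro r hr
      have hr' := mem_filter.1 (mem_coe.1 hr)
      rw [mem_coe, mem_product, mem_filter, mem_filter, mem_range, mem_range]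
      have hqpos : 0 < q ^ 2 := pow_pos hq.pos 2
      refine ⟨⟨Nat.mod_lt _ hqpos, ?_⟩, ⟨Nat.mod_lt _ hMpos, ?_⟩⟩
      · rw [den_good_mod]
        · intro p hp hpr
          rw [mem_singleton] at hp
          subst hp
          exact hr'.2 p (mem_insert_self _ T) hpr
        · intro p hp
          rw [mem_singleton] at hp
          subst hp
          exact dvd_rfl
      · rw [den_good_mod _ _ _ hdvd]
        intro p hp hpr
        exact hr'.2 p (mem_insert_of_mem hp) hpr
    · intro r hr r' hr' h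
      have h1 := mem_range.1 (mem_filter.1 (mem_coe.1 hr)).1
      have h2 := mem_range.1 (mem_filter.1 (mem_coe.1 hr')).1
      have h3 := congrArg Prod.fst h
      have h4 := congrArg Prod.snd h
      have h5 : r ≡ r' [MOD q ^ 2 * M] := (Nat.modEq_and_modEq_iff_modEq_mul hcop).1 ⟨h3, h4⟩
      exact Nat.ModEq.eq_of_lt_of_lt h5 h1 h2

open Classical in
/-- count in an initial segment -/
theorem den_range (T : Finset ℕ) (hT : ∀ p ∈ T, p.Prime) (N : ℕ) :
    ((range N).filter (den_good T)).card ≤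
      (N / (∏ p ∈ T, p ^ 2) + 1) * ∏ p ∈ T, (p ^ 2 - p + 1) := by
  set M := ∏ p ∈ T, p ^ 2 with hM
  have hMpos : 0 < M := prod_pos fun p hp => pow_pos (hT p hp).pos 2
  have hdvd : ∀ p ∈ T, p ^ 2 ∣ M := fun p hp => dvd_prod_of_mem (fun p => p ^ 2) hp
  have h1 : ((range N).filter (den_good T)).card ≤
      (range (N / M + 1) ×ˢ (range M).filter (den_good T)).card := by
    refine card_le_card_of_injOn (fun r => (r / M, r % M)) ?_ ?_
    · intro r hr
      have hr' := mem_filter.1 (mem_coe.1 hr)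
      have hrN := mem_range.1 hr'.1
      rw [mem_coe, mem_product, mem_filter, mem_range, mem_range]
      refine ⟨?_, Nat.mod_lt _ hMpos, (den_good_mod _ _ _ hdvd).2 hr'.2⟩
      exact Nat.lt_succ_of_le (Nat.div_le_div_right hrN.le)
    · intro r _ r' _ h
      have h3 := congrArg Prod.fst h
      have h4 := congrArg Prod.snd h
      simp only at h3 h4
      rw [← Nat.div_add_mod r M, ← Nat.div_add_mod r' M, h3, h4]
  rw [card_product, card_range] at h1
  exact h1.trans (Nat.mul_le_mul le_rfl (den_count T hT))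

theorem den_ratio (T : Finset ℕ) (hT : ∀ p ∈ T, p.Prime) :
    ((∏ p ∈ T, (p ^ 2 - p + 1) : ℕ) : ℝ) ≤
      ((∏ p ∈ T, p ^ 2 : ℕ) : ℝ) * Real.exp (-(∑ p ∈ T, (1 : ℝ) / p) / 2) := by
  have e : -(∑ p ∈ T, (1 : ℝ) / p) / 2 = ∑ p ∈ T, (-(1 / (2 * (p : ℝ)))) := by
    rw [neg_div, sum_div, ← sum_neg_distrib]
    refine sum_congr rfl fun p hp => ?_
    have : (p : ℝ) ≠ 0 := by exact_mod_cast (hT p hp).ne_zero
    field_simp
  rw [e, Real.exp_sum]
  push_cast
  rw [← prod_mul_distrib]
  refine prod_le_prod (fun p _ => by positivity) fun p hp => ?_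
  have hp2 : 2 ≤ p := (hT p hp).two_le
  have hp2' : (2 : ℝ) ≤ p := by exact_mod_cast hp2
  have hle : p ≤ p ^ 2 := by nlinarith
  rw [Nat.cast_sub hle]
  push_cast
  have h1 := Real.add_one_le_exp (-(1 / (2 * (p : ℝ))))
  have h2 : (p : ℝ) ^ 2 * (-(1 / (2 * (p : ℝ))) + 1) = (p : ℝ) ^ 2 - p / 2 := by
    have : (p : ℝ) ≠ 0 := by positivity
    field_simp
    ring
  calc (p : ℝ) ^ 2 - p + 1 ≤ (p : ℝ) ^ 2 - p / 2 := by linarith
    _ = (p : ℝ) ^ 2 * (-(1 / (2 * (p : ℝ))) + 1) := h2.symm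
    _ ≤ _ := mul_le_mul_of_nonneg_left h1 (by positivity)

open Classical in
theorem den_card (P : Set ℕ) (T : Finset ℕ) (hTP : ∀ p ∈ T, p ∈ P) (N : ℕ) :
    Nat.card {d : ℤ // |d| ≤ N ∧ ∀ p ∈ P, (p : ℤ) ∣ d → (p : ℤ) ^ 2 ∣ d} ≤
      2 * ((range (N + 1)).filter (den_good T)).card := by
  have hinj : Function.Injective
      (fun d : {d : ℤ // |d| ≤ N ∧ ∀ p ∈ P, (p : ℤ) ∣ d → (p : ℤ) ^ 2 ∣ d} =>
        ((decide (0 ≤ d.1), ⟨d.1.natAbs, by
          rw [mem_filter, mem_range]
          refine ⟨?_, ?_⟩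
          · have h := d.2.1
            rw [Int.abs_eq_natAbs] at h
            omega
          · intro p hp hpd
            have h1 : (p : ℤ) ∣ d.1 := Int.natCast_dvd.2 hpd
            have h2 := d.2.2 p (hTP p hp) h1
            have h3 : ((p ^ 2 : ℕ) : ℤ) ∣ d.1 := by push_cast; exact h2
            exact Int.natCast_dvd.1 h3⟩) :
          Bool × {n // n ∈ (range (N + 1)).filter (den_good T)})) := by
    intro d d' h
    have h1 := congrArg Prod.fst h
    have h2 := congrArg (fun x => (Prod.snd x).1) h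
    simp only [decide_eq_decide] at h1
    simp only at h2
    apply Subtype.ext
    omega
  have h1 := Nat.card_le_card_of_injective _ hinj
  rw [Nat.card_prod, Nat.card_eq_fintype_card (α := Bool), Fintype.card_bool] at h1
  have h2 : Nat.card {n // n ∈ (range (N + 1)).filter (den_good T)} =
      ((range (N + 1)).filter (den_good T)).card := Nat.card_eq_finsetCard _
  rw [h2] at h1
  exact h1

/-- integers not exactly divisible by any prime of a set of primes with divergent sum of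
reciprocals -/
theorem density_zero (P : Set ℕ) (hP : ∀ p ∈ P, p.Prime)
    (hs : ¬ Summable (fun p : P => (1 : ℝ) / (p : ℕ))) :
    Filter.Tendsto (fun N : ℕ => (Nat.card {d : ℤ // |d| ≤ N ∧
      ∀ p ∈ P, (p : ℤ) ∣ d → (p : ℤ) ^ 2 ∣ d} : ℝ) / N) Filter.atTop (nhds 0) := by
  classical
  -- finite subsets with large sum
  have hbig : ∀ B : ℝ, ∃ T : Finset ℕ, (∀ p ∈ T, p ∈ P) ∧ B < ∑ p ∈ T, (1 : ℝ) / p := by
    intro B
    by_contra hcon
    push Not at hcon
    apply hs
    refine summable_of_sum_le (c := B) (fun p => by positivity) ?_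
    intro u
    have h1 := hcon (u.map (Function.Embedding.subtype _)) ?_
    · rw [sum_map] at h1
      exact h1
    · intro p hp
      obtain ⟨x, _, rfl⟩ := mem_map.1 hp
      exact x.2
  rw [Metric.tendsto_atTop]
  intro ε hε
  obtain ⟨T, hTP, hT⟩ := hbig (-2 * Real.log (ε / 8))
  have hTprime : ∀ p ∈ T, p.Prime := fun p hp => hP p (hTP p hp)
  set M := ∏ p ∈ T, p ^ 2 with hM
  set c := ∏ p ∈ T, (p ^ 2 - p + 1) with hc
  have hMpos : 0 < M := prod_pos fun p hp => pow_pos (hTprime p hp).pos 2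
  have hMpos' : (0 : ℝ) < M := by exact_mod_cast hMpos
  have hexp : Real.exp (-(∑ p ∈ T, (1 : ℝ) / p) / 2) ≤ ε / 8 := by
    rw [← Real.le_log_iff_exp_le (by positivity)]
    linarith
  have hratio : (c : ℝ) ≤ M * (ε / 8) :=
    (den_ratio T hTprime).trans (mul_le_mul_of_nonneg_left hexp hMpos'.le)
  obtain ⟨N0, hN0⟩ := exists_nat_gt (M : ℝ)
  refine ⟨max N0 1, fun N hN => ?_⟩
  have hN1 : 1 ≤ N := (le_max_right _ _).trans hN
  have hNM : (M : ℝ) ≤ N := by
    have : (N0 : ℝ) ≤ N := by exact_mod_cast (le_max_left _ _).trans hN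
    linarith
  have hNpos : (0 : ℝ) < N := by exact_mod_cast hN1
  have h1 := den_card P T hTP N
  have h2 := den_range T hTprime (N + 1)
  have h3 : (Nat.card {d : ℤ // |d| ≤ N ∧ ∀ p ∈ P, (p : ℤ) ∣ d → (p : ℤ) ^ 2 ∣ d} : ℝ) ≤
      2 * ((((N + 1) / M : ℕ) : ℝ) + 1) * c := by
    have h4 := h1.trans (Nat.mul_le_mul le_rfl h2)
    have h5 : ((Nat.card {d : ℤ // |d| ≤ N ∧ ∀ p ∈ P, (p : ℤ) ∣ d → (p : ℤ) ^ 2 ∣ d} : ℕ) : ℝ) ≤
      ((2 * (((N + 1) / M + 1) * c) : ℕ) : ℝ) := by exact_mod_cast h4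
    push_cast at h5
    linarith
  have h4 : (((N + 1) / M : ℕ) : ℝ) ≤ (N + 1) / M := by
    have := @Nat.cast_div_le ℝ _ _ _ (N + 1) M
    push_cast at this
    exact this
  have h5 : 2 * ((((N + 1) / M : ℕ) : ℝ) + 1) * c ≤ 2 * (((N : ℝ) + 1) / M + 1) * (M * (ε / 8)) := by
    refine mul_le_mul (by linarith) hratio (by positivity) (by positivity)
  have h6 : 2 * (((N : ℝ) + 1) / M + 1) * (M * (ε / 8)) = (N + 1 + M) * (ε / 4) := by
    field_simp
    ring
  have h7 : ((N : ℝ) + 1 + M) * (ε / 4) ≤ 3 * N * (ε / 4) := by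
    have : (1 : ℝ) ≤ N := by exact_mod_cast hN1
    nlinarith
  rw [Real.dist_eq, sub_zero, abs_of_nonneg (by positivity), div_lt_iff₀ hNpos]
  nlinarith

end Pool.Agent.Helper19.Sec
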