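import Mathlib

/-!
Common definitions for the modules ZETA, ROOTS, DIV (MP_896029_ag, helper19).
-/

set_option autoImplicit false

namespace Pool.Agent.Helper19.Sec

open NumberField Polynomial

/-- number of primes of degree one above `p`, counted as ring homomorphisms -/
noncomputable def rK (K : Type*) [Field K] [NumberField K] (p : ℕ) : ℕ :=
  Nat.card (𝓞 K →+* ZMod p)

/-- roots modulo `p` of an irreducible polynomial -/
noncomputable def nroots (f : ℤ[X]) (p : ℕ) : ℕ :=
  Nat.card {z : ZMod p // (f.map (Int.castRingHom (ZMod p))).eval z = 0}

end Pool.Agent.Helper19.Sec
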