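import Mathlib
import Pool.Agent.Helper19.Sec.RK

/-!
Module ROOTS for MP_896029_ag (helper5 for helper19): roots modulo `p` and primes of degree one.
-/

set_option autoImplicit false

namespace Pool.Agent.Helper19.Sec

open NumberField Polynomial

section aux

/-- multiples of integers of `K` lie in a subring with fraction field `K` -/
private lemma genM (K : Type*) [Field K] [NumberField K] (S : Subring K)
    (hS : ∀ x : K, ∃ m : ℤ, m ≠ 0 ∧ (m : K) * x ∈ S) :
    ∃ M : ℤ, M ≠ 0 ∧ ∀ w : 𝓞 K, (M : K) * (w : K) ∈ S := by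
  classical
  obtain ⟨s, hs⟩ := (Module.Finite.fg_top : (⊤ : Submodule ℤ (𝓞 K)).FG)
  choose m hm0 hm using hS
  refine ⟨∏ x ∈ s, m (x : K), Finset.prod_ne_zero_iff.mpr fun x _ => hm0 _, fun w => ?_⟩
  have hw : w ∈ Submodule.span ℤ (s : Set (𝓞 K)) := by rw [hs]; trivial
  induction hw using Submodule.span_induction with
  | mem x hx =>
    have hx' : x ∈ s := by simpa using hx
    rw [← Finset.mul_prod_erase s _ hx', Int.cast_mul, mul_comm (m (x : K) : K), mul_assoc]
    exact S.mul_mem (intCast_mem S _) (hm _)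
  | zero => simp
  | add x y _ _ hx hy =>
    have : ((x + y : 𝓞 K) : K) = (x : K) + (y : K) := rfl
    rw [this, mul_add]; exact S.add_mem hx hy
  | smul c x _ hx =>
    have : ((c • x : 𝓞 K) : K) = (c : K) * (x : K) := by
      simp [zsmul_eq_mul]
    rw [this, mul_left_comm]
    exact S.mul_mem (intCast_mem S _) hx

/-- elements of `ℚ[T]` have multiples in `S` -/
private lemma frac_adjoin {Ω : Type*} [Field Ω] [Algebra ℚ Ω] (T : Set Ω) (S : Subring Ω)
    (hT : ∀ x ∈ T, ∃ m : ℤ, m ≠ 0 ∧ (m : Ω) * x ∈ S) (x : Ω) (hx : x ∈ Algebra.adjoin ℚ T) :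
    ∃ m : ℤ, m ≠ 0 ∧ (m : Ω) * x ∈ S := by
  induction hx using Algebra.adjoin_induction with
  | mem x hx => exact hT x hx
  | algebraMap r =>
    refine ⟨r.den, by exact_mod_cast r.den_nz, ?_⟩
    have : ((r.den : ℤ) : Ω) * algebraMap ℚ Ω r = ((r.num : ℤ) : Ω) := by
      have h1 : ((r.den : ℤ) : Ω) = algebraMap ℚ Ω (r.den : ℚ) := by simp
      have h2 : ((r.num : ℤ) : Ω) = algebraMap ℚ Ω (r.num : ℚ) := by simp
      rw [h1, h2, ← map_mul, mul_comm, Rat.mul_den_eq_num]
    rw [this]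
    exact intCast_mem S _
  | add x y _ _ hx hy =>
    obtain ⟨m, hm, h1⟩ := hx
    obtain ⟨n, hn, h2⟩ := hy
    refine ⟨m * n, mul_ne_zero hm hn, ?_⟩
    have : ((m * n : ℤ) : Ω) * (x + y) = (n : Ω) * ((m : Ω) * x) + (m : Ω) * ((n : Ω) * y) := by
      push_cast; ring
    rw [this]
    exact S.add_mem (S.mul_mem (intCast_mem S _) h1) (S.mul_mem (intCast_mem S _) h2)
  | mul x y _ _ hx hy =>
    obtain ⟨m, hm, h1⟩ := hx
    obtain ⟨n, hn, h2⟩ := hy
    refine ⟨m * n, mul_ne_zero hm hn, ?_⟩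
    have : ((m * n : ℤ) : Ω) * (x * y) = ((m : Ω) * x) * ((n : Ω) * y) := by
      push_cast; ring
    rw [this]
    exact S.mul_mem h1 h2

/-- extension of a homomorphism to a ring of finite index, when the index is invertible -/
private lemma ext_hom {B K P F : Type*} [CommRing B] [Field K] [CommRing P] [Field F]
    (i : B →+* K) (π : P →+* K) (e : P →+* F) (hker : ∀ g, π g = 0 → e g = 0)
    (M : ℤ) (hM : (M : F) ≠ 0) (h : ∀ w : B, ∃ g : P, π g = (M : K) * i w) :
    ∃ Ψ : B →+* F, ∀ w g, π g = (M : K) * i w → (M : F) * Ψ w = e g := by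
  choose G hG using h
  have key : ∀ g g' : P, π g = π g' → e g = e g' := by
    intro g g' hgg
    have : e (g - g') = 0 := hker _ (by rw [map_sub, hgg, sub_self])
    rw [map_sub, sub_eq_zero] at this
    exact this
  let Ψ : B →+* F :=
    { toFun := fun w => e (G w) / (M : F)
      map_one' := by
        have : e (G 1) = e ((M : ℤ) : P) := key _ _ (by rw [hG]; simp)
        rw [this, map_intCast, div_self hM]
      map_mul' := by
        intro x y
        have : e ((M : P) * G (x * y)) = e (G x * G y) := key _ _ (by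
          rw [map_mul, map_mul, hG, hG, hG, map_intCast, map_mul]; ring)
        rw [map_mul, map_mul, map_intCast] at this
        field_simp
        linear_combination this
      map_zero' := by
        have : e (G 0) = e 0 := key _ _ (by rw [hG]; simp)
        rw [this, map_zero, zero_div]
      map_add' := by
        intro x y
        have : e (G (x + y)) = e (G x + G y) := key _ _ (by
          rw [map_add, hG, hG, hG, map_add]; ring)
        rw [this, map_add, add_div] }
  refine ⟨Ψ, fun w g hg => ?_⟩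
  change (M : F) * (e (G w) / (M : F)) = e g
  rw [mul_div_cancel₀ _ hM]
  exact key _ _ (by rw [hG, hg])

/-- finitely many homomorphisms `𝓞 K → ZMod p` -/
private lemma finite_homs (K : Type*) [Field K] [NumberField K] (p : ℕ) [NeZero p] :
    Finite (𝓞 K →+* ZMod p) := by
  classical
  obtain ⟨s, hs⟩ := (Module.Finite.fg_top : (⊤ : Submodule ℤ (𝓞 K)).FG)
  refine Finite.of_injective (fun Ψ : 𝓞 K →+* ZMod p => fun x : s => Ψ (x : 𝓞 K)) ?_
  intro Ψ Ψ' h
  ext w
  have hw : w ∈ Submodule.span ℤ (s : Set (𝓞 K)) := by rw [hs]; trivial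
  induction hw using Submodule.span_induction with
  | mem x hx => exact congrFun h ⟨x, by simpa using hx⟩
  | zero => simp
  | add x y _ _ hx hy => rw [map_add, map_add, hx, hy]
  | smul c x _ hx => rw [zsmul_eq_mul, map_mul, map_mul, hx, map_intCast, map_intCast]

private lemma intCast_ne (M : ℤ) (hM : M ≠ 0) (p : ℕ) (hp : M.natAbs < p) :
    (M : ZMod p) ≠ 0 := by
  intro h
  rw [ZMod.intCast_zmod_eq_zero_iff_dvd] at h
  have := Int.natAbs_dvd_natAbs.mpr h
  rw [Int.natAbs_natCast] at this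
  exact absurd (Nat.le_of_dvd (Int.natAbs_pos.mpr hM) this) (by omega)

/-- the relations of `θ` vanish at the roots mod `p` -/
private lemma ker_eval (f : ℤ[X]) {K : Type*}
    [Field K] [Algebra ℚ K] (θ : K) (hθ : ∀ g : ℚ[X], aeval θ g = 0 → f.map (Int.castRingHom ℚ) ∣ g)
    {F : Type*} [Field F] (hc : (f.content : F) ≠ 0) (z : F)
    (hz : eval₂ (Int.castRingHom F) z f = 0) (g : ℤ[X])
    (hg : aeval θ g = 0) : eval₂ (Int.castRingHom F) z g = 0 := by
  have h1 : aeval θ (g.map (Int.castRingHom ℚ)) = 0 := by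
    have := aeval_map_algebraMap ℚ θ g
    rw [hg] at this
    exact this
  have h2 := hθ _ h1
  have h4 : f.primPart ∣ g := by
    rw [IsPrimitive.Int.dvd_iff_map_cast_dvd_map_cast _ _ f.isPrimitive_primPart]
    refine Dvd.dvd.trans ?_ h2
    conv_rhs => rw [f.eq_C_content_mul_primPart]
    rw [Polynomial.map_mul]
    exact dvd_mul_left _ _
  have h5 : eval₂ (Int.castRingHom F) z f.primPart = 0 := by
    rw [f.eq_C_content_mul_primPart, eval₂_mul, eval₂_C] at hz
    exact (mul_eq_zero.mp hz).resolve_left (by simpa using hc)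
  obtain ⟨q, hq⟩ := h4
  rw [hq, eval₂_mul, h5, zero_mul]

/-- the number of roots mod `p` is at most `r_K(p)` when `K` is generated by a root -/
private lemma nroots_le_aux (f : ℤ[X]) (hf0 : f ≠ 0) (K : Type*) [Field K] [NumberField K]
    [Algebra ℚ K] (θ : K)
    (hθ : ∀ g : ℚ[X], aeval θ g = 0 → f.map (Int.castRingHom ℚ) ∣ g)
    (hθ0 : aeval θ f = 0) (hgen : Algebra.adjoin ℚ {θ} = ⊤) :
    ∃ N : ℕ, ∀ p : ℕ, p.Prime → N ≤ p → nroots f p ≤ rK K p := by
  classical
  let π : ℤ[X] →+* K := (aeval θ : ℤ[X] →ₐ[ℤ] K)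
  have hπX : π X = θ := by simp [π]
  obtain ⟨M, hM0, hM⟩ := genM K π.range (fun x => by
    refine frac_adjoin {θ} π.range ?_ x ?_
    · rintro y rfl
      exact ⟨1, one_ne_zero, X, by simp [hπX]⟩
    · rw [hgen]; trivial)
  -- the integer `t = a θ`
  have hti : IsIntegral ℤ (algebraMap ℤ K f.leadingCoeff * θ) :=
    ⟨f.integralNormalization, monic_integralNormalization hf0,
      integralNormalization_aeval_eq_zero hθ0 (fun x hx => by simpa using hx)⟩
  let t : 𝓞 K := ⟨algebraMap ℤ K f.leadingCoeff * θ, hti⟩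
  refine ⟨M.natAbs + f.leadingCoeff.natAbs + f.content.natAbs + 1, fun p hp hpN => ?_⟩
  haveI : Fact p.Prime := ⟨hp⟩
  haveI := finite_homs K p
  have hMp : (M : ZMod p) ≠ 0 := intCast_ne M hM0 p (by omega)
  have hap : (f.leadingCoeff : ZMod p) ≠ 0 :=
    intCast_ne _ (leadingCoeff_ne_zero.mpr hf0) p (by omega)
  have hcp : (f.content : ZMod p) ≠ 0 :=
    intCast_ne _ (by simpa [content_eq_zero_iff] using hf0) p (by omega)
  have main : ∀ z : {z : ZMod p // (f.map (Int.castRingHom (ZMod p))).eval z = 0},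
      ∃ Ψ : 𝓞 K →+* ZMod p, Ψ t = (f.leadingCoeff : ZMod p) * z := by
    rintro ⟨z, hz⟩
    rw [eval_map] at hz
    obtain ⟨Ψ, hΨ⟩ := ext_hom (algebraMap (𝓞 K) K) π (eval₂RingHom (Int.castRingHom (ZMod p)) z)
      (fun g hg => ker_eval f θ hθ hcp z hz g hg) M hMp (fun w => hM w)
    refine ⟨Ψ, ?_⟩
    have h1 := hΨ t (C (M * f.leadingCoeff) * X) (by
      change aeval θ _ = (M : K) * (algebraMap ℤ K f.leadingCoeff * θ)
      rw [map_mul, aeval_C, aeval_X, map_mul, mul_assoc]
      rfl)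
    rw [coe_eval₂RingHom, eval₂_mul, eval₂_C, eval₂_X, eq_intCast, Int.cast_mul, mul_assoc] at h1
    exact mul_left_cancel₀ hMp h1
  choose Ψ hΨ using main
  refine Nat.card_le_card_of_injective Ψ ?_
  intro z z' h
  have := hΨ z
  rw [h, hΨ z'] at this
  exact (Subtype.ext (mul_left_cancel₀ hap this)).symm

/-- roots mod `p` of a polynomial from homomorphisms -/
private lemma root_of_hom (f : ℤ[X]) (hd : 1 ≤ f.natDegree) (K : Type*) [Field K] [NumberField K]
    (θ : K) (hθ0 : aeval θ f = 0) (t : 𝓞 K) (ht : (t : K) = algebraMap ℤ K f.leadingCoeff * θ)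
    {F : Type*} [Field F] (ha : (f.leadingCoeff : F) ≠ 0) (Ψ : 𝓞 K →+* F) :
    (f.map (Int.castRingHom F)).eval (Ψ t / (f.leadingCoeff : F)) = 0 := by
  have h1 : aeval (t : K) f.integralNormalization = 0 := by
    rw [ht]
    exact integralNormalization_aeval_eq_zero hθ0 (fun x hx => by simpa using hx)
  have h2 : aeval t f.integralNormalization = 0 := by
    have h3 := aeval_algebraMap_apply K t f.integralNormalization
    have h4 : algebraMap (𝓞 K) K (aeval t f.integralNormalization) = 0 := by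
      rw [← h3]; exact h1
    exact (FaithfulSMul.algebraMap_eq_zero_iff (𝓞 K) K).mp h4
  have h3 : eval₂ (Int.castRingHom F) (Ψ t) f.integralNormalization = 0 := by
    have h4 := hom_eval₂ f.integralNormalization (algebraMap ℤ (𝓞 K)) Ψ t
    rw [aeval_def] at h2
    rw [h2, map_zero] at h4
    rw [h4]
    congr 1
    exact RingHom.ext_int _ _
  have h4 := integralNormalization_eval₂_leadingCoeff_mul hd (Int.castRingHom F)
    (Ψ t / (f.leadingCoeff : F))
  rw [eq_intCast, mul_div_cancel₀ _ ha, h3] at h4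
  rw [eval_map]
  exact (mul_eq_zero.mp h4.symm).resolve_left (pow_ne_zero _ ha)

/-- pairs of distinct roots from homomorphisms -/
private lemma pairs_ge_aux (f : ℤ[X]) (hf0 : f ≠ 0) (hd : 1 ≤ f.natDegree) (K : Type*) [Field K]
    [NumberField K] [Algebra ℚ K] (ξ₁ ξ₂ : K) (hne : ξ₁ ≠ ξ₂)
    (h₁ : aeval ξ₁ f = 0) (h₂ : aeval ξ₂ f = 0) (hgen : Algebra.adjoin ℚ {ξ₁, ξ₂} = ⊤) :
    ∃ N : ℕ, ∀ p : ℕ, p.Prime → N ≤ p → rK K p + nroots f p ≤ nroots f p ^ 2 := by
  classical
  have ha0 : f.leadingCoeff ≠ 0 := leadingCoeff_ne_zero.mpr hf0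
  have hti : ∀ ξ : K, aeval ξ f = 0 → IsIntegral ℤ (algebraMap ℤ K f.leadingCoeff * ξ) :=
    fun ξ hξ => ⟨f.integralNormalization, monic_integralNormalization hf0,
      integralNormalization_aeval_eq_zero hξ (fun x hx => by simpa using hx)⟩
  let t₁ : 𝓞 K := ⟨algebraMap ℤ K f.leadingCoeff * ξ₁, hti _ h₁⟩
  let t₂ : 𝓞 K := ⟨algebraMap ℤ K f.leadingCoeff * ξ₂, hti _ h₂⟩
  have hta : (f.leadingCoeff : K) ≠ 0 := by exact_mod_cast ha0
  have htne : t₁ - t₂ ≠ 0 := by
    intro h
    apply hne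
    have : (t₁ : K) = t₂ := by rw [sub_eq_zero.mp h]
    have h' : (f.leadingCoeff : K) * ξ₁ = (f.leadingCoeff : K) * ξ₂ := this
    exact mul_left_cancel₀ hta h'
  -- a nonzero integer multiple of `t₁ - t₂`
  obtain ⟨D, hD0, u, hu⟩ : ∃ D : ℤ, D ≠ 0 ∧ ∃ u : 𝓞 K, (t₁ - t₂) * u = (D : 𝓞 K) := by
    have h := Ideal.comap_ne_bot_of_integral_mem (R := ℤ) (I := Ideal.span {t₁ - t₂}) htne
      (Ideal.mem_span_singleton_self _) (Algebra.IsIntegral.isIntegral _)
    obtain ⟨D, hD, hD0⟩ := Submodule.exists_mem_ne_zero_of_ne_bot h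
    rw [Ideal.mem_comap, Ideal.mem_span_singleton] at hD
    obtain ⟨u, hu⟩ := hD
    exact ⟨D, hD0, u, by rw [← hu]; simp⟩
  -- finite index
  let S : Subring K := (Subring.closure {t₁, t₂}).map (algebraMap (𝓞 K) K)
  have hS : ∀ t ∈ ({t₁, t₂} : Set (𝓞 K)), (t : K) ∈ S := fun t ht =>
    ⟨t, Subring.subset_closure ht, rfl⟩
  obtain ⟨M, hM0, hM⟩ := genM K S (fun x => by
    refine frac_adjoin {ξ₁, ξ₂} S ?_ x (by rw [hgen]; trivial)
    rintro y (rfl | rfl)
    · exact ⟨f.leadingCoeff, ha0, hS t₁ (by simp)⟩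
    · exact ⟨f.leadingCoeff, ha0, hS t₂ (by simp)⟩)
  refine ⟨M.natAbs + f.leadingCoeff.natAbs + D.natAbs + 1, fun p hp hpN => ?_⟩
  haveI : Fact p.Prime := ⟨hp⟩
  haveI := finite_homs K p
  have hMp : (M : ZMod p) ≠ 0 := intCast_ne M hM0 p (by omega)
  have hap : (f.leadingCoeff : ZMod p) ≠ 0 := intCast_ne _ ha0 p (by omega)
  have hDp : (D : ZMod p) ≠ 0 := intCast_ne _ hD0 p (by omega)
  let R := {z : ZMod p // (f.map (Int.castRingHom (ZMod p))).eval z = 0}
  let r : (𝓞 K →+* ZMod p) → R × R := fun Ψ =>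
    (⟨_, root_of_hom f hd K ξ₁ h₁ t₁ rfl hap Ψ⟩, ⟨_, root_of_hom f hd K ξ₂ h₂ t₂ rfl hap Ψ⟩)
  have hr : ∀ Ψ, (r Ψ).1 ≠ (r Ψ).2 := by
    intro Ψ h
    have h' : Ψ t₁ / (f.leadingCoeff : ZMod p) = Ψ t₂ / (f.leadingCoeff : ZMod p) :=
      congrArg Subtype.val h
    rw [div_left_inj' hap] at h'
    apply hDp
    have := congrArg Ψ hu
    rw [map_mul, map_sub, h', sub_self, zero_mul, map_intCast] at this
    exact this.symm
  have hrinj : Function.Injective r := by
    intro Ψ Ψ' h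
    have e1 : Ψ t₁ = Ψ' t₁ := by
      have : Ψ t₁ / (f.leadingCoeff : ZMod p) = Ψ' t₁ / (f.leadingCoeff : ZMod p) :=
        congrArg Subtype.val (congrArg Prod.fst h)
      rwa [div_left_inj' hap] at this
    have e2 : Ψ t₂ = Ψ' t₂ := by
      have : Ψ t₂ / (f.leadingCoeff : ZMod p) = Ψ' t₂ / (f.leadingCoeff : ZMod p) :=
        congrArg Subtype.val (congrArg Prod.snd h)
      rwa [div_left_inj' hap] at this
    have e3 : Set.EqOn Ψ Ψ' (Subring.closure {t₁, t₂} : Subring (𝓞 K)) := by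
      apply RingHom.eqOn_set_closure
      rintro s (rfl | rfl)
      · exact e1
      · exact e2
    ext w
    obtain ⟨s, hs, hsw⟩ := hM w
    have hsw' : s = (M : 𝓞 K) * w := by
      apply FaithfulSMul.algebraMap_injective (𝓞 K) K
      rw [hsw, map_mul, map_intCast]
    have := e3 hs
    rw [hsw', map_mul, map_mul, map_intCast, map_intCast] at this
    exact mul_left_cancel₀ hMp this
  have hinj : Function.Injective (fun x : (𝓞 K →+* ZMod p) ⊕ R => (match x with
      | Sum.inl Ψ => r Ψ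
      | Sum.inr z => (z, z) : R × R)) := by
    rintro (Ψ | z) (Ψ' | z') h
    · exact congrArg Sum.inl (hrinj h)
    · exfalso
      have h' : r Ψ = (z', z') := h
      exact hr Ψ (by rw [h'])
    · exfalso
      have h' : (z, z) = r Ψ' := h
      exact hr Ψ' (by rw [← h'])
    · have h' : (z, z) = (z', z') := h
      exact congrArg Sum.inr (congrArg Prod.fst h')
  have := Nat.card_le_card_of_injective _ hinj
  rw [Nat.card_sum, Nat.card_prod] at this
  rw [sq]
  exact this

end aux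

/-- for almost all `p` the number of roots of `f` mod `p` is at most `r_K(p)`, `K = ℚ(θ)` -/
theorem nroots_le (f : ℤ[X]) (hf : Irreducible (f.map (Int.castRingHom ℚ))) :
    ∃ (K : Type) (_ : Field K) (_ : NumberField K), ∃ N : ℕ, ∀ p : ℕ, p.Prime → N ≤ p →
      nroots f p ≤ rK K p := by
  classical
  have hf0 : f ≠ 0 := by rintro rfl; simp at hf
  haveI : Fact (Irreducible (f.map (Int.castRingHom ℚ))) := ⟨hf⟩
  refine ⟨AdjoinRoot (f.map (Int.castRingHom ℚ)), inferInstance, inferInstance, ?_⟩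
  refine @nroots_le_aux f hf0 (AdjoinRoot (f.map (Int.castRingHom ℚ))) _ _
    (AdjoinRoot.instAlgebra _) (AdjoinRoot.root _) ?_ ?_ ?_
  · intro g hg
    rwa [AdjoinRoot.aeval_eq, AdjoinRoot.mk_eq_zero] at hg
  · have h : eval₂ ((AdjoinRoot.of (f.map (Int.castRingHom ℚ))).comp (Int.castRingHom ℚ))
        (AdjoinRoot.root (f.map (Int.castRingHom ℚ))) f = 0 := by
      rw [← eval₂_map]
      exact AdjoinRoot.eval₂_root _
    have e : ∀ φ : ℤ →+* AdjoinRoot (f.map (Int.castRingHom ℚ)),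
        eval₂ φ (AdjoinRoot.root (f.map (Int.castRingHom ℚ))) f = 0 := fun φ => by
      rw [RingHom.ext_int φ ((AdjoinRoot.of (f.map (Int.castRingHom ℚ))).comp
        (Int.castRingHom ℚ))]
      exact h
    exact e _
  · exact AdjoinRoot.adjoinRoot_eq_top

/-- for almost all `p` the number of pairs of distinct roots of `f` mod `p` is at least `r_K(p)`,
where `K` is generated by two distinct roots -/
theorem pairs_ge (f : ℤ[X]) (hf : Irreducible (f.map (Int.castRingHom ℚ)))
    (hd : 2 ≤ f.natDegree) :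
    ∃ (K : Type) (_ : Field K) (_ : NumberField K), ∃ N : ℕ, ∀ p : ℕ, p.Prime → N ≤ p →
      rK K p + nroots f p ≤ nroots f p ^ 2 := by
  classical
  have hf0 : f ≠ 0 := by rintro rfl; simp at hf
  -- two distinct roots in the splitting field
  let Ω := SplittingField (f.map (Int.castRingHom ℚ))
  have hΩ : ∀ θ : Ω, aeval θ (f.map (Int.castRingHom ℚ)) = aeval θ f := fun θ =>
    aeval_map_algebraMap ℚ θ f
  obtain ⟨θ₁, θ₂, hne, hθ₁, hθ₂⟩ : ∃ θ₁ θ₂ : Ω, θ₁ ≠ θ₂ ∧ aeval θ₁ f = 0 ∧ aeval θ₂ f = 0 := by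
    have hcard : Fintype.card ((f.map (Int.castRingHom ℚ)).rootSet Ω) =
        (f.map (Int.castRingHom ℚ)).natDegree :=
      card_rootSet_eq_natDegree hf.separable (SplittingField.splits _)
    have h2 : 1 < Fintype.card ((f.map (Int.castRingHom ℚ)).rootSet Ω) := by
      rw [hcard, natDegree_map_eq_of_injective (RingHom.injective_int _)]
      exact hd
    obtain ⟨x, y, hxy⟩ := Fintype.one_lt_card_iff.mp h2
    refine ⟨x, y, fun h => hxy (Subtype.ext h), ?_, ?_⟩
    · rw [← hΩ]; exact (mem_rootSet.mp x.2).2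
    · rw [← hΩ]; exact (mem_rootSet.mp y.2).2
  let L := IntermediateField.adjoin ℚ {θ₁, θ₂}
  haveI : CharZero Ω := algebraRat.charZero Ω
  haveI : FiniteDimensional ℚ L := IntermediateField.finiteDimensional_adjoin
    (fun x _ => Algebra.IsIntegral.isIntegral x)
  haveI : CharZero L := algebraRat.charZero L
  haveI : NumberField L := ⟨⟩
  let ξ₁ : L := ⟨θ₁, IntermediateField.subset_adjoin _ _ (by simp)⟩
  let ξ₂ : L := ⟨θ₂, IntermediateField.subset_adjoin _ _ (by simp)⟩
  have hξne : ξ₁ ≠ ξ₂ := fun h => hne (congrArg Subtype.val h)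
  have hξ : ∀ ξ : L, aeval (ξ : Ω) f = 0 → aeval ξ f = 0 := by
    intro ξ h
    have := aeval_algebraMap_apply Ω ξ f
    apply (algebraMap L Ω).injective
    rw [map_zero, ← this]
    exact h
  have hgen : Algebra.adjoin ℚ {ξ₁, ξ₂} = ⊤ := by
    rw [_root_.eq_top_iff]
    rintro ⟨x, hx⟩ -
    have hx' : x ∈ Algebra.adjoin ℚ {θ₁, θ₂} := by
      rw [← IntermediateField.adjoin_toSubalgebra_of_isAlgebraic
        (fun x _ => Algebra.IsAlgebraic.isAlgebraic x)]
      exact hx
    have key : ∀ y ∈ Algebra.adjoin ℚ {θ₁, θ₂}, ∃ h : y ∈ L,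
        (⟨y, h⟩ : L) ∈ Algebra.adjoin ℚ {ξ₁, ξ₂} := by
      intro y hy
      induction hy using Algebra.adjoin_induction with
      | mem y hy =>
        rcases hy with rfl | rfl
        · exact ⟨IntermediateField.subset_adjoin _ _ (by simp), Algebra.subset_adjoin (by simp [ξ₁])⟩
        · exact ⟨IntermediateField.subset_adjoin _ _ (by simp), Algebra.subset_adjoin (by simp [ξ₂])⟩
      | algebraMap r => exact ⟨L.algebraMap_mem r, Subalgebra.algebraMap_mem _ r⟩
      | add y z _ _ hy hz =>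
        obtain ⟨h1, h2⟩ := hy
        obtain ⟨h3, h4⟩ := hz
        exact ⟨L.add_mem h1 h3, Subalgebra.add_mem _ h2 h4⟩
      | mul y z _ _ hy hz =>
        obtain ⟨h1, h2⟩ := hy
        obtain ⟨h3, h4⟩ := hz
        exact ⟨L.mul_mem h1 h3, Subalgebra.mul_mem _ h2 h4⟩
    exact (key x hx').2
  exact ⟨L, inferInstance, inferInstance, pairs_ge_aux f hf0 (by omega) L ξ₁ ξ₂ hξne (hξ _ hθ₁)
    (hξ _ hθ₂) hgen⟩

end Pool.Agent.Helper19.Sec
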