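import Pool.Agent.Helper19.Sec.Zeta
import Pool.Agent.Helper19.Sec.Roots

/-!
# The primes modulo which an irreducible polynomial has no root (module DIV)
-/

set_option autoImplicit false

namespace Pool.Agent.Helper19.Sec

open Polynomial NumberField

theorem div_nroots_zero (f : ℤ[X]) (p : ℕ) [Fact p.Prime] (h : nroots f p = 0) (z : ZMod p) :
    (f.map (Int.castRingHom (ZMod p))).eval z ≠ 0 := by
  intro hz
  unfold nroots at h
  rcases Nat.card_eq_zero.1 h with h1 | h1
  · exact h1.false ⟨z, hz⟩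
  · exact h1.not_finite inferInstance

theorem div_nroots_le (f : ℤ[X]) (p : ℕ) (hp : p.Prime) (hlt : f.leadingCoeff.natAbs < p)
    (hf0 : f ≠ 0) : nroots f p ≤ f.natDegree := by
  classical
  have := Fact.mk hp
  have hne : f.map (Int.castRingHom (ZMod p)) ≠ 0 := by
    intro h0
    have h1 := congrArg (fun g => g.coeff f.natDegree) h0
    simp only [coeff_map, coeff_zero, coeff_natDegree, eq_intCast] at h1
    have h2 : (p : ℤ) ∣ f.leadingCoeff := (ZMod.intCast_zmod_eq_zero_iff_dvd _ _).1 h1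
    have h3 := Int.natCast_dvd.1 h2
    have h4 : f.leadingCoeff.natAbs ≠ 0 := by
      rw [Int.natAbs_ne_zero]
      exact leadingCoeff_ne_zero.2 hf0
    have := Nat.le_of_dvd (Nat.pos_of_ne_zero h4) h3
    omega
  have h1 : nroots f p ≤ (f.map (Int.castRingHom (ZMod p))).roots.toFinset.card := by
    have hinj : Function.Injective
        (fun z : {z : ZMod p // (f.map (Int.castRingHom (ZMod p))).eval z = 0} =>
          (⟨z.1, by
            rw [Multiset.mem_toFinset, mem_roots hne]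
            exact z.2⟩ : {z // z ∈ (f.map (Int.castRingHom (ZMod p))).roots.toFinset})) := by
      intro a b hab
      have h := congrArg Subtype.val hab
      exact Subtype.ext h
    have h2 := Nat.card_le_card_of_injective _ hinj
    have h3 : Nat.card {z // z ∈ (f.map (Int.castRingHom (ZMod p))).roots.toFinset} =
      (f.map (Int.castRingHom (ZMod p))).roots.toFinset.card := Nat.card_eq_finsetCard _
    rw [h3] at h2
    exact h2
  exact h1.trans ((Multiset.toFinset_card_le _).trans ((card_roots' _).trans natDegree_map_le))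

theorem div_rK_rat (p : ℕ) : rK ℚ p = 1 := by
  unfold rK
  have hss : Subsingleton (𝓞 ℚ →+* ZMod p) := by
    refine ⟨fun φ ψ => ?_⟩
    have h1 : φ.comp Rat.ringOfIntegersEquiv.symm.toRingHom =
        ψ.comp Rat.ringOfIntegersEquiv.symm.toRingHom := Subsingleton.elim _ _
    refine RingHom.ext fun x => ?_
    have h2 := congrArg (fun θ : ℤ →+* ZMod p => θ (Rat.ringOfIntegersEquiv x)) h1
    have h3 : Rat.ringOfIntegersEquiv.symm (Rat.ringOfIntegersEquiv x) = x :=
      Rat.ringOfIntegersEquiv.symm_apply_apply x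
    change φ (Rat.ringOfIntegersEquiv.symm (Rat.ringOfIntegersEquiv x)) =
      ψ (Rat.ringOfIntegersEquiv.symm (Rat.ringOfIntegersEquiv x)) at h2
    rwa [h3] at h2
  have hne : Nonempty (𝓞 ℚ →+* ZMod p) :=
    ⟨(Int.castRingHom (ZMod p)).comp Rat.ringOfIntegersEquiv.toRingHom⟩
  exact Nat.card_eq_one_iff_unique.2 ⟨hss, hne⟩

/-- the elementary inequality for a single prime -/
theorem div_ineq (ρ n a b : ℕ) (h1 : ρ ≤ n) (ha : ρ ≤ a) (hb : b + ρ ≤ ρ ^ 2) :
    (b : ℝ) - n * a + n ≤ n * (if ρ = 0 then 1 else 0) := by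
  have ha' : (ρ : ℝ) ≤ a := by exact_mod_cast ha
  have hb' : (b : ℝ) + ρ ≤ ρ ^ 2 := by exact_mod_cast hb
  have h1' : (ρ : ℝ) ≤ n := by exact_mod_cast h1
  have hn : (0 : ℝ) ≤ n := by positivity
  have h2 : (n : ℝ) * ρ ≤ n * a := mul_le_mul_of_nonneg_left ha' hn
  split_ifs with h0
  · subst h0
    simp only [Nat.cast_zero] at *
    nlinarith
  · have h3 : (1 : ℝ) ≤ ρ := by exact_mod_cast Nat.one_le_iff_ne_zero.2 h0
    nlinarith [mul_nonneg (sub_nonneg.2 h3) (sub_nonneg.2 h1')]

/-- the primes modulo which an irreducible polynomial has no root -/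
theorem no_root_primes (f : ℤ[X]) (hf : Irreducible (f.map (Int.castRingHom ℚ)))
    (hd : 2 ≤ f.natDegree) (N : ℕ) :
    ¬ Summable (fun p : {p : ℕ | p.Prime ∧ N ≤ p ∧
      ∀ z : ZMod p, (f.map (Int.castRingHom (ZMod p))).eval z ≠ 0} => (1 : ℝ) / (p : ℕ)) := by
  classical
  intro hsum
  have hf0 : f ≠ 0 := by
    rintro rfl
    simp at hd
  obtain ⟨K1, i1, j1, N1, h1⟩ := nroots_le f hf
  obtain ⟨K2, i2, j2, N2, h2⟩ := pairs_ge f hf hd
  obtain ⟨B0, hB0⟩ := rK_sum ℚ
  obtain ⟨B1, hB1⟩ := rK_sum K1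
  obtain ⟨B2, hB2⟩ := rK_sum K2
  set n : ℕ := f.natDegree with hn
  set A : Set ℕ := {p : ℕ | p.Prime ∧ N ≤ p ∧
      ∀ z : ZMod p, (f.map (Int.castRingHom (ZMod p))).eval z ≠ 0} with hA
  set N' : ℕ := max (max N N1) (max N2 (f.leadingCoeff.natAbs + 1)) with hN'
  -- the majorant
  let g1 : Nat.Primes → ℝ := fun p => A.indicator (fun m : ℕ => (1 : ℝ) / m) (p : ℕ)
  let g2 : Nat.Primes → ℝ := fun p => if (p : ℕ) < N' then (rK K2 p : ℝ) + n else 0
  have hg1 : Summable g1 := by
    have h3 : Summable (A.indicator (fun m : ℕ => (1 : ℝ) / m)) :=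
      summable_subtype_iff_indicator.1 hsum
    exact h3.comp_injective Subtype.val_injective
  have hg2 : Summable g2 := by
    refine summable_of_hasFiniteSupport ?_
    refine Set.Finite.subset ((Set.finite_Iio N').preimage
      (f := fun p : Nat.Primes => (p : ℕ)) (Subtype.val_injective.injOn)) ?_
    intro p hp
    rw [Set.mem_preimage, Set.mem_Iio]
    by_contra hcon
    exact hp (if_neg hcon)
  set C : ℝ := ∑' p, (n * g1 p + g2 p) with hC
  have hkey : ∀ s : ℝ, 1 < s → s ≤ 2 → Real.log (1 / (s - 1)) ≤ C + B2 + n * B1 + n * B0 := by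
    intro s hs1 hs2
    obtain ⟨sum0, bd0⟩ := hB0 s hs1 hs2
    obtain ⟨sum1, bd1⟩ := hB1 s hs1 hs2
    obtain ⟨sum2, bd2⟩ := hB2 s hs1 hs2
    have hterm : ∀ p : Nat.Primes,
        (rK K2 p : ℝ) * ((p : ℕ) : ℝ) ^ (-s) - n * ((rK K1 p : ℝ) * ((p : ℕ) : ℝ) ^ (-s)) +
          n * ((rK ℚ p : ℝ) * ((p : ℕ) : ℝ) ^ (-s)) ≤ n * g1 p + g2 p := by
      intro p
      have hp : (p : ℕ).Prime := p.2
      have := Fact.mk hp
      have hp1 : (1 : ℝ) ≤ ((p : ℕ) : ℝ) := by exact_mod_cast hp.one_lt.le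
      have hps0 : 0 ≤ ((p : ℕ) : ℝ) ^ (-s) := by positivity
      have hps1 : ((p : ℕ) : ℝ) ^ (-s) ≤ 1 / (p : ℕ) := by
        rw [one_div, ← Real.rpow_neg_one]
        exact Real.rpow_le_rpow_of_exponent_le hp1 (by linarith)
      have hps2 : ((p : ℕ) : ℝ) ^ (-s) ≤ 1 := by
        refine hps1.trans ?_
        rw [div_le_one (by positivity)]
        exact hp1
      have hg1nn : 0 ≤ g1 p := Set.indicator_nonneg (fun m _ => by positivity) _
      rw [div_rK_rat]
      by_cases hlt : (p : ℕ) < N'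
      · have e2 : g2 p = (rK K2 p : ℝ) + n := if_pos hlt
        rw [e2]
        have a1 : (rK K2 p : ℝ) * ((p : ℕ) : ℝ) ^ (-s) ≤ rK K2 p :=
          mul_le_of_le_one_right (by positivity) hps2
        have a2 : 0 ≤ (n : ℝ) * ((rK K1 p : ℝ) * ((p : ℕ) : ℝ) ^ (-s)) := by positivity
        have a3 : (n : ℝ) * (((1 : ℕ) : ℝ) * ((p : ℕ) : ℝ) ^ (-s)) ≤ n := by
          rw [Nat.cast_one, one_mul]
          exact mul_le_of_le_one_right (by positivity) hps2
        have a4 : 0 ≤ (n : ℝ) * g1 p := by positivity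
        linarith
      · have e2 : g2 p = 0 := if_neg hlt
        rw [e2, add_zero]
        push Not at hlt
        have m1 : N ≤ (p : ℕ) := ((le_max_left _ _).trans (le_max_left _ _)).trans hlt
        have m2 : N1 ≤ (p : ℕ) := ((le_max_right _ _).trans (le_max_left _ _)).trans hlt
        have m3 : N2 ≤ (p : ℕ) := ((le_max_left _ _).trans (le_max_right _ _)).trans hlt
        have m4 : f.leadingCoeff.natAbs + 1 ≤ (p : ℕ) :=
          ((le_max_right _ _).trans (le_max_right _ _)).trans hlt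
        have r1 := h1 p hp m2
        have r2 := h2 p hp m3
        have r3 := div_nroots_le f p hp (by omega) hf0
        have r4 := div_ineq (nroots f p) n (rK K1 p) (rK K2 p) r3 r1 r2
        have r5 : (rK K2 p : ℝ) * ((p : ℕ) : ℝ) ^ (-s) -
            n * ((rK K1 p : ℝ) * ((p : ℕ) : ℝ) ^ (-s)) +
            n * (((1 : ℕ) : ℝ) * ((p : ℕ) : ℝ) ^ (-s)) =
            ((rK K2 p : ℝ) - n * rK K1 p + n) * ((p : ℕ) : ℝ) ^ (-s) := by
          push_cast
          ring
        rw [r5]
        refine (mul_le_mul_of_nonneg_right r4 hps0).trans ?_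
        by_cases h0 : nroots f p = 0
        · rw [if_pos h0, mul_one]
          have hmem : (p : ℕ) ∈ A := ⟨hp, m1, div_nroots_zero f p h0⟩
          have e1 : g1 p = 1 / (p : ℕ) := Set.indicator_of_mem hmem _
          rw [e1]
          exact mul_le_mul_of_nonneg_left hps1 (by positivity)
        · rw [if_neg h0, mul_zero, zero_mul]
          positivity
    have hs3 : Summable fun p : Nat.Primes =>
        (rK K2 p : ℝ) * ((p : ℕ) : ℝ) ^ (-s) - n * ((rK K1 p : ℝ) * ((p : ℕ) : ℝ) ^ (-s)) +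
          n * ((rK ℚ p : ℝ) * ((p : ℕ) : ℝ) ^ (-s)) :=
      (sum2.sub (sum1.mul_left _)).add (sum0.mul_left _)
    have hle := hs3.tsum_le_tsum hterm ((hg1.mul_left _).add hg2)
    rw [(sum2.sub (sum1.mul_left _)).tsum_add (sum0.mul_left _),
      sum2.tsum_sub (sum1.mul_left _), tsum_mul_left, tsum_mul_left] at hle
    rw [abs_le] at bd0 bd1 bd2
    have hnn : (0 : ℝ) ≤ n := by positivity
    have c0 := mul_le_mul_of_nonneg_left bd0.1 hnn
    have c1 := mul_le_mul_of_nonneg_left bd1.2 hnn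
    have c2 := bd2.1
    nlinarith
  set D : ℝ := C + B2 + n * B1 + n * B0 with hD
  have hDs := hkey (1 + Real.exp (-(|D| + 1))) (by linarith [Real.exp_pos (-(|D| + 1))]) (by
    have : Real.exp (-(|D| + 1)) ≤ 1 := Real.exp_le_one_iff.2 (by linarith [abs_nonneg D])
    linarith)
  have e : (1 : ℝ) / (1 + Real.exp (-(|D| + 1)) - 1) = Real.exp (|D| + 1) := by
    rw [add_sub_cancel_left, one_div, ← Real.exp_neg, neg_neg]
  rw [e, Real.log_exp] at hDs
  linarith [le_abs_self D]

end Pool.Agent.Helper19.Sec
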