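import Mathlib

/-!
The finite combinatorics: an involution-like argument on the set of roots.
-/

set_option autoImplicit false

namespace Pool.Agent.Helper19.Sec

theorem comb {α : Type*} [DecidableEq α] (Θ : Finset α) (hcard : 6 ≤ Θ.card)
    (heven : Even Θ.card) (e : α → Prop) [DecidablePred e] (hodd : Odd (Θ.filter e).card)
    (h4 : ∀ θ₁ ∈ Θ, ∀ θ₂ ∈ Θ, ∀ θ₃ ∈ Θ, ∀ θ₄ ∈ Θ, θ₁ ≠ θ₂ → θ₃ ≠ θ₄ → θ₁ ≠ θ₃ → θ₁ ≠ θ₄ →
      θ₂ ≠ θ₃ → θ₂ ≠ θ₄ → (e θ₁ ↔ e θ₂) → (e θ₃ ↔ e θ₄) → (e θ₁ ↔ e θ₃))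
    (φ : α → α) (hφ : ∀ θ ∈ Θ, φ θ ∈ Θ) (hinj : Set.InjOn φ Θ)
    (hP : ∀ θ ∈ Θ, ∀ θ' ∈ Θ, (e θ ↔ e θ') → (e (φ θ) ↔ e (φ θ'))) : ∃ θ ∈ Θ, φ θ = θ := by
  -- general statement for a predicate whose class is a singleton
  have key : ∀ (d : α → Prop) [DecidablePred d], (∀ θ, d θ ↔ e θ) ∨ (∀ θ, d θ ↔ ¬ e θ) →
      (Θ.filter d).card = 1 → ∃ θ ∈ Θ, φ θ = θ := by
    intro d _ hd h1
    have hPd : ∀ θ ∈ Θ, ∀ θ' ∈ Θ, (d θ ↔ d θ') → (d (φ θ) ↔ d (φ θ')) := by
      intro θ hθ θ' hθ' h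
      have := hP θ hθ θ' hθ'
      rcases hd with hd | hd
      · simp only [hd] at h ⊢
        exact this h
      · simp only [hd] at h ⊢
        tauto
    obtain ⟨θ0, hθ0⟩ := Finset.card_eq_one.mp h1
    have hθ0Θ : θ0 ∈ Θ ∧ d θ0 := by
      have : θ0 ∈ Θ.filter d := by rw [hθ0]; exact Finset.mem_singleton_self _
      exact Finset.mem_filter.mp this
    have huniq : ∀ θ ∈ Θ, d θ → θ = θ0 := by
      intro θ hθ hdθ
      have : θ ∈ Θ.filter d := Finset.mem_filter.mpr ⟨hθ, hdθ⟩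
      rw [hθ0] at this
      exact Finset.mem_singleton.mp this
    set T := Θ.filter (fun θ => ¬ d θ) with hT
    have hTcard : T.card + 1 = Θ.card := by
      rw [hT, ← h1, add_comm]
      exact Finset.card_filter_add_card_filter_not (s := Θ) d
    have himg : ∀ t ∈ T, φ t ∈ T := by
      intro t ht
      rw [hT, Finset.mem_filter] at ht
      rw [hT, Finset.mem_filter]
      refine ⟨hφ t ht.1, fun hdφ => ?_⟩
      -- all elements of `T` are mapped to `θ0`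
      have h2 : ∀ t' ∈ T, φ t' = θ0 := by
        intro t' ht'
        rw [hT, Finset.mem_filter] at ht'
        apply huniq _ (hφ t' ht'.1)
        exact (hPd t ht.1 t' ht'.1 (by tauto)).mp hdφ
      have h3 : T.card ≤ 1 := by
        rw [Finset.card_le_one]
        intro x hx y hy
        have hx' := (Finset.mem_filter.mp hx).1
        have hy' := (Finset.mem_filter.mp hy).1
        exact hinj hx' hy' ((h2 x hx).trans (h2 y hy).symm)
      omega
    refine ⟨θ0, hθ0Θ.1, ?_⟩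
    apply huniq _ (hφ θ0 hθ0Θ.1)
    by_contra hnd
    have h5 : φ θ0 ∈ T := Finset.mem_filter.mpr ⟨hφ θ0 hθ0Θ.1, hnd⟩
    have hTT : T.image φ = T := by
      apply Finset.eq_of_subset_of_card_le
      · intro w hw
        obtain ⟨t, ht, rfl⟩ := Finset.mem_image.mp hw
        exact himg t ht
      · rw [Finset.card_image_of_injOn]
        exact hinj.mono (fun t ht => (Finset.mem_filter.mp ht).1)
    rw [← hTT] at h5
    obtain ⟨t, ht, hte⟩ := Finset.mem_image.mp h5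
    have ht' := Finset.mem_filter.mp ht
    have := hinj ht'.1 hθ0Θ.1 hte
    exact ht'.2 (this ▸ hθ0Θ.2)
  have hsum := Finset.card_filter_add_card_filter_not (s := Θ) e
  have hodd' : Odd (Θ.filter (fun θ => ¬ e θ)).card := by
    rw [Nat.even_iff] at heven
    rw [Nat.odd_iff] at hodd ⊢
    omega
  by_cases hA : (Θ.filter e).card = 1
  · exact key e (Or.inl fun _ => Iff.rfl) hA
  by_cases hB : (Θ.filter (fun θ => ¬ e θ)).card = 1
  · exact key (fun θ => ¬ e θ) (Or.inr fun _ => Iff.rfl) hB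
  exfalso
  have hA2 : 1 < (Θ.filter e).card := by
    rcases hodd with ⟨n, hn⟩
    omega
  have hB2 : 1 < (Θ.filter (fun θ => ¬ e θ)).card := by
    rcases hodd' with ⟨n, hn⟩
    omega
  obtain ⟨a, ha, b, hb, hab⟩ := Finset.one_lt_card.mp hA2
  obtain ⟨c, hc, d, hd, hcd⟩ := Finset.one_lt_card.mp hB2
  rw [Finset.mem_filter] at ha hb hc hd
  have hne : ∀ {s t : α}, e s → ¬ e t → s ≠ t := by
    rintro s t hs ht rfl
    exact ht hs
  have := h4 a ha.1 b hb.1 c hc.1 d hd.1 hab hcd (hne ha.2 hc.2) (hne ha.2 hd.2) (hne hb.2 hc.2)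
    (hne hb.2 hd.2) (by tauto) (by tauto)
  exact hc.2 (this.mp ha.2)

end Pool.Agent.Helper19.Sec
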