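import Mathlib

/-!
Definitions for the theorem on sections of the fundamental group of ramified quadratic twists of
hyperelliptic curves (MP_896029_ag).
-/

set_option autoImplicit false

namespace Pool.Agent.Helper19.Sec

open Polynomial

/-- `φ` is a Frobenius lift and `τ` an inertia element with respect to the valuation `v`, whose
residue characteristic is not two. -/
structure IsLoc {E Γ₀ : Type*} [Field E] [LinearOrderedCommGroupWithZero Γ₀] (v : Valuation E Γ₀)
    (φ τ : E →+* E) (q : ℕ) : Prop where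
  two_le : 2 ≤ q
  v2 : v 2 = 1
  vφ : ∀ z, v (φ z) = v z
  vτ : ∀ z, v (τ z) = v z
  hφ : ∀ z, v z ≤ 1 → v (φ z - z ^ q) < 1
  hτ : ∀ z, v z ≤ 1 → v (τ z - z) < 1

/-- the elliptic curve `Y² = (X - a)(X - b)(X - c)` -/
abbrev leg {F : Type*} [CommRing F] (a b c : F) : WeierstrassCurve.Affine F :=
  { a₁ := 0
    a₂ := -(a + b + c)
    a₃ := 0
    a₄ := a * b + b * c + c * a
    a₆ := -(a * b * c) }

/-- the roots `a, b, c` are integral and distinct modulo the maximal ideal -/
structure GoodV {E Γ₀ : Type*} [Field E] [LinearOrderedCommGroupWithZero Γ₀] (v : Valuation E Γ₀)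
    (a b c : E) : Prop where
  va : v a ≤ 1
  vb : v b ≤ 1
  vc : v c ≤ 1
  vab : v (a - b) = 1
  vbc : v (b - c) = 1
  vca : v (c - a) = 1

section ring

variable {E : Type*} [Field E]

/-- constants in the coordinate ring -/
noncomputable def cst (a b c : E) : E →+* (leg a b c).CoordinateRing :=
  (AdjoinRoot.of (leg a b c).polynomial).comp C

/-- the function `x` -/
noncomputable def gx (a b c : E) : (leg a b c).CoordinateRing :=
  AdjoinRoot.of (leg a b c).polynomial X

/-- the function `y` -/
noncomputable def gy (a b c : E) : (leg a b c).CoordinateRing :=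
  AdjoinRoot.root (leg a b c).polynomial

/-- evaluation of a regular function at a point `(X, Y)` with coordinates in a ring `M`, where the
coefficients are mapped to `M` by `ι` -/
noncomputable def ev {M : Type*} [CommRing M] (ι : E →+* M) (a b c : E) (X Y : M)
    (h : Y ^ 2 = (X - ι a) * (X - ι b) * (X - ι c)) : (leg a b c).CoordinateRing →+* M :=
  AdjoinRoot.lift (Polynomial.eval₂RingHom ι X) Y (by
    rw [WeierstrassCurve.Affine.polynomial, eval₂_sub, eval₂_add, eval₂_mul, eval₂_pow,
      eval₂_X, eval₂_C, eval₂_C]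
    simp only [coe_eval₂RingHom, eval₂_pow, eval₂_X, eval₂_C, map_zero,
      map_neg, map_add, map_mul]
    linear_combination h)

lemma g_eq (a b c : E) : (gy a b c) ^ 2 =
    (gx a b c - cst a b c a) * (gx a b c - cst a b c b) * (gx a b c - cst a b c c) := by
  have h : AdjoinRoot.mk (leg a b c).polynomial
      (X ^ 2 - C ((X - C a) * (X - C b) * (X - C c))) = 0 := by
    rw [AdjoinRoot.mk_eq_zero]
    refine ⟨1, ?_⟩
    rw [mul_one, WeierstrassCurve.Affine.polynomial]
    simp only [map_add, map_mul, map_neg, map_sub, map_zero, map_pow]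
    ring
  rw [map_sub, sub_eq_zero, map_pow, AdjoinRoot.mk_X, AdjoinRoot.mk_C] at h
  show (AdjoinRoot.root _) ^ 2 = _
  rw [h]
  simp only [gx, cst, map_mul, map_sub, RingHom.comp_apply]

/-- the ring endomorphism induced by `φ : E → E` (fixing `a, b, c`) on the coefficients -/
noncomputable def coef (φ : E →+* E) (a b c : E) (h : φ a = a ∧ φ b = b ∧ φ c = c) :
    (leg a b c).CoordinateRing →+* (leg a b c).CoordinateRing :=
  ev ((cst a b c).comp φ) a b c (gx a b c) (gy a b c) (by
    rw [RingHom.comp_apply, RingHom.comp_apply, RingHom.comp_apply, h.1, h.2.1, h.2.2]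
    exact g_eq a b c)

section points

lemma leg_map (φ : E →+* E) {a b c : E} (h : φ a = a ∧ φ b = b ∧ φ c = c) :
    WeierstrassCurve.map (leg a b c) φ = leg a b c := by
  simp only [WeierstrassCurve.map, leg, map_zero, map_neg, map_add, map_mul, h.1, h.2.1, h.2.2]

lemma nonsingular_map (φ : E →+* E) {a b c : E} (h : φ a = a ∧ φ b = b ∧ φ c = c) {x y : E}
    (hxy : (leg a b c).Nonsingular x y) : (leg a b c).Nonsingular (φ x) (φ y) := by
  have h1 := (WeierstrassCurve.Affine.map_nonsingular (leg a b c) φ.injective x y).mpr hxy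
  rwa [show WeierstrassCurve.Affine.map (leg a b c) φ = leg a b c from leg_map φ h] at h1

variable [DecidableEq E]

open WeierstrassCurve.Affine in
/-- the action of `φ` on the points of the curve -/
noncomputable def mapPt (φ : E →+* E) {a b c : E} (h : φ a = a ∧ φ b = b ∧ φ c = c) :
    (leg a b c).Point →+ (leg a b c).Point where
  toFun P := match P with
    | .zero => .zero
    | .some x y hxy => .some (φ x) (φ y) (nonsingular_map φ h hxy)
  map_zero' := rfl
  map_add' := by
    have hneg : ∀ x y : E, (leg a b c).negY (φ x) (φ y) = φ ((leg a b c).negY x y) := by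
      intro x y
      have := map_negY (W' := leg a b c) φ x y
      rwa [show WeierstrassCurve.Affine.map (leg a b c) φ = leg a b c from leg_map φ h] at this
    have hsl : ∀ x₁ x₂ y₁ y₂ : E, (leg a b c).slope (φ x₁) (φ x₂) (φ y₁) (φ y₂) =
        φ ((leg a b c).slope x₁ x₂ y₁ y₂) := by
      intro x₁ x₂ y₁ y₂
      have := map_slope (W := leg a b c) φ x₁ x₂ y₁ y₂
      rwa [show WeierstrassCurve.Affine.map (leg a b c) φ = leg a b c from leg_map φ h] at this
    have hX : ∀ x₁ x₂ ℓ : E, (leg a b c).addX (φ x₁) (φ x₂) (φ ℓ) =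
        φ ((leg a b c).addX x₁ x₂ ℓ) := by
      intro x₁ x₂ ℓ
      have := map_addX (W' := leg a b c) φ x₁ x₂ ℓ
      rwa [show WeierstrassCurve.Affine.map (leg a b c) φ = leg a b c from leg_map φ h] at this
    have hY : ∀ x₁ x₂ y₁ ℓ : E, (leg a b c).addY (φ x₁) (φ x₂) (φ y₁) (φ ℓ) =
        φ ((leg a b c).addY x₁ x₂ y₁ ℓ) := by
      intro x₁ x₂ y₁ ℓ
      have := map_addY (W' := leg a b c) φ x₁ y₁ x₂ ℓ
      rwa [show WeierstrassCurve.Affine.map (leg a b c) φ = leg a b c from leg_map φ h] at this
    rintro (_ | ⟨x₁, y₁, h₁⟩) (_ | ⟨x₂, y₂, h₂⟩)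
    any_goals rfl
    by_cases hxy : x₁ = x₂ ∧ y₁ = (leg a b c).negY x₂ y₂
    · rw [Point.add_of_Y_eq hxy.left hxy.right]
      simp only
      rw [Point.add_of_Y_eq (congr_arg _ hxy.left) (by rw [hxy.right, hneg])]
      rfl
    · rw [Point.add_some hxy]
      simp only
      rw [Point.add_some (fun h3 ↦ hxy ⟨φ.injective h3.1, φ.injective (hneg x₂ y₂ ▸ h3.2)⟩)]
      simp only [Point.some.injEq]
      rw [hsl, hX, hY]
      exact ⟨rfl, rfl⟩

@[simp] lemma mapPt_some (φ : E →+* E) {a b c : E} (h : φ a = a ∧ φ b = b ∧ φ c = c) (x y : E)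
    (hxy : (leg a b c).Nonsingular x y) :
    mapPt φ h (.some x y hxy) = .some (φ x) (φ y) (nonsingular_map φ h hxy) := rfl

end points

/-- `M` contains the roots of the functions whose divisor is divisible: if the `n`-th power of the
ideal of a point of the curve is generated by `h`, then the value of `h` at `(X, Y)` is an `n`-th
power in `M`. -/
def RootProp {M : Type*} [CommRing M] (ι : E →+* M) (a b c : E) (X Y : M)
    (h : Y ^ 2 = (X - ι a) * (X - ι b) * (X - ι c)) : Prop :=
  ∀ (n : ℕ) (x y : E) (g : (leg a b c).CoordinateRing), n ≠ 0 → (leg a b c).Nonsingular x y →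
    WeierstrassCurve.Affine.CoordinateRing.XYIdeal (leg a b c) x (C y) ^ n = Ideal.span {g} →
    ∃ z : M, z ^ n = ev ι a b c X Y h g

end ring

end Pool.Agent.Helper19.Sec
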