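import Mathlib
import Pool.Agent.Helper19.Sec.Defs

/-!
Basic facts on the coordinate ring of `leg a b c`.
-/

set_option autoImplicit false

namespace Pool.Agent.Helper19.Sec

open Polynomial WeierstrassCurve.Affine

section

variable {E : Type*} [Field E] (a b c : E)

lemma leg_equation (x y : E) :
    (leg a b c).Equation x y ↔ y ^ 2 = (x - a) * (x - b) * (x - c) := by
  rw [WeierstrassCurve.Affine.equation_iff]
  constructor
  · intro h
    linear_combination h
  · intro h
    linear_combination h

lemma XClass_eq (x : E) : CoordinateRing.XClass (leg a b c) x = gx a b c - cst a b c x := by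
  simp only [CoordinateRing.XClass, gx, cst, map_sub, RingHom.comp_apply, CoordinateRing.mk,
    AdjoinRoot.mk_C]

lemma YClass_eq (y : E[X]) : CoordinateRing.YClass (leg a b c) y =
    gy a b c - AdjoinRoot.of (leg a b c).polynomial y := by
  simp only [CoordinateRing.YClass, gy, map_sub, CoordinateRing.mk, AdjoinRoot.mk_C,
    AdjoinRoot.mk_X]

lemma YClass_eq' (y : E) : CoordinateRing.YClass (leg a b c) (C y) = gy a b c - cst a b c y :=
  YClass_eq a b c (C y)

lemma XYIdeal_eq (x y : E) : CoordinateRing.XYIdeal (leg a b c) x (C y) =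
    Ideal.span {gx a b c - cst a b c x, gy a b c - cst a b c y} := by
  rw [CoordinateRing.XYIdeal, XClass_eq, YClass_eq']

/-- every polynomial in `x` is an evaluation -/
lemma of_eq (p : E[X]) : AdjoinRoot.of (leg a b c).polynomial p =
    eval₂ (cst a b c) (gx a b c) p := by
  induction p using Polynomial.induction_on' with
  | add p q hp hq => rw [map_add, hp, hq, eval₂_add]
  | monomial n r =>
    rw [eval₂_monomial, ← C_mul_X_pow_eq_monomial, map_mul, map_pow]
    rfl

/-- normal form of an element of the coordinate ring -/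
lemma exists_form (h : (leg a b c).CoordinateRing) : ∃ p q : E[X],
    h = eval₂ (cst a b c) (gx a b c) p + eval₂ (cst a b c) (gx a b c) q * gy a b c := by
  obtain ⟨p, q, rfl⟩ := CoordinateRing.exists_smul_basis_eq h
  refine ⟨p, q, ?_⟩
  rw [CoordinateRing.smul, CoordinateRing.smul, mul_one, ← of_eq, ← of_eq]
  rfl

lemma form_smul (p q : E[X]) :
    eval₂ (cst a b c) (gx a b c) p + eval₂ (cst a b c) (gx a b c) q * gy a b c =
      p • (1 : (leg a b c).CoordinateRing) + q • CoordinateRing.mk (leg a b c) X := by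
  rw [CoordinateRing.smul, CoordinateRing.smul, mul_one, ← of_eq, ← of_eq]
  rfl

variable {a b c}

/-- two ring homomorphisms on the coordinate ring agree if they agree on constants, `x`, `y` -/
lemma hom_ext {M : Type*} [CommRing M] {f g : (leg a b c).CoordinateRing →+* M}
    (h1 : ∀ e, f (cst a b c e) = g (cst a b c e)) (h2 : f (gx a b c) = g (gx a b c))
    (h3 : f (gy a b c) = g (gy a b c)) : f = g := by
  apply RingHom.ext
  intro h
  obtain ⟨p, q, rfl⟩ := exists_form a b c h
  have h4 : ∀ r : E[X], f (eval₂ (cst a b c) (gx a b c) r) =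
      g (eval₂ (cst a b c) (gx a b c) r) := by
    intro r
    rw [Polynomial.hom_eval₂, Polynomial.hom_eval₂, h2]
    congr 1
    exact RingHom.ext h1
  rw [map_add, map_add, map_mul, map_mul, h4, h4, h3]

section ev

variable {M : Type*} [CommRing M] (ι : E →+* M) (X Y : M)
  (h : Y ^ 2 = (X - ι a) * (X - ι b) * (X - ι c))

@[simp] lemma ev_gx : ev ι a b c X Y h (gx a b c) = X := by
  rw [ev, gx, AdjoinRoot.lift_of, coe_eval₂RingHom, eval₂_X]

@[simp] lemma ev_gy : ev ι a b c X Y h (gy a b c) = Y := by
  rw [ev, gy, AdjoinRoot.lift_root]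

@[simp] lemma ev_cst (e : E) : ev ι a b c X Y h (cst a b c e) = ι e := by
  rw [ev, cst, RingHom.comp_apply, AdjoinRoot.lift_of, coe_eval₂RingHom, eval₂_C]

lemma ev_poly (p : E[X]) : ev ι a b c X Y h (eval₂ (cst a b c) (gx a b c) p) = eval₂ ι X p := by
  rw [Polynomial.hom_eval₂, ev_gx]
  congr 1
  exact RingHom.ext fun e => ev_cst ι X Y h e

end ev

section coef

variable (φ : E →+* E) (h : φ a = a ∧ φ b = b ∧ φ c = c)

@[simp] lemma coef_gx : coef φ a b c h (gx a b c) = gx a b c := ev_gx _ _ _ _

@[simp] lemma coef_gy : coef φ a b c h (gy a b c) = gy a b c := ev_gy _ _ _ _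

@[simp] lemma coef_cst (e : E) : coef φ a b c h (cst a b c e) = cst a b c (φ e) :=
  ev_cst _ _ _ _ e

lemma map_XYIdeal (x y : E) : (CoordinateRing.XYIdeal (leg a b c) x (C y)).map (coef φ a b c h) =
    CoordinateRing.XYIdeal (leg a b c) (φ x) (C (φ y)) := by
  rw [XYIdeal_eq, XYIdeal_eq, Ideal.map_span, Set.image_pair, map_sub, map_sub, coef_gx, coef_gy,
    coef_cst, coef_cst]

/-- the image of a generator -/
lemma coef_gen {n : ℕ} {x y : E} {g : (leg a b c).CoordinateRing}
    (hg : CoordinateRing.XYIdeal (leg a b c) x (C y) ^ n = Ideal.span {g}) :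
    CoordinateRing.XYIdeal (leg a b c) (φ x) (C (φ y)) ^ n = Ideal.span {coef φ a b c h g} := by
  rw [← map_XYIdeal φ h, ← Ideal.map_pow, hg, Ideal.map_span, Set.image_singleton]

/-- compatibility of `ev` and `coef` with a semilinear ring homomorphism -/
lemma ev_coef {M : Type*} [CommRing M] (ι : E →+* M) (X Y : M)
    (hXY : Y ^ 2 = (X - ι a) * (X - ι b) * (X - ι c)) (ψ : M →+* M) (hι : ∀ e, ψ (ι e) = ι (φ e))
    (hX : ψ X = X) (hY : ψ Y = Y) (g : (leg a b c).CoordinateRing) :
    ψ (ev ι a b c X Y hXY g) = ev ι a b c X Y hXY (coef φ a b c h g) := by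
  have h1 : ψ.comp (ev ι a b c X Y hXY) = (ev ι a b c X Y hXY).comp (coef φ a b c h) := by
    apply hom_ext
    · intro e
      rw [RingHom.comp_apply, RingHom.comp_apply, ev_cst, coef_cst, ev_cst, hι]
    · rw [RingHom.comp_apply, RingHom.comp_apply, ev_gx, coef_gx, ev_gx, hX]
    · rw [RingHom.comp_apply, RingHom.comp_apply, ev_gy, coef_gy, ev_gy, hY]
  exact RingHom.congr_fun h1 g

end coef

lemma cst_injective : Function.Injective (cst a b c) := (cst a b c).injective

/-- evaluation at a transcendental point is injective -/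
lemma ev_injective {M : Type*} [Field M] (ι : E →+* M) (X Y : M)
    (h : Y ^ 2 = (X - ι a) * (X - ι b) * (X - ι c))
    (hX : ∀ p : E[X], eval₂ ι X p = 0 → p = 0) :
    Function.Injective (ev ι a b c X Y h) := by
  rw [injective_iff_map_eq_zero]
  intro g hg
  obtain ⟨p, q, rfl⟩ := exists_form a b c g
  rw [map_add, map_mul, ev_poly, ev_poly, ev_gy] at hg
  have h1 : eval₂ ι X (p ^ 2 - q ^ 2 * ((Polynomial.X - C a) * (Polynomial.X - C b) *
      (Polynomial.X - C c))) = 0 := by
    simp only [eval₂_sub, eval₂_mul, eval₂_pow, eval₂_X, eval₂_C]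
    rw [← h]
    linear_combination (eval₂ ι X p - eval₂ ι X q * Y) * hg
  have h2 := hX _ h1
  have h3 : Algebra.norm E[X] (p • (1 : (leg a b c).CoordinateRing) +
      q • CoordinateRing.mk (leg a b c) Polynomial.X) = 0 := by
    rw [CoordinateRing.norm_smul_basis, ← h2]
    simp only [map_add, map_mul, map_neg, map_zero]
    ring
  have h4 := CoordinateRing.degree_norm_smul_basis (W' := leg a b c) p q
  rw [h3, degree_zero] at h4
  have h5 : p = 0 := by
    by_contra hp
    have h6 := le_max_left (2 • p.degree) (2 • q.degree + 3)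
    rw [← h4, le_bot_iff] at h6
    rw [degree_eq_natDegree hp] at h6
    exact absurd h6 (by
      rw [two_nsmul, ← WithBot.coe_natCast, ← WithBot.coe_add]
      exact WithBot.coe_ne_bot)
  have h6 : q = 0 := by
    by_contra hq
    have h6 := le_max_right (2 • p.degree) (2 • q.degree + 3)
    rw [← h4, le_bot_iff] at h6
    rw [degree_eq_natDegree hq] at h6
    exact absurd h6 (by
      rw [two_nsmul, ← WithBot.coe_natCast, ← WithBot.coe_add]
      exact WithBot.coe_ne_bot)
  rw [h5, h6]
  simp

/-- the units of the coordinate ring are the constants -/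
lemma unit_const {g : (leg a b c).CoordinateRing} (hg : IsUnit g) :
    ∃ u : E, u ≠ 0 ∧ g = cst a b c u := by
  have h1 : IsUnit (Algebra.norm E[X] g) := hg.map _
  obtain ⟨p, q, rfl⟩ := exists_form a b c g
  rw [form_smul] at h1
  have h2 := CoordinateRing.degree_norm_smul_basis (W' := leg a b c) p q
  rw [degree_eq_zero_of_isUnit h1] at h2
  have h6 : q = 0 := by
    by_contra hq
    have h6 := le_max_right (2 • p.degree) (2 • q.degree + 3)
    rw [← h2, degree_eq_natDegree hq] at h6
    have h7 : (2 • (q.natDegree : WithBot ℕ) + 3) = ((2 * q.natDegree + 3 : ℕ) : WithBot ℕ) := by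
      push_cast
      ring
    rw [h7] at h6
    have h8 : (2 * q.natDegree + 3 : ℕ) ≤ 0 := by exact_mod_cast h6
    omega
  have h7 : p.degree ≤ 0 := by
    by_contra hp
    push Not at hp
    have h8 := le_max_left (2 • p.degree) (2 • q.degree + 3)
    have hp0 : p ≠ 0 := by
      rintro rfl
      rw [degree_zero] at hp
      exact absurd hp (by simp)
    rw [← h2, degree_eq_natDegree hp0] at h8
    rw [degree_eq_natDegree hp0] at hp
    have h9 : (2 • (p.natDegree : WithBot ℕ)) = ((2 * p.natDegree : ℕ) : WithBot ℕ) := by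
      push_cast
      ring
    rw [h9] at h8
    have h10 : (2 * p.natDegree : ℕ) ≤ 0 := by exact_mod_cast h8
    have h11 : 0 < p.natDegree := by exact_mod_cast hp
    omega
  rw [eq_C_of_degree_le_zero h7, h6] at hg ⊢
  simp only [eval₂_C, eval₂_zero, zero_mul, add_zero] at hg ⊢
  refine ⟨p.coeff 0, ?_, rfl⟩
  intro h0
  rw [h0, map_zero] at hg
  exact not_isUnit_zero hg

/-- two generators of an ideal differ by a constant -/
lemma gen_unique {g g' : (leg a b c).CoordinateRing} (h : Ideal.span {g} = Ideal.span {g'}) :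
    ∃ u : E, u ≠ 0 ∧ g' = cst a b c u * g := by
  rw [Ideal.span_singleton_eq_span_singleton] at h
  obtain ⟨u, hu⟩ := h
  obtain ⟨u', hu0, hu'⟩ := unit_const u.isUnit
  exact ⟨u', hu0, by rw [← hu, ← hu', mul_comm]⟩

end

end Pool.Agent.Helper19.Sec
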