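import Mathlib
import Pool.Agent.Helper19.Sec.Defs
import Pool.Agent.Helper19.Sec.Ring

/-!
Ideals of points in the coordinate ring, and the relation between generators.
-/

set_option autoImplicit false

namespace Pool.Agent.Helper19.Sec

open Polynomial WeierstrassCurve.Affine

section REL

variable {E : Type*} [Field E] [DecidableEq E] [CharZero E] {a b c : E}

/-- the `n`-th power of the ideal of an `n`-torsion point is principal -/
theorem exists_ideal_gen (n : ℕ) (x y : E) (h : (leg a b c).Nonsingular x y)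
    (ht : n • Point.some x y h = 0) :
    ∃ g : (leg a b c).CoordinateRing,
      CoordinateRing.XYIdeal (leg a b c) x (C y) ^ n = Ideal.span {g} := by
  have h1 : n • Point.toClass (Point.some x y h) = 0 := by
    rw [← map_nsmul, ht, map_zero]
  rw [Point.toClass_some] at h1
  have h2 : ClassGroup.mk (leg a b c).FunctionField
      (CoordinateRing.XYIdeal' (W := leg a b c) h ^ n) = 1 := by
    rw [map_pow]
    exact h1
  have h3 := (ClassGroup.mk_eq_one_of_coe_ideal
    (I' := CoordinateRing.XYIdeal (leg a b c) x (C y) ^ n) (by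
      rw [Units.val_pow_eq_pow_val, CoordinateRing.XYIdeal'_eq, FractionalIdeal.coeIdeal_pow])).1 h2
  obtain ⟨g, -, hg⟩ := h3
  exact ⟨g, hg⟩

/-- a generator does not vanish at the 2-torsion point `(a, 0)` -/
theorem gen_ne_zero (hab : a ≠ b) (hbc : b ≠ c) (hca : c ≠ a) (n : ℕ) (x y : E)
    (h : (leg a b c).Nonsingular x y) (hxa : x ≠ a) (g : (leg a b c).CoordinateRing)
    (hg : CoordinateRing.XYIdeal (leg a b c) x (C y) ^ n = Ideal.span {g})
    (hT : (0 : E) ^ 2 = (a - RingHom.id E a) * (a - RingHom.id E b) * (a - RingHom.id E c)) :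
    ev (RingHom.id E) a b c a 0 hT g ≠ 0 := by
  have h1 : (gx a b c - cst a b c x) ^ n ∈ CoordinateRing.XYIdeal (leg a b c) x (C y) ^ n := by
    refine Ideal.pow_mem_pow ?_ n
    rw [XYIdeal_eq]
    exact Ideal.subset_span (by simp)
  rw [hg, Ideal.mem_span_singleton] at h1
  obtain ⟨k, hk⟩ := h1
  intro h0
  have h2 := congrArg (ev (RingHom.id E) a b c a 0 hT) hk
  rw [map_mul, h0, zero_mul, map_pow, map_sub, ev_gx, ev_cst, RingHom.id_apply] at h2
  exact hxa (sub_eq_zero.1 (eq_zero_of_pow_eq_zero h2)).symm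

/-- the relation between generators attached to `D` and to `φ D = D + (c, 0)` -/
theorem relation (hab : a ≠ b) (hbc : b ≠ c) (hca : c ≠ a) (φ : E →+* E)
    (hφ : φ a = a ∧ φ b = b ∧ φ c = c) (m : ℕ) (x y : E)
    (h : (leg a b c).Nonsingular x y) (h' : (leg a b c).Nonsingular (φ x) (φ y))
    (hc : (leg a b c).Nonsingular c 0) (hxc : x ≠ c)
    (hadd : Point.some x y h + Point.some c 0 hc = Point.some (φ x) (φ y) h')
    (g : (leg a b c).CoordinateRing)
    (hg : CoordinateRing.XYIdeal (leg a b c) x (C y) ^ (2 ^ (m + 1)) = Ideal.span {g}) :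
    ∃ u : E, u ≠ 0 ∧
      (gx a b c - cst a b c (φ x)) ^ (2 ^ (m + 1)) * g * (gx a b c - cst a b c c) ^ (2 ^ m) =
      cst a b c u * (gy a b c - cst a b c (y / (x - c)) * (gx a b c - cst a b c c)) ^ (2 ^ (m + 1)) *
        coef φ a b c hφ g := by
  have hxy : ¬(x = c ∧ y = (leg a b c).negY c 0) := fun h => hxc h.1
  rw [Point.add_some hxy, Point.some.injEq] at hadd
  obtain ⟨hX, hY⟩ := hadd
  have hsl : (leg a b c).slope x c y 0 = y / (x - c) := by
    rw [slope_of_X_ne hxc, sub_zero]
  have hI := CoordinateRing.XYIdeal_mul_XYIdeal h.left hc.left hxy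
  rw [hX, hY, hsl] at hI
  have hXI : CoordinateRing.XIdeal (leg a b c) (φ x) =
      Ideal.span {gx a b c - cst a b c (φ x)} := by
    rw [CoordinateRing.XIdeal, XClass_eq]
  have hYI : CoordinateRing.YIdeal (leg a b c) (linePolynomial x y (y / (x - c))) =
      Ideal.span {gy a b c - cst a b c (y / (x - c)) * (gx a b c - cst a b c c)} := by
    rw [CoordinateRing.YIdeal, YClass_eq, of_eq]
    congr 2
    simp only [linePolynomial, eval₂_add, eval₂_mul, eval₂_sub, eval₂_C, eval₂_X]
    have h1 : cst a b c y = cst a b c (y / (x - c)) * (cst a b c x - cst a b c c) := by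
      rw [← map_sub, ← map_mul, div_mul_cancel₀ _ (sub_ne_zero.2 hxc)]
    rw [h1]
    ring
  have hT : CoordinateRing.XYIdeal (leg a b c) c (C 0) ^ (2 ^ (m + 1)) =
      Ideal.span {(gx a b c - cst a b c c) ^ (2 ^ m)} := by
    have h1 := CoordinateRing.XYIdeal_neg_mul hc
    have h2 : (leg a b c).negY c 0 = 0 := by
      simp [negY]
    rw [h2] at h1
    rw [pow_succ', pow_mul, sq, h1, CoordinateRing.XIdeal, XClass_eq, Ideal.span_singleton_pow]
  have hJ := coef_gen φ hφ hg
  have h3 := congrArg (fun I : Ideal (leg a b c).CoordinateRing => I ^ (2 ^ (m + 1))) hI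
  simp only [mul_pow] at h3
  rw [hXI, hYI, hg, hT, hJ, Ideal.span_singleton_pow, Ideal.span_singleton_pow,
    Ideal.span_singleton_mul_span_singleton, Ideal.span_singleton_mul_span_singleton,
    Ideal.span_singleton_mul_span_singleton] at h3
  obtain ⟨u, hu, hu'⟩ := gen_unique h3.symm
  refine ⟨u, hu, ?_⟩
  rw [mul_assoc, hu', mul_assoc]

end REL

end Pool.Agent.Helper19.Sec
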