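import Mathlib

/-!
Endomorphisms with finite kernel of divisible 2-primary groups (module GRP).
-/

set_option autoImplicit false

namespace Pool.Agent.Helper19.Sec

section GRP

variable {A : Type*} [AddCommGroup A]

/-- the `2^m`-torsion -/
def grpT (A : Type*) [AddCommGroup A] (m : ℕ) : AddSubgroup A where
  carrier := {x | 2 ^ m • x = 0}
  zero_mem' := smul_zero _
  add_mem' := by
    intro x y hx hy
    change 2 ^ m • (x + y) = 0
    rw [smul_add, hx, hy, add_zero]
  neg_mem' := by
    intro x hx
    change 2 ^ m • (-x) = 0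
    rw [smul_neg, hx, neg_zero]

theorem grp_mem (m : ℕ) (x : A) : x ∈ grpT A m ↔ 2 ^ m • x = 0 := Iff.rfl

theorem grp_mono {m n : ℕ} (h : m ≤ n) {x : A} (hx : x ∈ grpT A m) : x ∈ grpT A n := by
  rw [grp_mem] at hx ⊢
  obtain ⟨k, rfl⟩ := Nat.exists_eq_add_of_le h
  rw [pow_add, mul_comm, mul_smul, hx, smul_zero]

theorem grp_fin (h2 : {x : A | x + x = 0}.Finite) (m : ℕ) : (grpT A m : Set A).Finite := by
  induction m with
  | zero =>
    refine Set.Finite.subset (Set.finite_singleton 0) ?_
    intro x hx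
    have : 2 ^ 0 • x = 0 := hx
    simpa using this
  | succ m ih =>
    have h1 : (grpT A (m + 1) : Set A) = (fun x => x + x) ⁻¹' (grpT A m : Set A) := by
      ext x
      change 2 ^ (m + 1) • x = 0 ↔ 2 ^ m • (x + x) = 0
      rw [pow_succ, mul_smul, two_nsmul]
    rw [h1]
    refine Set.Finite.preimage' ih ?_
    intro b _
    by_cases hb : ∃ x0 : A, x0 + x0 = b
    · obtain ⟨x0, hx0⟩ := hb
      refine Set.Finite.subset (h2.image fun z => x0 + z) ?_
      intro x hx
      have hx' : x + x = b := hx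
      refine ⟨x - x0, ?_, by simp⟩
      change (x - x0) + (x - x0) = 0
      have : (x - x0) + (x - x0) = (x + x) - (x0 + x0) := by abel
      rw [this, hx', hx0, sub_self]
    · refine Set.Finite.subset Set.finite_empty ?_
      intro x hx
      exact hb ⟨x, hx⟩

/-- restriction to the torsion -/
def grpR (ψ : A →+ A) (m : ℕ) : grpT A m →+ grpT A m where
  toFun x := ⟨ψ (x : A), by
    rw [grp_mem, ← map_nsmul, (grp_mem m _).1 x.2, map_zero]⟩
  map_zero' := Subtype.ext (map_zero ψ)
  map_add' x y := Subtype.ext (map_add ψ (x : A) (y : A))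

theorem grp_index (h2 : {x : A | x + x = 0}.Finite) (ψ : A →+ A)
    (hk : {x : A | ψ x = 0}.Finite) (m : ℕ) :
    Nat.card (grpT A m ⧸ (grpR ψ m).range) ≤ {x : A | ψ x = 0}.ncard := by
  have hfin : Finite (grpT A m) := grp_fin h2 m
  have h1 := AddSubgroup.card_eq_card_quotient_mul_card_addSubgroup (grpR ψ m).range
  have h3 := AddSubgroup.card_eq_card_quotient_mul_card_addSubgroup (grpR ψ m).ker
  have h4 : Nat.card (grpT A m ⧸ (grpR ψ m).ker) = Nat.card (grpR ψ m).range :=
    Nat.card_congr (QuotientAddGroup.quotientKerEquivRange (grpR ψ m)).toEquiv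
  rw [h4] at h3
  have hpos : 0 < Nat.card (grpR ψ m).range := Nat.card_pos
  have h5 : Nat.card (grpT A m ⧸ (grpR ψ m).range) = Nat.card (grpR ψ m).ker := by
    have h6 : Nat.card (grpT A m ⧸ (grpR ψ m).range) * Nat.card (grpR ψ m).range
        = Nat.card (grpR ψ m).ker * Nat.card (grpR ψ m).range := by
      rw [← h1, h3, mul_comm]
    exact Nat.eq_of_mul_eq_mul_right hpos h6
  rw [h5]
  have hkf : Finite {x : A | ψ x = 0} := hk
  have h7 : Nat.card {x : A | ψ x = 0} = {x : A | ψ x = 0}.ncard := rfl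
  rw [← h7]
  refine Nat.card_le_card_of_injective
    (fun x : (grpR ψ m).ker => (⟨((x : grpT A m) : A), ?_⟩ : {x : A | ψ x = 0})) ?_
  · have := x.2
    rw [AddMonoidHom.mem_ker] at this
    exact congrArg Subtype.val this
  · intro x y hxy
    have h8 := congrArg (fun z : {x : A | ψ x = 0} => (z : A)) hxy
    exact Subtype.ext (Subtype.ext h8)

/-- an endomorphism with finite kernel of a divisible 2-primary group is surjective -/
theorem sub_surj {A : Type*} [AddCommGroup A] (ht : ∀ x : A, ∃ m : ℕ, 2 ^ m • x = 0)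
    (hd : ∀ x : A, ∃ y, y + y = x) (h2 : {x : A | x + x = 0}.Finite) (ψ : A →+ A)
    (hk : {x : A | ψ x = 0}.Finite) : Function.Surjective ψ := by
  classical
  have hfin : Finite (A ⧸ ψ.range) := by
    by_contra hinf
    rw [not_finite_iff_infinite] at hinf
    obtain ⟨s, hs⟩ := Infinite.exists_subset_card_eq (A ⧸ ψ.range) ({x : A | ψ x = 0}.ncard + 1)
    choose e he using ht
    let m : ℕ := s.sup fun q => e q.out
    have hm : ∀ q ∈ s, q.out ∈ grpT A m := by
      intro q hq
      have h1 : e q.out ≤ m := Finset.le_sup (f := fun q : A ⧸ ψ.range => e q.out) hq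
      exact grp_mono h1 (he q.out)
    have hT : Finite (grpT A m) := grp_fin h2 m
    have hinj : Function.Injective (fun q : s =>
        (QuotientAddGroup.mk (⟨(q : A ⧸ ψ.range).out, hm q q.2⟩ : grpT A m) :
          grpT A m ⧸ (grpR ψ m).range)) := by
      intro q q' hqq
      have h1 := QuotientAddGroup.eq.1 hqq
      obtain ⟨z, hz⟩ := h1
      refine Subtype.ext ?_
      rw [← Quotient.out_eq' (q : A ⧸ ψ.range), ← Quotient.out_eq' (q' : A ⧸ ψ.range)]
      refine QuotientAddGroup.eq.2 ⟨z, ?_⟩
      exact congrArg Subtype.val hz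
    have h1 := Nat.card_le_card_of_injective _ hinj
    have h3 := grp_index h2 ψ hk m
    rw [Nat.card_eq_fintype_card, Fintype.card_coe, hs] at h1
    omega
  have hsurj : Function.Surjective (fun q : A ⧸ ψ.range => q + q) := by
    intro q
    obtain ⟨x, rfl⟩ := QuotientAddGroup.mk_surjective q
    obtain ⟨y, hy⟩ := hd x
    exact ⟨QuotientAddGroup.mk y, by
      change QuotientAddGroup.mk (y + y) = _
      rw [hy]⟩
  have hinj := Finite.injective_iff_surjective.2 hsurj
  have hzero : ∀ (m : ℕ) (q : A ⧸ ψ.range), 2 ^ m • q = 0 → q = 0 := by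
    intro m
    induction m with
    | zero =>
      intro q hq
      simpa using hq
    | succ m ih =>
      intro q hq
      rw [pow_succ, mul_smul, two_nsmul] at hq
      have h1 := ih _ hq
      exact hinj (by simpa using h1)
  intro x
  obtain ⟨m, hm⟩ := ht x
  have h1 : (QuotientAddGroup.mk x : A ⧸ ψ.range) = 0 := by
    refine hzero m _ ?_
    have : 2 ^ m • (QuotientAddGroup.mk x : A ⧸ ψ.range) = QuotientAddGroup.mk (2 ^ m • x) := rfl
    rw [this, hm]
    rfl
  exact (QuotientAddGroup.eq_zero_iff x).1 h1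

end GRP

end Pool.Agent.Helper19.Sec
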