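import Mathlib
import Pool.Agent.Helper19.Sec.Defs
import Pool.Agent.Helper19.Sec.Ring

/-!
Halving of points over an algebraically closed field (module HALF).
-/

set_option autoImplicit false

namespace Pool.Agent.Helper19.Sec

open Polynomial WeierstrassCurve.Affine

lemma half_negY {E : Type*} [Field E] (a b c x y : E) : (leg a b c).negY x y = -y := by
  simp [WeierstrassCurve.Affine.negY, leg]

lemma half_nonsingular {E : Type*} [Field E] [CharZero E] {a b c x y : E}
    (h : y ^ 2 = (x - a) * (x - b) * (x - c)) (hy : y ≠ 0) : (leg a b c).Nonsingular x y := by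
  rw [nonsingular_iff]
  refine ⟨(leg_equation a b c x y).2 h, Or.inr ?_⟩
  simp only [leg, zero_mul, sub_zero]
  intro h0
  have h1 : (2 : E) * y = 0 := by linear_combination h0
  rcases mul_eq_zero.1 h1 with h2 | h2
  · exact two_ne_zero h2
  · exact hy h2

/-- points can be halved over an algebraically closed field -/
theorem exists_half {E : Type*} [Field E] [DecidableEq E] [IsAlgClosed E] [CharZero E] {a b c : E}
    (hab : a ≠ b) (hbc : b ≠ c) (hca : c ≠ a) (P : (leg a b c).Point) :
    ∃ Q : (leg a b c).Point, Q + Q = P := by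
  rcases P with _ | ⟨x0, y0, h⟩
  · exact ⟨0, add_zero 0⟩
  · have he := (leg_equation a b c x0 y0).1 h.1
    obtain ⟨α, hα⟩ := IsAlgClosed.exists_pow_nat_eq (x0 - a) (n := 2) (by norm_num)
    obtain ⟨β, hβ⟩ := IsAlgClosed.exists_pow_nat_eq (x0 - b) (n := 2) (by norm_num)
    obtain ⟨γ', hγ'⟩ := IsAlgClosed.exists_pow_nat_eq (x0 - c) (n := 2) (by norm_num)
    obtain ⟨γ, hγ, hprod⟩ : ∃ γ, γ ^ 2 = x0 - c ∧ α * β * γ = y0 := by
      have h1 : (α * β * γ') ^ 2 = y0 ^ 2 := by
        rw [he, mul_pow, mul_pow, hα, hβ, hγ']
      rcases sq_eq_sq_iff_eq_or_eq_neg.1 h1 with h2 | h2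
      · exact ⟨γ', hγ', h2⟩
      · exact ⟨-γ', by rw [neg_sq, hγ'], by rw [mul_neg, h2, neg_neg]⟩
    have hx0 : x0 = α ^ 2 + a := by rw [hα]; ring
    have hb : b = α ^ 2 + a - β ^ 2 := by rw [← hx0, hβ]; ring
    have hc : c = α ^ 2 + a - γ ^ 2 := by rw [← hx0, hγ]; ring
    have hu : α + β ≠ 0 := by
      intro h0
      apply hab
      have : α ^ 2 - β ^ 2 = 0 := by
        have : α ^ 2 - β ^ 2 = (α + β) * (α - β) := by ring
        rw [this, h0, zero_mul]
      rw [hα, hβ] at this
      linear_combination -this
    have hv : β + γ ≠ 0 := by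
      intro h0
      apply hbc
      have : β ^ 2 - γ ^ 2 = 0 := by
        have : β ^ 2 - γ ^ 2 = (β + γ) * (β - γ) := by ring
        rw [this, h0, zero_mul]
      rw [hβ, hγ] at this
      linear_combination -this
    have hw : γ + α ≠ 0 := by
      intro h0
      apply hca
      have : γ ^ 2 - α ^ 2 = 0 := by
        have : γ ^ 2 - α ^ 2 = (γ + α) * (γ - α) := by ring
        rw [this, h0, zero_mul]
      rw [hγ, hα] at this
      linear_combination -this
    set x : E := x0 + (α * β + β * γ + γ * α) with hx
    set y : E := (α + β) * (β + γ) * (γ + α) with hy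
    have hy0 : y ≠ 0 := mul_ne_zero (mul_ne_zero hu hv) hw
    have hxy : y ^ 2 = (x - a) * (x - b) * (x - c) := by
      rw [hx, hy, hx0, hb, hc]
      ring
    have hne : y ≠ (leg a b c).negY x y := by
      rw [half_negY]
      intro h0
      have h1 : (2 : E) * y = 0 := by linear_combination h0
      rcases mul_eq_zero.1 h1 with h2 | h2
      · exact two_ne_zero h2
      · exact hy0 h2
    have hslope : (leg a b c).slope x x y y = α + β + γ := by
      rw [slope_of_Y_ne rfl hne, half_negY]
      have h2y : y - -y ≠ 0 := by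
        rw [sub_neg_eq_add, ← two_mul]
        exact mul_ne_zero two_ne_zero hy0
      rw [div_eq_iff h2y]
      simp only [leg]
      rw [hx, hy, hx0, hb, hc]
      ring
    refine ⟨Point.some x y (half_nonsingular hxy hy0), ?_⟩
    rw [Point.add_self_of_Y_ne hne]
    simp only [Point.some.injEq]
    have hX : (leg a b c).addX x x ((leg a b c).slope x x y y) = x0 := by
      rw [hslope, WeierstrassCurve.Affine.addX]
      simp only [leg]
      rw [hx, hx0, hb, hc]
      ring
    refine ⟨hX, ?_⟩
    rw [WeierstrassCurve.Affine.addY, half_negY, WeierstrassCurve.Affine.negAddY, hX, hslope,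
      ← hprod, hx, hy]
    ring

/-- the 2-torsion is finite -/
theorem finite_two_torsion {E : Type*} [Field E] [DecidableEq E] [CharZero E]
    {a b c : E} : {P : (leg a b c).Point | P + P = 0}.Finite := by
  have hy : ∀ (x y : E) (h : (leg a b c).Nonsingular x y),
      Point.some x y h + Point.some x y h = 0 → y = 0 := by
    intro x y h h0
    have h1 := eq_neg_of_add_eq_zero_left h0
    rw [Point.neg_some] at h1
    simp only [Point.some.injEq, true_and] at h1
    rw [half_negY] at h1
    have h2 : (2 : E) * y = 0 := by linear_combination h1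
    exact (mul_eq_zero.1 h2).resolve_left two_ne_zero
  let f : (leg a b c).Point → Option E := fun P => match P with
    | .zero => none
    | .some x _ _ => some x
  refine Set.Finite.of_finite_image (f := f) ?_ ?_
  · refine Set.Finite.subset (s := {none, some a, some b, some c}) (by simp) ?_
    rintro _ ⟨P, hP, rfl⟩
    rcases P with _ | ⟨x, y, h⟩
    · exact Set.mem_insert _ _
    · have h0 := hy x y h hP
      have he := (leg_equation a b c x y).1 h.1
      rw [h0, zero_pow (by norm_num)] at he
      change some x ∈ _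
      rcases mul_eq_zero.1 he.symm with h1 | h1
      · rcases mul_eq_zero.1 h1 with h2 | h2
        · rw [sub_eq_zero.1 h2]; simp
        · rw [sub_eq_zero.1 h2]; simp
      · rw [sub_eq_zero.1 h1]; simp
  · rintro P hP P' hP' hPP
    rcases P with _ | ⟨x, y, h⟩
    · rcases P' with _ | ⟨x', y', h'⟩
      · rfl
      · exact absurd hPP (by simp [f])
    · rcases P' with _ | ⟨x', y', h'⟩
      · exact absurd hPP (by simp [f])
      · have h1 : x = x' := by simpa [f] using hPP
        have h2 := hy x y h hP
        have h3 := hy x' y' h' hP'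
        simp only [Point.some.injEq]
        exact ⟨h1, by rw [h2, h3]⟩

end Pool.Agent.Helper19.Sec
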