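import Mathlib
import Pool.Agent.Helper19.Sec.Defs
import Pool.Agent.Helper19.Sec.Ring

/-!
The 2-power torsion of `Y² = (X - a)(X - b)(X - c)` over a valued field with good reduction:
integrality and injectivity of the reduction (module TORA, helper35).
-/

set_option autoImplicit false

namespace Pool.Agent.Helper19.Sec

open Polynomial WeierstrassCurve.Affine

section dbl

variable {E : Type*} [Field E] {a b c : E}

/-- the square root of `x(2P) - a` -/
noncomputable def hf (a b c x y : E) : E := ((x - a) ^ 2 - (a - b) * (a - c)) / (2 * y)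

lemma hf_mul (h2 : (2 : E) ≠ 0) {x y : E} (hy : y ≠ 0) :
    hf a b c x y * (2 * y) = (x - a) ^ 2 - (a - b) * (a - c) := by
  rw [hf, div_mul_cancel₀]
  exact mul_ne_zero h2 hy

lemma hf_add (h2 : (2 : E) ≠ 0) {x y : E} (hy : y ≠ 0) :
    (hf a b c x y + hf b c a x y) * y = (x - a) * (x - b) := by
  have h1 := hf_mul (a := a) (b := b) (c := c) (x := x) h2 hy
  have h3 := hf_mul (a := b) (b := c) (c := a) (x := x) h2 hy
  have h4 : (2 : E) * ((hf a b c x y + hf b c a x y) * y - (x - a) * (x - b)) = 0 := by
    linear_combination h1 + h3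
  have h5 := (mul_eq_zero.mp h4).resolve_left h2
  exact sub_eq_zero.mp h5

/-- `x - a = (α + β) (α + γ)` -/
lemma hf_x (h2 : (2 : E) ≠ 0) {x y : E} (he : y ^ 2 = (x - a) * (x - b) * (x - c)) (hy : y ≠ 0) :
    x - a = (hf a b c x y + hf b c a x y) * (hf a b c x y + hf c a b x y) := by
  have hab := hf_add (a := a) (b := b) (c := c) (x := x) h2 hy
  have hca := hf_add (a := c) (b := a) (c := b) (x := x) h2 hy
  have h5 : ((hf a b c x y + hf b c a x y) * (hf a b c x y + hf c a b x y) - (x - a)) * y ^ 2
      = 0 := by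
    linear_combination ((hf a b c x y + hf c a b x y) * y) * hab +
      ((x - a) * (x - b)) * hca - (x - a) * he
  have h6 := (mul_eq_zero.mp h5).resolve_right (pow_ne_zero 2 hy)
  exact (sub_eq_zero.mp h6).symm

/-- `y = (α + β) (β + γ) (γ + α)` -/
lemma hf_y (h2 : (2 : E) ≠ 0) {x y : E} (he : y ^ 2 = (x - a) * (x - b) * (x - c)) (hy : y ≠ 0) :
    y = (hf a b c x y + hf b c a x y) * (hf b c a x y + hf c a b x y) *
      (hf c a b x y + hf a b c x y) := by
  have hbc := hf_add (a := b) (b := c) (c := a) (x := x) h2 hy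
  have hxa := hf_x h2 he hy
  have h5 : ((hf a b c x y + hf b c a x y) * (hf b c a x y + hf c a b x y) *
    (hf c a b x y + hf a b c x y) - y) * y = 0 := by
    have h6 : ((hf a b c x y + hf b c a x y) * (hf b c a x y + hf c a b x y) *
      (hf c a b x y + hf a b c x y)) * y = (x - a) * ((hf b c a x y + hf c a b x y) * y) := by
      rw [hxa]
      ring
    rw [sub_mul, h6, hbc, ← sq, he]
    ring
  have h6 := (mul_eq_zero.mp h5).resolve_right hy
  exact (sub_eq_zero.mp h6).symm

variable [DecidableEq E]

lemma leg_dbl (h2 : (2 : E) ≠ 0) (x y : E) (h : (leg a b c).Nonsingular x y) (hy : y ≠ 0) :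
    ∃ (X Y : E) (h' : (leg a b c).Nonsingular X Y),
      Point.some x y h + Point.some x y h = Point.some X Y h' ∧
      X - a = hf a b c x y ^ 2 ∧ X - b = hf b c a x y ^ 2 ∧ X - c = hf c a b x y ^ 2 ∧
      Y = hf a b c x y * hf b c a x y * hf c a b x y := by
  have he := (leg_equation a b c x y).mp h.1
  have hnY : (leg a b c).negY x y = -y := by
    simp only [negY]
    ring
  have hne : y ≠ (leg a b c).negY x y := by
    rw [hnY]
    intro h3
    apply hy
    have h4 : (2 : E) * y = 0 := by linear_combination h3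
    exact (mul_eq_zero.mp h4).resolve_left h2
  have h2y : (2 : E) * y ≠ 0 := mul_ne_zero h2 hy
  refine ⟨_, _, _, Point.add_self_of_Y_ne hne, ?_⟩
  have hs : (leg a b c).slope x x y y = hf a b c x y + hf b c a x y + hf c a b x y := by
    rw [slope_of_Y_ne rfl hne, hnY, div_eq_iff (by rwa [sub_neg_eq_add, ← two_mul])]
    have h1 := hf_mul (a := a) (b := b) (c := c) (x := x) h2 hy
    have h3 := hf_mul (a := b) (b := c) (c := a) (x := x) h2 hy
    have h4 := hf_mul (a := c) (b := a) (c := b) (x := x) h2 hy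
    linear_combination -h1 - h3 - h4
  have key : ∀ α β γ : E, α * (2 * y) = (x - a) ^ 2 - (a - b) * (a - c) →
      β * (2 * y) = (x - b) ^ 2 - (b - c) * (b - a) →
      γ * (2 * y) = (x - c) ^ 2 - (c - a) * (c - b) →
      (α + β + γ) ^ 2 + (a + b + c) - x - x - a = α ^ 2 := by
    intro α β γ h1 h3 h4
    have h5 : ((α + β + γ) ^ 2 + (a + b + c) - x - x - a - α ^ 2) * (2 * y) ^ 2 = 0 := by
      have h6 : (α + β + γ) * (2 * y) = (x - a) * (x - b) + (x - b) * (x - c) +
          (x - c) * (x - a) := by linear_combination h1 + h3 + h4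
      have h7 : (α + β + γ) ^ 2 * (2 * y) ^ 2 = ((x - a) * (x - b) + (x - b) * (x - c) +
          (x - c) * (x - a)) ^ 2 := by rw [← mul_pow, h6]
      have h8 : α ^ 2 * (2 * y) ^ 2 = ((x - a) ^ 2 - (a - b) * (a - c)) ^ 2 := by
        rw [← mul_pow, h1]
      linear_combination h7 - h8 + 4 * (b + c - 2 * x) * he
    have h6 := (mul_eq_zero.mp h5).resolve_right (pow_ne_zero 2 h2y)
    exact sub_eq_zero.mp h6
  have h1 := hf_mul (a := a) (b := b) (c := c) (x := x) h2 hy
  have h3 := hf_mul (a := b) (b := c) (c := a) (x := x) h2 hy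
  have h4 := hf_mul (a := c) (b := a) (c := b) (x := x) h2 hy
  have hX : (leg a b c).addX x x ((leg a b c).slope x x y y) =
      (hf a b c x y + hf b c a x y + hf c a b x y) ^ 2 + (a + b + c) - x - x := by
    rw [hs, addX]
    ring
  have hXa : (leg a b c).addX x x ((leg a b c).slope x x y y) - a = hf a b c x y ^ 2 := by
    rw [hX]
    exact key _ _ _ h1 h3 h4
  have he2 : y ^ 2 = (x - b) * (x - c) * (x - a) := by linear_combination he
  have he3 : y ^ 2 = (x - c) * (x - a) * (x - b) := by linear_combination he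
  have hxa := hf_x h2 he hy
  have hxb := hf_x h2 he2 hy
  have hxc := hf_x h2 he3 hy
  have hyy := hf_y h2 he hy
  refine ⟨hXa, ?_, ?_, ?_⟩
  · linear_combination hXa + hxb - hxa
  · linear_combination hXa + hxc - hxa
  · rw [addY, negAddY, negY, hs]
    rw [hs] at hXa
    linear_combination -(hf a b c x y + hf b c a x y + hf c a b x y) * hXa - hyy +
      (hf a b c x y + hf b c a x y + hf c a b x y) * hxa

end dbl

section tor

variable {E Γ₀ : Type*} [Field E] [LinearOrderedCommGroupWithZero Γ₀]
  {v : Valuation E Γ₀} {a b c : E}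

lemma two_ne_of_val (h2 : v 2 = 1) : (2 : E) ≠ 0 := by
  intro h
  rw [h, map_zero] at h2
  exact zero_ne_one h2

/-- each of the square roots of `x(2P) - e` is zero or a unit -/
lemma one_case (h2 : v 2 = 1) (va : v a ≤ 1) (vb : v b ≤ 1) (vc : v c ≤ 1) (vab : v (a - b) = 1)
    (vac : v (a - c) = 1) {x y : E} (he : y ^ 2 = (x - a) * (x - b) * (x - c)) (hy : y ≠ 0)
    (hα : hf a b c x y = 0 ∨ v (hf a b c x y) = 1) : v x ≤ 1 ∧ v (x - a) = 1 := by
  have h20 := two_ne_of_val h2
  have hm := hf_mul (a := a) (b := b) (c := c) (x := x) h20 hy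
  rcases hα with h0 | h1
  · rw [h0, zero_mul] at hm
    have h3 : v (x - a) = 1 := by
      refine sq_eq_one.mp ?_
      rw [← map_pow, sub_eq_zero.mp hm.symm, map_mul, vab, vac, mul_one]
    refine ⟨?_, h3⟩
    have := v.map_add_le h3.le va
    rwa [sub_add_cancel] at this
  · have hvy : v y = v ((x - a) ^ 2 - (a - b) * (a - c)) := by
      rw [← hm, map_mul, map_mul, h1, h2, one_mul, one_mul]
    have hy2 : v y ^ 2 = v (x - a) * v (x - b) * v (x - c) := by
      rw [← map_pow, he, map_mul, map_mul]
    have hq : v ((a - b) * (a - c)) = 1 := by rw [map_mul, vab, vac, mul_one]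
    have hx : v x ≤ 1 := by
      by_contra hx
      push Not at hx
      have e1 : v (x - a) = v x := v.map_sub_eq_of_lt_left (lt_of_le_of_lt va hx)
      have e2 : v (x - b) = v x := v.map_sub_eq_of_lt_left (lt_of_le_of_lt vb hx)
      have e3 : v (x - c) = v x := v.map_sub_eq_of_lt_left (lt_of_le_of_lt vc hx)
      have e4 : v ((x - a) ^ 2 - (a - b) * (a - c)) = v x ^ 2 := by
        rw [v.map_sub_eq_of_lt_left, map_pow, e1]
        rw [hq, map_pow, e1]
        exact one_lt_pow₀ hx two_ne_zero
      rw [hvy, e4, e1, e2, e3] at hy2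
      have hx0 : v x ≠ 0 := (lt_trans zero_lt_one hx).ne'
      have h5 : v x ^ 3 * v x = v x ^ 3 * 1 := by
        rw [mul_one]
        calc v x ^ 3 * v x = (v x ^ 2) ^ 2 := by rw [← pow_succ, ← pow_mul]
          _ = v x * v x * v x := hy2
          _ = v x ^ 3 := by rw [pow_succ, pow_two]
      have h6 := mul_left_cancel₀ (pow_ne_zero 3 hx0) h5
      exact absurd h6 hx.ne'
    refine ⟨hx, ?_⟩
    by_contra hne
    have hlt : v (x - a) < 1 := lt_of_le_of_ne (v.map_sub_le hx va) hne
    have hsq : v ((x - a) ^ 2) < 1 := by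
      rw [map_pow, sq]
      exact mul_lt_one_of_lt_of_le hlt hlt.le
    have e4 : v y = 1 := by
      rw [hvy, v.map_sub_eq_of_lt_right, hq]
      rwa [hq]
    rw [e4, one_pow, mul_assoc] at hy2
    have h5 : v (x - a) * (v (x - b) * v (x - c)) < 1 :=
      mul_lt_one_of_lt_of_le hlt (mul_le_one' (v.map_sub_le hx vb) (v.map_sub_le hx vc))
    rw [← hy2] at h5
    exact lt_irrefl _ h5

lemma dich (G : GoodV v a b c) {X Y : E} (he : Y ^ 2 = (X - a) * (X - b) * (X - c))
    (hI : Y ≠ 0 → v (X - a) = 1 ∧ v (X - b) = 1 ∧ v (X - c) = 1) :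
    (X - a = 0 ∨ v (X - a) = 1) ∧ (X - b = 0 ∨ v (X - b) = 1) ∧ (X - c = 0 ∨ v (X - c) = 1) := by
  by_cases hY : Y = 0
  · rw [hY, zero_pow two_ne_zero] at he
    have h3 := mul_eq_zero.mp he.symm
    have vba : v (b - a) = 1 := by rw [v.map_sub_swap]; exact G.vab
    have vcb : v (c - b) = 1 := by rw [v.map_sub_swap]; exact G.vbc
    have vac : v (a - c) = 1 := by rw [v.map_sub_swap]; exact G.vca
    rcases h3 with h3 | h3
    · rcases mul_eq_zero.mp h3 with h4 | h4
      · have h5 := sub_eq_zero.mp h4
        refine ⟨Or.inl h4, Or.inr ?_, Or.inr ?_⟩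
        · rw [h5]; exact G.vab
        · rw [h5]; exact vac
      · have h5 := sub_eq_zero.mp h4
        refine ⟨Or.inr ?_, Or.inl h4, Or.inr ?_⟩
        · rw [h5]; exact vba
        · rw [h5]; exact G.vbc
    · have h5 := sub_eq_zero.mp h3
      refine ⟨Or.inr ?_, Or.inr ?_, Or.inl h3⟩
      · rw [h5]; exact G.vca
      · rw [h5]; exact vcb
  · obtain ⟨h1, h2, h3⟩ := hI hY
    exact ⟨Or.inr h1, Or.inr h2, Or.inr h3⟩

lemma sq_dich {α A : E} (h : A = α ^ 2) (hA : A = 0 ∨ v A = 1) : α = 0 ∨ v α = 1 := by
  rcases hA with h0 | h1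
  · left
    rw [h] at h0
    exact pow_eq_zero_iff two_ne_zero |>.mp h0
  · right
    rw [h, map_pow] at h1
    exact sq_eq_one.mp h1

end tor

section TORA

variable {E Γ₀ : Type*} [Field E] [DecidableEq E] [LinearOrderedCommGroupWithZero Γ₀]
  {v : Valuation E Γ₀} {a b c : E}

/-- 2-power torsion points are integral, and reduce to 2-torsion only if they are 2-torsion -/
theorem tor_integral (h2 : v 2 = 1) (G : GoodV v a b c) (m : ℕ) (x y : E)
    (h : (leg a b c).Nonsingular x y) (ht : 2 ^ m • Point.some x y h = 0) :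
    v x ≤ 1 ∧ (y ≠ 0 → v (x - a) = 1 ∧ v (x - b) = 1 ∧ v (x - c) = 1) := by
  have h20 := two_ne_of_val h2
  have vba : v (b - a) = 1 := by rw [v.map_sub_swap]; exact G.vab
  have vcb : v (c - b) = 1 := by rw [v.map_sub_swap]; exact G.vbc
  have vac : v (a - c) = 1 := by rw [v.map_sub_swap]; exact G.vca
  induction m generalizing x y with
  | zero =>
    rw [pow_zero, one_smul] at ht
    exact absurd ht (Point.some_ne_zero h)
  | succ m ih =>
    have he := (leg_equation a b c x y).mp h.1
    by_cases hy : y = 0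
    · refine ⟨?_, fun h3 => absurd hy h3⟩
      rw [hy, zero_pow two_ne_zero] at he
      rcases mul_eq_zero.mp he.symm with h3 | h3
      · rcases mul_eq_zero.mp h3 with h4 | h4
        · rw [sub_eq_zero.mp h4]; exact G.va
        · rw [sub_eq_zero.mp h4]; exact G.vb
      · rw [sub_eq_zero.mp h3]; exact G.vc
    · obtain ⟨X, Y, h', hR, hXa, hXb, hXc, hY⟩ := leg_dbl h20 x y h hy
      have ht' : 2 ^ m • Point.some X Y h' = 0 := by
        rw [← hR, ← two_nsmul, smul_smul, ← pow_succ]
        exact ht
      have he' := (leg_equation a b c X Y).mp h'.1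
      obtain ⟨d1, d2, d3⟩ := dich G he' (ih X Y h' ht').2
      have he2 : y ^ 2 = (x - b) * (x - c) * (x - a) := by linear_combination he
      have he3 : y ^ 2 = (x - c) * (x - a) * (x - b) := by linear_combination he
      have r1 := one_case h2 G.va G.vb G.vc G.vab vac he hy (sq_dich hXa d1)
      have r2 := one_case h2 G.vb G.vc G.va G.vbc vba he2 hy (sq_dich hXb d2)
      have r3 := one_case h2 G.vc G.va G.vb G.vca vcb he3 hy (sq_dich hXc d3)
      exact ⟨r1.1, fun _ => ⟨r1.2, r2.2, r3.2⟩⟩

omit [DecidableEq E] in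
/-- the square roots are congruent -/
lemma hf_congr (h2 : v 2 = 1) (va : v a ≤ 1) {x y x' y' : E} (hy : v y = 1) (hy' : v y' = 1)
    (hx : v x ≤ 1) (hx' : v x' ≤ 1) (h' : v (hf a b c x' y') ≤ 1) (hxx : v (x - x') < 1)
    (hyy : v (y - y') < 1) : v (hf a b c x y - hf a b c x' y') < 1 := by
  have h20 := two_ne_of_val h2
  have hy0 : y ≠ 0 := by
    rintro rfl
    rw [map_zero] at hy
    exact zero_ne_one hy
  have hy0' : y' ≠ 0 := by
    rintro rfl
    rw [map_zero] at hy'
    exact zero_ne_one hy'
  have e1 := hf_mul (a := a) (b := b) (c := c) (x := x) h20 hy0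
  have e2 := hf_mul (a := a) (b := b) (c := c) (x := x') h20 hy0'
  have e3 : (hf a b c x y - hf a b c x' y') * (2 * y) =
      (x - x') * (x + x' - 2 * a) - hf a b c x' y' * (2 * (y - y')) := by
    linear_combination e1 - e2
  have e4 : v (hf a b c x y - hf a b c x' y') =
      v ((x - x') * (x + x' - 2 * a) - hf a b c x' y' * (2 * (y - y'))) := by
    rw [← e3, map_mul, map_mul, h2, hy, one_mul, mul_one]
  rw [e4]
  refine v.map_sub_lt ?_ ?_
  · rw [map_mul]
    refine mul_lt_one_of_lt_of_le hxx (v.map_sub_le (v.map_add_le hx hx') ?_)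
    rw [map_mul, h2, one_mul]
    exact va
  · rw [map_mul, map_mul, h2, one_mul]
    exact Right.mul_lt_one_of_le_of_lt h' hyy

omit [DecidableEq E] in
lemma eq_of_sq (h2 : v 2 = 1) {α α' : E} (hs : α ^ 2 = α' ^ 2) (hd : α = 0 ∨ v α = 1)
    (hc : v (α - α') < 1) : α = α' := by
  rcases sq_eq_sq_iff_eq_or_eq_neg.mp hs with h | h
  · exact h
  · rcases hd with h0 | h1
    · rw [h0] at h ⊢
      rw [eq_comm, neg_eq_zero] at h
      exact h.symm
    · exfalso
      have e : α - α' = 2 * α := by linear_combination -h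
      rw [e, map_mul, h2, h1, one_mul] at hc
      exact lt_irrefl _ hc

/-- the reduction is injective on 2-power torsion -/
theorem tor_inj (h2 : v 2 = 1) (G : GoodV v a b c) (m : ℕ) (x y x' y' : E)
    (h : (leg a b c).Nonsingular x y) (ht : 2 ^ m • Point.some x y h = 0)
    (h' : (leg a b c).Nonsingular x' y') (ht' : 2 ^ m • Point.some x' y' h' = 0)
    (hx : v (x - x') < 1) (hy : v (y - y') < 1) : x = x' ∧ y = y' := by
  have h20 := two_ne_of_val h2
  have vba : v (b - a) = 1 := by rw [v.map_sub_swap]; exact G.vab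
  have vcb : v (c - b) = 1 := by rw [v.map_sub_swap]; exact G.vbc
  have vac : v (a - c) = 1 := by rw [v.map_sub_swap]; exact G.vca
  induction m generalizing x y x' y' with
  | zero =>
    rw [pow_zero, one_smul] at ht
    exact absurd ht (Point.some_ne_zero h)
  | succ m ih =>
    have he := (leg_equation a b c x y).mp h.1
    have he' := (leg_equation a b c x' y').mp h'.1
    obtain ⟨i1, i2⟩ := tor_integral h2 G (m + 1) x y h ht
    obtain ⟨i1', i2'⟩ := tor_integral h2 G (m + 1) x' y' h' ht'
    by_cases hy0 : y = 0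
    · by_cases hy0' : y' = 0
      · refine ⟨?_, by rw [hy0, hy0']⟩
        rw [hy0, zero_pow two_ne_zero] at he
        rw [hy0', zero_pow two_ne_zero] at he'
        have k : ∀ s t : E, v (s - t) = 1 → x = s → x' = t → x = x' := by
          rintro s t hst rfl rfl
          rw [hst] at hx
          exact absurd hx (lt_irrefl _)
        rcases mul_eq_zero.mp he.symm with h3 | h3
        · rcases mul_eq_zero.mp h3 with h4 | h4
          · rcases mul_eq_zero.mp he'.symm with h5 | h5
            · rcases mul_eq_zero.mp h5 with h6 | h6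
              · rw [sub_eq_zero.mp h4, sub_eq_zero.mp h6]
              · exact k a b G.vab (sub_eq_zero.mp h4) (sub_eq_zero.mp h6)
            · exact k a c vac (sub_eq_zero.mp h4) (sub_eq_zero.mp h5)
          · rcases mul_eq_zero.mp he'.symm with h5 | h5
            · rcases mul_eq_zero.mp h5 with h6 | h6
              · exact k b a vba (sub_eq_zero.mp h4) (sub_eq_zero.mp h6)
              · rw [sub_eq_zero.mp h4, sub_eq_zero.mp h6]
            · exact k b c G.vbc (sub_eq_zero.mp h4) (sub_eq_zero.mp h5)
        · rcases mul_eq_zero.mp he'.symm with h5 | h5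
          · rcases mul_eq_zero.mp h5 with h6 | h6
            · exact k c a G.vca (sub_eq_zero.mp h3) (sub_eq_zero.mp h6)
            · exact k c b vcb (sub_eq_zero.mp h3) (sub_eq_zero.mp h6)
          · rw [sub_eq_zero.mp h3, sub_eq_zero.mp h5]
      · exfalso
        obtain ⟨j1, j2, j3⟩ := i2' hy0'
        rw [hy0, zero_pow two_ne_zero] at he
        rw [v.map_sub_swap] at hx
        rcases mul_eq_zero.mp he.symm with h3 | h3
        · rcases mul_eq_zero.mp h3 with h4 | h4
          · rw [sub_eq_zero.mp h4, j1] at hx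
            exact lt_irrefl _ hx
          · rw [sub_eq_zero.mp h4, j2] at hx
            exact lt_irrefl _ hx
        · rw [sub_eq_zero.mp h3, j3] at hx
          exact lt_irrefl _ hx
    · by_cases hy0' : y' = 0
      · exfalso
        obtain ⟨j1, j2, j3⟩ := i2 hy0
        rw [hy0', zero_pow two_ne_zero] at he'
        rcases mul_eq_zero.mp he'.symm with h3 | h3
        · rcases mul_eq_zero.mp h3 with h4 | h4
          · rw [sub_eq_zero.mp h4, j1] at hx
            exact lt_irrefl _ hx
          · rw [sub_eq_zero.mp h4, j2] at hx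
            exact lt_irrefl _ hx
        · rw [sub_eq_zero.mp h3, j3] at hx
          exact lt_irrefl _ hx
      · obtain ⟨j1, j2, j3⟩ := i2 hy0
        obtain ⟨j1', j2', j3'⟩ := i2' hy0'
        have vy : v y = 1 := by
          refine sq_eq_one.mp ?_
          rw [← map_pow, he, map_mul, map_mul, j1, j2, j3, mul_one, mul_one]
        have vy' : v y' = 1 := by
          refine sq_eq_one.mp ?_
          rw [← map_pow, he', map_mul, map_mul, j1', j2', j3', mul_one, mul_one]
        obtain ⟨X, Y, hN, hR, hXa, hXb, hXc, hY⟩ := leg_dbl h20 x y h hy0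
        obtain ⟨X', Y', hN', hR', hXa', hXb', hXc', hY'⟩ := leg_dbl h20 x' y' h' hy0'
        have hT : 2 ^ m • Point.some X Y hN = 0 := by
          rw [← hR, ← two_nsmul, smul_smul, ← pow_succ]
          exact ht
        have hT' : 2 ^ m • Point.some X' Y' hN' = 0 := by
          rw [← hR', ← two_nsmul, smul_smul, ← pow_succ]
          exact ht'
        have E1 := (leg_equation a b c X Y).mp hN.1
        have E1' := (leg_equation a b c X' Y').mp hN'.1
        obtain ⟨d1, d2, d3⟩ := dich G E1 (tor_integral h2 G m X Y hN hT).2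
        obtain ⟨d1', d2', d3'⟩ := dich G E1' (tor_integral h2 G m X' Y' hN' hT').2
        have q1 := sq_dich hXa d1
        have q2 := sq_dich hXb d2
        have q3 := sq_dich hXc d3
        have q1' := sq_dich hXa' d1'
        have q2' := sq_dich hXb' d2'
        have q3' := sq_dich hXc' d3'
        have le1 : ∀ z : E, (z = 0 ∨ v z = 1) → v z ≤ 1 := by
          rintro z (rfl | hz)
          · rw [map_zero]; exact zero_le_one
          · exact hz.le
        have c1 := hf_congr (b := b) (c := c) h2 G.va vy vy' i1 i1' (le1 _ q1') hx hy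
        have c2 := hf_congr (b := c) (c := a) h2 G.vb vy vy' i1 i1' (le1 _ q2') hx hy
        have c3 := hf_congr (b := a) (c := b) h2 G.vc vy vy' i1 i1' (le1 _ q3') hx hy
        have hXX : v (X - X') < 1 := by
          have e : X - X' = (hf a b c x y - hf a b c x' y') * (hf a b c x y + hf a b c x' y') := by
            linear_combination hXa - hXa'
          rw [e, map_mul]
          exact mul_lt_one_of_lt_of_le c1 (v.map_add_le (le1 _ q1) (le1 _ q1'))
        have hYY : v (Y - Y') < 1 := by
          have e : Y - Y' = (hf a b c x y - hf a b c x' y') * (hf b c a x y * hf c a b x y) +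
              (hf b c a x y - hf b c a x' y') * (hf a b c x' y' * hf c a b x y) +
              (hf c a b x y - hf c a b x' y') * (hf a b c x' y' * hf b c a x' y') := by
            rw [hY, hY']
            ring
          rw [e]
          refine v.map_add_lt (v.map_add_lt ?_ ?_) ?_
          · rw [map_mul, map_mul]
            exact mul_lt_one_of_lt_of_le c1 (mul_le_one' (le1 _ q2) (le1 _ q3))
          · rw [map_mul, map_mul]
            exact mul_lt_one_of_lt_of_le c2 (mul_le_one' (le1 _ q1') (le1 _ q3))
          · rw [map_mul, map_mul]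
            exact mul_lt_one_of_lt_of_le c3 (mul_le_one' (le1 _ q1') (le1 _ q2'))
        obtain ⟨hXX', hYY'⟩ := ih X Y X' Y' hN hT hN' hT' hXX hYY
        have s1 : hf a b c x y = hf a b c x' y' :=
          eq_of_sq h2 (by rw [← hXa, ← hXa', hXX']) q1 c1
        have s2 : hf b c a x y = hf b c a x' y' :=
          eq_of_sq h2 (by rw [← hXb, ← hXb', hXX']) q2 c2
        have s3 : hf c a b x y = hf c a b x' y' :=
          eq_of_sq h2 (by rw [← hXc, ← hXc', hXX']) q3 c3
        constructor
        · have t1 := hf_x h20 he hy0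
          have t2 := hf_x h20 he' hy0'
          rw [s1, s2, s3, ← t2] at t1
          exact sub_left_injective t1
        · have t1 := hf_y h20 he hy0
          have t2 := hf_y h20 he' hy0'
          rw [s1, s2, s3, ← t2] at t1
          exact t1

end TORA

end Pool.Agent.Helper19.Sec
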