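import Mathlib
import Pool.Agent.Helper19.Sec.Defs
import Pool.Agent.Helper19.Sec.Ring
import Pool.Agent.Helper19.Sec.TorA

/-!
Inertia and Frobenius on the 2-power torsion (module TORB).
-/

set_option autoImplicit false

namespace Pool.Agent.Helper19.Sec

open Polynomial WeierstrassCurve.Affine

section TORB

variable {E Γ₀ : Type*} [Field E] [DecidableEq E] [LinearOrderedCommGroupWithZero Γ₀]
  {v : Valuation E Γ₀} {φ τ : E →+* E} {q : ℕ} {a b c : E}

omit [DecidableEq E] in
theorem torb_y_le (G : GoodV v a b c) {x y : E} (h : (leg a b c).Nonsingular x y) (hx : v x ≤ 1) :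
    v y ≤ 1 := by
  have h1 := (leg_equation a b c x y).1 h.1
  have h2 : v (x - a) ≤ 1 := (v.map_sub x a).trans (max_le hx G.va)
  have h3 : v (x - b) ≤ 1 := (v.map_sub x b).trans (max_le hx G.vb)
  have h4 : v (x - c) ≤ 1 := (v.map_sub x c).trans (max_le hx G.vc)
  have h5 : v y ^ 2 ≤ 1 := by
    rw [← map_pow, h1, map_mul, map_mul]
    exact mul_le_one' (mul_le_one' h2 h3) h4
  by_contra hlt
  push Not at hlt
  exact absurd h5 (not_le.2 (one_lt_pow₀ hlt (by norm_num)))

/-- inertia acts trivially on the 2-power torsion -/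
theorem tor_inertia (hl : IsLoc v φ τ q) (G : GoodV v a b c)
    (hτ : τ a = a ∧ τ b = b ∧ τ c = c) (m : ℕ) (P : (leg a b c).Point) (ht : 2 ^ m • P = 0) :
    mapPt τ hτ P = P := by
  rcases P with _ | ⟨x, y, h⟩
  · rfl
  · have ht' : 2 ^ m • Point.some (τ x) (τ y) (nonsingular_map τ hτ h) = 0 := by
      rw [← mapPt_some τ hτ x y h, ← map_nsmul, ht, map_zero]
    have hx := (tor_integral hl.v2 G m x y h ht).1
    have hy := torb_y_le G h hx
    obtain ⟨h1, h2⟩ := tor_inj hl.v2 G m (τ x) (τ y) x y (nonsingular_map τ hτ h) ht' h ht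
      (hl.hτ x hx) (hl.hτ y hy)
    rw [mapPt_some]
    simp only [Point.some.injEq]
    exact ⟨h1, h2⟩

/-- the ideal of the elements of valuation `< 1` -/
def torbI (v : Valuation E Γ₀) : Ideal v.integer where
  carrier := {z | v (z : E) < 1}
  zero_mem' := by
    change v ((0 : v.integer) : E) < 1
    simp
  add_mem' := by
    intro z w hz hw
    exact (v.map_add _ _).trans_lt (max_lt hz hw)
  smul_mem' := by
    intro z w hw
    change v ((z : E) * (w : E)) < 1
    rw [map_mul]
    exact (mul_le_of_le_one_left' z.2).trans_lt hw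

omit [DecidableEq E] in
theorem torb_mem (z : v.integer) : z ∈ torbI v ↔ v (z : E) < 1 := Iff.rfl

omit [DecidableEq E] in
theorem torb_prime : (torbI v).IsPrime := by
  refine Ideal.isPrime_iff.2 ⟨?_, ?_⟩
  · rw [Ne, Ideal.eq_top_iff_one, torb_mem]
    simp
  · intro z w hzw
    rw [torb_mem] at hzw ⊢
    rw [torb_mem]
    by_contra hcon
    push Not at hcon
    have h1 : v (z : E) = 1 := le_antisymm z.2 hcon.1
    have h2 : v (w : E) = 1 := le_antisymm w.2 hcon.2
    have h3 : v ((z * w : v.integer) : E) = 1 := by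
      change v ((z : E) * (w : E)) = 1
      rw [map_mul, h1, h2, mul_one]
    rw [h3] at hzw
    exact lt_irrefl _ hzw

open Classical in
/-- the pair of residues of a point -/
noncomputable def torbPhi (v : Valuation E Γ₀) (a b c : E) (P : (leg a b c).Point) :
    Option ((v.integer ⧸ torbI v) × (v.integer ⧸ torbI v)) :=
  match P with
  | .zero => none
  | .some x y _ => if h : v x ≤ 1 ∧ v y ≤ 1 then
      some (Ideal.Quotient.mk _ ⟨x, h.1⟩, Ideal.Quotient.mk _ ⟨y, h.2⟩) else none

/-- Frobenius has finitely many fixed points in the 2-power torsion -/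
theorem tor_frob (hl : IsLoc v φ τ q) (G : GoodV v a b c)
    (hφ : φ a = a ∧ φ b = b ∧ φ c = c) :
    {P : (leg a b c).Point | (∃ m : ℕ, 2 ^ m • P = 0) ∧ mapPt φ hφ P = P}.Finite := by
  have := torb_prime (v := v)
  have hdom : IsDomain (v.integer ⧸ torbI v) := inferInstance
  have hq := hl.two_le
  have hpoly : (X ^ q - X : (v.integer ⧸ torbI v)[X]) ≠ 0 := by
    intro h0
    have h1 := congrArg (fun p => Polynomial.coeff p q) h0
    simp only [coeff_sub, coeff_X_pow_self, coeff_zero] at h1
    rw [coeff_X_of_ne_one (by omega), sub_zero] at h1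
    exact one_ne_zero h1
  have hR : {r : v.integer ⧸ torbI v | r ^ q - r = 0}.Finite := by
    have h1 : {r : v.integer ⧸ torbI v | r ^ q - r = 0} =
        {r | (X ^ q - X : (v.integer ⧸ torbI v)[X]).IsRoot r} := by
      ext r
      simp [IsRoot.def]
    rw [h1]
    exact finite_setOfPred_isRoot hpoly
  have hroot : ∀ (x : E) (hx : v x ≤ 1), φ x = x →
      (Ideal.Quotient.mk (torbI v) ⟨x, hx⟩) ^ q - Ideal.Quotient.mk (torbI v) ⟨x, hx⟩ = 0 := by
    intro x hx hfix
    rw [← map_pow, ← map_sub, Ideal.Quotient.eq_zero_iff_mem, torb_mem]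
    have h1 := hl.hφ x hx
    rw [hfix] at h1
    change v (x ^ q - x) < 1
    rw [v.map_sub_swap]
    exact h1
  refine Set.Finite.of_finite_image (f := torbPhi v a b c) ?_ ?_
  · refine Set.Finite.subset (((hR.prod hR).image some).insert none) ?_
    rintro _ ⟨P, ⟨⟨m, hm⟩, hP⟩, rfl⟩
    rcases P with _ | ⟨x, y, h⟩
    · exact Set.mem_insert _ _
    · right
      have hx := (tor_integral hl.v2 G m x y h hm).1
      have hy := torb_y_le G h hx
      rw [mapPt_some] at hP
      simp only [Point.some.injEq] at hP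
      refine ⟨(Ideal.Quotient.mk _ ⟨x, hx⟩, Ideal.Quotient.mk _ ⟨y, hy⟩),
        ⟨hroot x hx hP.1, hroot y hy hP.2⟩, ?_⟩
      change _ = dite _ _ _
      rw [dif_pos ⟨hx, hy⟩]
  · rintro P ⟨⟨m, hm⟩, _⟩ P' ⟨⟨m', hm'⟩, _⟩ hPP
    rcases P with _ | ⟨x, y, h⟩
    · rcases P' with _ | ⟨x', y', h'⟩
      · rfl
      · exfalso
        have hx := (tor_integral hl.v2 G m' x' y' h' hm').1
        have hy := torb_y_le G h' hx
        change none = dite _ _ _ at hPP
        rw [dif_pos ⟨hx, hy⟩] at hPP
        exact absurd hPP (by simp)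
    · have hx := (tor_integral hl.v2 G m x y h hm).1
      have hy := torb_y_le G h hx
      rcases P' with _ | ⟨x', y', h'⟩
      · exfalso
        change dite _ _ _ = none at hPP
        rw [dif_pos ⟨hx, hy⟩] at hPP
        exact absurd hPP (by simp)
      · have hx' := (tor_integral hl.v2 G m' x' y' h' hm').1
        have hy' := torb_y_le G h' hx'
        change dite _ _ _ = dite _ _ _ at hPP
        rw [dif_pos ⟨hx, hy⟩, dif_pos ⟨hx', hy'⟩, Option.some.injEq, Prod.mk.injEq,
          Ideal.Quotient.eq, Ideal.Quotient.eq, torb_mem, torb_mem] at hPP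
        have hk : ∀ (k l : ℕ) (Q : (leg a b c).Point), 2 ^ k • Q = 0 → 2 ^ (k + l) • Q = 0 := by
          intro k l Q hQ
          rw [pow_add, mul_comm, mul_smul, hQ, smul_zero]
        have hm2 : 2 ^ (m + m') • Point.some x y h = 0 := hk m m' _ hm
        have hm2' : 2 ^ (m + m') • Point.some x' y' h' = 0 := by
          rw [add_comm m m']
          exact hk m' m _ hm'
        obtain ⟨h1, h2⟩ := tor_inj hl.v2 G (m + m') x y x' y' h hm2 h' hm2' hPP.1 hPP.2
        simp only [Point.some.injEq]
        exact ⟨h1, h2⟩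

end TORB

end Pool.Agent.Helper19.Sec
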