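import Mathlib
import Pool.Agent.Helper19.Sec.Defs

/-!
Roots of elements fixed by the inertia element.
-/

set_option autoImplicit false

namespace Pool.Agent.Helper19.Sec

section

variable {E Γ₀ : Type*} [Field E] [LinearOrderedCommGroupWithZero Γ₀] {v : Valuation E Γ₀}
  {φ τ : E →+* E} {q : ℕ}

/-- roots of unity of 2-power order are distinct modulo the maximal ideal -/
lemma root_unity_eq_one (h2 : v 2 = 1) (m : ℕ) : ∀ ζ : E, ζ ^ 2 ^ m = 1 → v (ζ - 1) < 1 → ζ = 1 := by
  induction m with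
  | zero => intro ζ h _; simpa using h
  | succ m ih =>
    intro ζ h hv
    have hζ1 : v ζ = 1 := by
      have h1 : v ζ ^ 2 ^ (m + 1) = 1 := by rw [← map_pow, h, map_one]
      exact (pow_eq_one_iff_of_nonneg zero_le (by positivity)).mp h1
    have hsq : (ζ ^ 2) ^ 2 ^ m = 1 := by rw [← pow_mul, ← pow_succ']; exact h
    have hv2 : v (ζ ^ 2 - 1) < 1 := by
      have h3 : ζ ^ 2 - 1 = (ζ - 1) * (ζ + 1) := by ring
      rw [h3, map_mul]
      have h4 : v (ζ + 1) ≤ 1 := by
        refine le_trans (v.map_add _ _) ?_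
        rw [hζ1, map_one, max_self]
      calc v (ζ - 1) * v (ζ + 1) ≤ v (ζ - 1) * 1 := by gcongr
        _ < 1 := by rw [mul_one]; exact hv
    have h5 := ih _ hsq hv2
    have h6 : (ζ - 1) * (ζ + 1) = 0 := by linear_combination h5
    rcases mul_eq_zero.mp h6 with h7 | h7
    · exact sub_eq_zero.mp h7
    · exfalso
      have h8 : ζ = -1 := by linear_combination h7
      rw [h8] at hv
      have h9 : (-1 - 1 : E) = - 2 := by norm_num
      rw [h9, Valuation.map_neg, h2] at hv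
      exact lt_irrefl _ hv

/-- U1 -/
lemma IsLoc.fix_root (h : IsLoc v φ τ q) (m : ℕ) {β : E} (hβ : v β = 1)
    (hf : τ (β ^ 2 ^ m) = β ^ 2 ^ m) : τ β = β := by
  have hβ0 : β ≠ 0 := by
    rintro rfl
    rw [map_zero] at hβ
    exact zero_ne_one hβ
  have h1 : (τ β / β) ^ 2 ^ m = 1 := by
    rw [div_pow, ← map_pow, hf, div_self (pow_ne_zero _ hβ0)]
  have h2 : v (τ β / β - 1) < 1 := by
    have h3 : τ β / β - 1 = (τ β - β) / β := by field_simp
    rw [h3, map_div₀, hβ, div_one]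
    exact h.hτ β hβ.le
  have h4 := root_unity_eq_one h.v2 m _ h1 h2
  rwa [div_eq_one_iff_eq hβ0] at h4

/-- U2 -/
lemma IsLoc.fix_quot (h : IsLoc v φ τ q) (m : ℕ) {β : E} (hβ : β ≠ 0)
    (h1 : τ (β ^ 2 ^ m) = β ^ 2 ^ m) (h2 : τ (φ (β ^ 2 ^ m)) = φ (β ^ 2 ^ m)) :
    τ (φ β / β) = φ β / β := by
  apply h.fix_root m
  · rw [map_div₀, h.vφ, div_self]
    rwa [Valuation.ne_zero_iff]
  · rw [div_pow, map_div₀, h1, ← map_pow φ, h2]

/-- an iterate of the Frobenius lift is again a Frobenius lift -/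
lemma IsLoc.pow (h : IsLoc v φ τ q) : ∀ (j : ℕ), 0 < j → IsLoc v (φ ^ j) τ (q ^ j) := by
  intro j hj
  induction j, hj using Nat.le_induction with
  | base => simpa using h
  | succ j hj ih =>
    refine ⟨?_, h.v2, ?_, h.vτ, ?_, h.hτ⟩
    · calc 2 ≤ q := h.two_le
        _ ≤ q ^ (j + 1) := Nat.le_self_pow (by omega) q
    · intro z
      rw [pow_succ, RingHom.mul_def, RingHom.comp_apply, ih.vφ, h.vφ]
    · intro z hz
      rw [pow_succ, RingHom.mul_def, RingHom.comp_apply]
      have h1 : v (φ z) ≤ 1 := by rw [h.vφ]; exact hz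
      have h2 := ih.hφ _ h1
      have h3 : v ((φ z) ^ q ^ j - (z ^ q) ^ q ^ j) < 1 := by
        have h4 := h.hφ z hz
        rw [← Commute.geom_sum₂_mul (Commute.all (φ z) (z ^ q)), map_mul]
        have h5 : v (∑ i ∈ Finset.range (q ^ j), φ z ^ i * (z ^ q) ^ (q ^ j - 1 - i)) ≤ 1 := by
          apply Valuation.map_sum_le
          intro i _
          rw [map_mul, map_pow, map_pow, map_pow]
          exact mul_le_one' (pow_le_one' h1 _) (pow_le_one' (pow_le_one' hz _) _)
        calc _ ≤ 1 * v (φ z - z ^ q) := by gcongr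
          _ < 1 := by rw [one_mul]; exact h4
      have h6 : (φ ^ j) (φ z) - z ^ q ^ (j + 1) =
          ((φ ^ j) (φ z) - (φ z) ^ q ^ j) + ((φ z) ^ q ^ j - (z ^ q) ^ q ^ j) := by
        rw [← pow_mul, ← pow_succ']
        ring
      rw [h6]
      exact v.map_add_lt h2 h3

end

end Pool.Agent.Helper19.Sec
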