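import Mathlib
import Pool.Agent.Helper19.Sec.Ring
import Pool.Agent.Helper19.Sec.Unit
import Pool.Agent.Helper19.Sec.TorB
import Pool.Agent.Helper19.Sec.Half
import Pool.Agent.Helper19.Sec.Grp

/-!
Existence of a torsion point `D` with `φ D = D + (c, 0)`.
-/

set_option autoImplicit false

namespace Pool.Agent.Helper19.Sec

open Polynomial WeierstrassCurve.Affine

section

variable {E : Type*} [Field E] [DecidableEq E] {a b c : E}

omit [DecidableEq E] in
lemma y_zero_of_root {x y : E} (h : (leg a b c).Nonsingular x y) (hx : x = a ∨ x = b ∨ x = c) :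
    y = 0 := by
  have h1 := (leg_equation a b c x y).mp h.1
  have h2 : y ^ 2 = 0 := by
    rw [h1]
    rcases hx with rfl | rfl | rfl <;> ring
  exact pow_eq_zero_iff (two_ne_zero) |>.mp h2

omit [DecidableEq E] in
lemma nonsingular_c [CharZero E] (hbc : b ≠ c) (hca : c ≠ a) : (leg a b c).Nonsingular c 0 := by
  rw [WeierstrassCurve.Affine.nonsingular_iff]
  refine ⟨(leg_equation a b c c 0).mpr (by ring), Or.inl ?_⟩
  intro h
  have h1 : (c - a) * (c - b) = 0 := by linear_combination (-1 : E) * h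
  rcases mul_eq_zero.mp h1 with h2 | h2
  · exact hca (sub_eq_zero.mp h2)
  · exact hbc (sub_eq_zero.mp h2).symm

variable (a b c) in
/-- the 2-power torsion subgroup -/
noncomputable def tors : AddSubgroup (leg a b c).Point where
  carrier := {P | ∃ m : ℕ, 2 ^ m • P = 0}
  zero_mem' := ⟨0, smul_zero _⟩
  add_mem' := by
    rintro P Q ⟨m, hm⟩ ⟨n, hn⟩
    refine ⟨m + n, ?_⟩
    rw [smul_add, pow_add, mul_smul, mul_smul, hn, smul_zero, ← mul_smul, mul_comm, mul_smul, hm,
      smul_zero, add_zero]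
  neg_mem' := by
    rintro P ⟨m, hm⟩
    exact ⟨m, by rw [smul_neg, hm, neg_zero]⟩

theorem exists_torsion [IsAlgClosed E] [CharZero E] {Γ₀ : Type*}
    [LinearOrderedCommGroupWithZero Γ₀] {v : Valuation E Γ₀} {φ τ : E →+* E} {q : ℕ}
    (hl : IsLoc v φ τ q) (G : GoodV v a b c) (hφ : φ a = a ∧ φ b = b ∧ φ c = c)
    (hτ : τ a = a ∧ τ b = b ∧ τ c = c) :
    ∃ (m : ℕ) (x y : E) (h : (leg a b c).Nonsingular x y)
      (h' : (leg a b c).Nonsingular (φ x) (φ y)) (hc : (leg a b c).Nonsingular c 0),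
      2 ^ (m + 1) • Point.some x y h = 0 ∧
      Point.some x y h + Point.some c 0 hc = Point.some (φ x) (φ y) h' ∧
      τ x = x ∧ τ y = y ∧ τ (φ x) = φ x ∧ τ (φ y) = φ y ∧ x ≠ a ∧ x ≠ b ∧ x ≠ c := by
  have hne : ∀ {s t : E}, v (s - t) = 1 → s ≠ t := by
    rintro s t h rfl
    rw [sub_self, map_zero] at h
    exact zero_ne_one h
  have hab := hne G.vab
  have hbc := hne G.vbc
  have hca := hne G.vca
  have hmap : ∀ (σ : E →+* E) (hσ : σ a = a ∧ σ b = b ∧ σ c = c) (P : (leg a b c).Point),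
      P ∈ tors a b c → mapPt σ hσ P ∈ tors a b c := by
    rintro σ hσ P ⟨m, hm⟩
    exact ⟨m, by rw [← map_nsmul, hm, map_zero]⟩
  let ψ : tors a b c →+ tors a b c :=
    { toFun := fun P => ⟨mapPt φ hφ P - P, (tors a b c).sub_mem (hmap φ hφ P P.2) P.2⟩
      map_zero' := by
        apply Subtype.ext
        simp
      map_add' := fun P Q => by
        apply Subtype.ext
        simp only [AddSubgroup.coe_add, map_add]
        abel }
  have hsurj : Function.Surjective ψ := by
    apply sub_surj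
    · rintro ⟨P, m, hm⟩
      exact ⟨m, Subtype.ext hm⟩
    · rintro ⟨P, m, hm⟩
      obtain ⟨Q, hQ⟩ := exists_half hab hbc hca P
      refine ⟨⟨Q, m + 1, ?_⟩, Subtype.ext hQ⟩
      rw [pow_succ, mul_smul, two_smul, hQ, hm]
    · refine Set.Finite.of_finite_image (f := Subtype.val) ?_ Subtype.val_injective.injOn
      refine (finite_two_torsion (a := a) (b := b) (c := c)).subset ?_
      rintro _ ⟨P, hP, rfl⟩
      exact congrArg Subtype.val hP
    · refine Set.Finite.of_finite_image (f := Subtype.val) ?_ Subtype.val_injective.injOn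
      refine (tor_frob hl G hφ).subset ?_
      rintro _ ⟨P, hP, rfl⟩
      refine ⟨P.2, ?_⟩
      have h1 : mapPt φ hφ P - P = 0 := congrArg Subtype.val hP
      exact sub_eq_zero.mp h1
  have hc := nonsingular_c (a := a) hbc hca
  have hcc : Point.some c 0 hc + Point.some c 0 hc = 0 :=
    Point.add_self_of_Y_eq (by simp [negY])
  have hT : Point.some c 0 hc ∈ tors a b c := ⟨1, by rw [pow_one, two_smul, hcc]⟩
  obtain ⟨⟨D, hD⟩, hψ⟩ := hsurj ⟨_, hT⟩
  have hψ' : mapPt φ hφ D - D = Point.some c 0 hc := congrArg Subtype.val hψ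
  obtain ⟨m, hm⟩ := hD
  have hfix : ∀ {s : E}, s = a ∨ s = b ∨ s = c → φ s = s := by
    rintro s (rfl | rfl | rfl)
    exacts [hφ.1, hφ.2.1, hφ.2.2]
  rcases D with _ | ⟨x, y, h⟩
  · exfalso
    have h1 : mapPt φ hφ (0 : (leg a b c).Point) - 0 = Point.some c 0 hc := hψ'
    rw [map_zero, sub_zero] at h1
    exact Point.some_ne_zero _ h1.symm
  · have hx : ¬ (x = a ∨ x = b ∨ x = c) := by
      intro hx
      have hy := y_zero_of_root h hx
      have h1 : mapPt φ hφ (Point.some x y h) = Point.some x y h := by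
        rw [mapPt_some, Point.some.injEq]
        exact ⟨hfix hx, by rw [hy, map_zero]⟩
      rw [h1, sub_self] at hψ'
      exact Point.some_ne_zero _ hψ'.symm
    push Not at hx
    have hτP := tor_inertia hl G hτ m (Point.some x y h) hm
    rw [mapPt_some, Point.some.injEq] at hτP
    have hτP' := tor_inertia hl G hτ m (mapPt φ hφ (Point.some x y h))
      (by rw [← map_nsmul, hm, map_zero])
    rw [mapPt_some, mapPt_some, Point.some.injEq] at hτP'
    refine ⟨m, x, y, h, nonsingular_map φ hφ h, hc, ?_, ?_, hτP.1, hτP.2, hτP'.1, hτP'.2, hx.1,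
      hx.2.1, hx.2.2⟩
    · rw [pow_succ, mul_comm, mul_smul, hm, smul_zero]
    · rw [← mapPt_some φ hφ x y h, ← hψ']
      abel

end

end Pool.Agent.Helper19.Sec
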