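import Mathlib
import Pool.Agent.Helper36.Descent
import Pool.Agent.Helper19.Sec.Tors
import Pool.Agent.Helper19.Sec.Rel

/-!
The main lemma: an inertia element fixes the square root of `X - c`.
-/

set_option autoImplicit false

namespace Pool.Agent.Helper19.Sec

open Polynomial WeierstrassCurve.Affine

/-- a field `M` containing the algebraic closure `E` of `k`, with a continuous semilinear action
of `Gal(E/k)` -/
structure Frame (k E M : Type*) [Field k] [Field E] [Field M] [Algebra k E] where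
  /-- the inclusion -/
  ι : E →+* M
  /-- the action -/
  ρ : (E ≃ₐ[k] E) →* (M ≃+* M)
  semilin : ∀ σ x, ρ σ (ι x) = ι (σ x)
  cont : ∀ x : M, ∃ F : IntermediateField k E, FiniteDimensional k F ∧
    ∀ τ ∈ F.fixingSubgroup, ρ τ x = x

/-- `n`-th roots of constants are constants -/
lemma root_mem_range {E M : Type*} [Field E] [IsAlgClosed E] [Field M] (ι : E →+* M) {n : ℕ}
    (hn : n ≠ 0) {u : E} {s : M} (h : s ^ n = ι u) : ∃ w : E, s = ι w := by
  have hsplit := IsAlgClosed.splits (X ^ n - C u : E[X])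
  have hne : (X ^ n - C u : E[X]) ≠ 0 := X_pow_sub_C_ne_zero (Nat.pos_of_ne_zero hn) u
  have h1 : eval₂ ι s (X ^ n - C u : E[X]) = 0 := by
    rw [eval₂_sub, eval₂_pow, eval₂_X, eval₂_C, h, sub_self]
  have h2 := hsplit.eq_prod_roots
  rw [h2, eval₂_mul, eval₂_C] at h1
  rcases mul_eq_zero.mp h1 with h3 | h3
  · exfalso
    rw [map_eq_zero] at h3
    exact hne (leadingCoeff_eq_zero.mp h3)
  · rw [← coe_eval₂RingHom, map_multiset_prod, Multiset.prod_eq_zero_iff] at h3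
    obtain ⟨p, hp, hp0⟩ := Multiset.mem_map.mp h3
    obtain ⟨w, hw, rfl⟩ := Multiset.mem_map.mp hp
    refine ⟨w, ?_⟩
    rw [coe_eval₂RingHom, eval₂_sub, eval₂_X, eval₂_C] at hp0
    exact sub_eq_zero.mp hp0

/-- elements outside an algebraically closed subfield are transcendental -/
lemma transc_of_not_mem {E M : Type*} [Field E] [IsAlgClosed E] [Field M] (ι : E →+* M) {x : M}
    (hx : x ∉ Set.range ι) (p : E[X]) (h : eval₂ ι x p = 0) : p = 0 := by
  by_contra hne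
  have hsplit := IsAlgClosed.splits p
  have h2 := hsplit.eq_prod_roots
  rw [h2, eval₂_mul, eval₂_C] at h
  rcases mul_eq_zero.mp h with h3 | h3
  · rw [map_eq_zero] at h3
    exact hne (leadingCoeff_eq_zero.mp h3)
  · rw [← coe_eval₂RingHom, map_multiset_prod, Multiset.prod_eq_zero_iff] at h3
    obtain ⟨p, hp, hp0⟩ := Multiset.mem_map.mp h3
    obtain ⟨w, hw, rfl⟩ := Multiset.mem_map.mp hp
    rw [coe_eval₂RingHom, eval₂_sub, eval₂_X, eval₂_C] at hp0
    exact hx ⟨w, (sub_eq_zero.mp hp0).symm⟩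

section main

variable {k E M Γ₀ : Type*} [Field k] [Field E] [Field M] [Algebra k E] [IsGalois k E]
  [IsAlgClosed E] [CharZero E] [LinearOrderedCommGroupWithZero Γ₀]

theorem main_lemma (fr : Frame k E M) {v : Valuation E Γ₀} {φ τ : E ≃ₐ[k] E} {q : ℕ}
    (hl : IsLoc v (φ : E →+* E) (τ : E →+* E) q) {a b c : E} (G : GoodV v a b c)
    (F : IntermediateField k E) [FiniteDimensional k F] (hφF : φ ∈ F.fixingSubgroup)
    (hτF : τ ∈ F.fixingSubgroup) (ha : a ∈ F) (hb : b ∈ F) (hc : c ∈ F) (X Y : M)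
    (hX : ∀ σ ∈ F.fixingSubgroup, fr.ρ σ X = X) (hY : ∀ σ ∈ F.fixingSubgroup, fr.ρ σ Y = Y)
    (hXr : X ∉ Set.range fr.ι)
    (hXY : Y ^ 2 = (X - fr.ι a) * (X - fr.ι b) * (X - fr.ι c))
    (RP : RootProp fr.ι a b c X Y hXY) (r : M) (hr : r ^ 2 = X - fr.ι c) : fr.ρ τ r = r := by
  classical
  have hfix : ∀ σ ∈ F.fixingSubgroup, ∀ z ∈ F, σ z = z := fun σ hσ z hz =>
    (IntermediateField.mem_fixingSubgroup_iff F σ).mp hσ z hz
  have hfix3 : ∀ σ ∈ F.fixingSubgroup,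
      (σ : E →+* E) a = a ∧ (σ : E →+* E) b = b ∧ (σ : E →+* E) c = c :=
    fun σ hσ => ⟨hfix σ hσ a ha, hfix σ hσ b hb, hfix σ hσ c hc⟩
  have hφ3 := hfix3 φ hφF
  have hτ3 := hfix3 τ hτF
  have hne : ∀ {s t : E}, v (s - t) = 1 → s ≠ t := by
    rintro s t h rfl
    rw [sub_self, map_zero] at h
    exact zero_ne_one h
  have hab := hne G.vab
  have hbc := hne G.vbc
  have hca := hne G.vca
  have htr := transc_of_not_mem fr.ι hXr
  have hinj := ev_injective fr.ι X Y hXY htr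
  obtain ⟨m, x, y, h, h', hcc, htor, hadd, hτx, hτy, hτφx, hτφy, hxa, -, hxc⟩ :=
    exists_torsion hl G hφ3 hτ3
  obtain ⟨g0, hg0⟩ := exists_ideal_gen (2 ^ (m + 1)) x y h htor
  have hn0 : 2 ^ (m + 1) ≠ 0 := by positivity
  obtain ⟨z0, hz0⟩ := RP _ x y g0 hn0 h hg0
  have hgen_ne : ∀ g : (leg a b c).CoordinateRing,
      CoordinateRing.XYIdeal (leg a b c) x (C y) ^ (2 ^ (m + 1)) = Ideal.span {g} → g ≠ 0 := by
    rintro g hg rfl
    refine gen_ne_zero hab hbc hca _ x y h hxa 0 hg (by simp) ?_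
    rw [map_zero]
  have hz00 : z0 ≠ 0 := by
    intro h0
    rw [h0, zero_pow hn0] at hz0
    exact hgen_ne g0 hg0 (hinj (by rw [← hz0, map_zero]))
  -- the field of definition of the torsion point
  let F' : IntermediateField k E := F ⊔ IntermediateField.adjoin k {x, y}
  have hFF' : F ≤ F' := le_sup_left
  have hxF' : x ∈ F' := (le_sup_right : _ ≤ F') (IntermediateField.subset_adjoin k _ (by simp))
  have hyF' : y ∈ F' := (le_sup_right : _ ≤ F') (IntermediateField.subset_adjoin k _ (by simp))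
  have hadjfin : FiniteDimensional k (IntermediateField.adjoin k {x, y}) :=
    IntermediateField.finiteDimensional_adjoin fun z _ =>
      (Algebra.IsAlgebraic.isAlgebraic z).isIntegral
  have hF'fin : FiniteDimensional k F' := IntermediateField.finiteDimensional_sup _ _
  have hF'sub : F'.fixingSubgroup ≤ F.fixingSubgroup := by
    intro σ hσ
    rw [IntermediateField.mem_fixingSubgroup_iff] at hσ ⊢
    exact fun z hz => hσ z (hFF' hz)
  have hev : ∀ (σ : E ≃ₐ[k] E) (hσ : σ ∈ F.fixingSubgroup) (g : (leg a b c).CoordinateRing),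
      fr.ρ σ (ev fr.ι a b c X Y hXY g) =
        ev fr.ι a b c X Y hXY (coef (σ : E →+* E) a b c (hfix3 σ hσ) g) := by
    intro σ hσ g
    exact ev_coef (σ : E →+* E) (hfix3 σ hσ) fr.ι X Y hXY (fr.ρ σ : M →+* M)
      (fun e => fr.semilin σ e) (hX σ hσ) (hY σ hσ) g
  -- the fixer of `F'` multiplies `z0` by constants
  have hmul : ∀ σ ∈ F'.fixingSubgroup, ∃ w : E, fr.ρ σ z0 = fr.ι w * z0 := by
    intro σ hσ
    have hσF := hF'sub hσ
    have hσx : σ x = x := (IntermediateField.mem_fixingSubgroup_iff F' σ).mp hσ x hxF'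
    have hσy : σ y = y := (IntermediateField.mem_fixingSubgroup_iff F' σ).mp hσ y hyF'
    have h1 := coef_gen (σ : E →+* E) (hfix3 σ hσF) hg0
    rw [show (σ : E →+* E) x = x from hσx, show (σ : E →+* E) y = y from hσy, hg0] at h1
    obtain ⟨u, hu0, hu⟩ := gen_unique h1
    have h2 : (fr.ρ σ z0) ^ 2 ^ (m + 1) = fr.ι u * z0 ^ 2 ^ (m + 1) := by
      rw [← map_pow, hz0, hev σ hσF, hu, map_mul, ev_cst]
    have h3 : (fr.ρ σ z0 / z0) ^ 2 ^ (m + 1) = fr.ι u := by
      rw [div_pow, h2, mul_div_assoc, div_self (pow_ne_zero _ hz00), mul_one]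
    obtain ⟨w, hw⟩ := root_mem_range fr.ι hn0 h3
    exact ⟨w, by rw [← hw, div_mul_cancel₀ _ hz00]⟩
  obtain ⟨Fz, hFz, hFzfix⟩ := fr.cont z0
  have hFz' : FiniteDimensional k (F' ⊔ Fz : IntermediateField k E) :=
    IntermediateField.finiteDimensional_sup _ _
  obtain ⟨β0, hβ0, hβ0fix⟩ := Pool.Agent.Helper36.descent (ρ := fr.ρ) fr.semilin F' (F' ⊔ Fz)
    le_sup_left hz00 (by
      intro σ hσ
      apply hFzfix
      rw [IntermediateField.mem_fixingSubgroup_iff] at hσ ⊢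
      exact fun z hz => hσ z ((le_sup_right : Fz ≤ F' ⊔ Fz) hz)) hmul
  -- normalise
  obtain ⟨z, g, hz, hg, hzfix⟩ : ∃ (z : M) (g : (leg a b c).CoordinateRing),
      z ^ 2 ^ (m + 1) = ev fr.ι a b c X Y hXY g ∧
      CoordinateRing.XYIdeal (leg a b c) x (C y) ^ (2 ^ (m + 1)) = Ideal.span {g} ∧
      ∀ σ ∈ F'.fixingSubgroup, fr.ρ σ z = z := by
    refine ⟨fr.ι β0 * z0, cst a b c (β0 ^ 2 ^ (m + 1)) * g0, ?_, ?_, hβ0fix⟩
    · rw [mul_pow, hz0, map_mul, ev_cst, map_pow]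
    · rw [hg0]
      have hunit : IsUnit (cst a b c (β0 ^ 2 ^ (m + 1))) :=
        (isUnit_iff_ne_zero.mpr (pow_ne_zero _ hβ0)).map _
      rw [Ideal.span_singleton_mul_left_unit hunit]
  have hgne := hgen_ne g hg
  have hzne : z ≠ 0 := by
    intro h0
    rw [h0, zero_pow hn0] at hz
    exact hgne (hinj (by rw [← hz, map_zero]))
  -- `τ` fixes `z` and `ρ φ z`
  have hτF' : τ ∈ F'.fixingSubgroup := by
    have h1 : F' ≤ IntermediateField.fixedField (Subgroup.zpowers τ) := by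
      apply sup_le
      · rw [IntermediateField.le_iff_le, Subgroup.zpowers_le]
        exact hτF
      · rw [IntermediateField.adjoin_le_iff]
        rintro w (rfl | rfl)
        · rintro ⟨σ, hσ⟩
          obtain ⟨i, rfl⟩ := Subgroup.mem_zpowers_iff.mp hσ
          have : τ ∈ MulAction.stabilizer (E ≃ₐ[k] E) w := hτx
          exact Subgroup.zpow_mem _ this i
        · rintro ⟨σ, hσ⟩
          obtain ⟨i, rfl⟩ := Subgroup.mem_zpowers_iff.mp hσ
          have : τ ∈ MulAction.stabilizer (E ≃ₐ[k] E) w := hτy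
          exact Subgroup.zpow_mem _ this i
    rw [IntermediateField.le_iff_le, Subgroup.zpowers_le] at h1
    exact h1
  have hτz : fr.ρ τ z = z := hzfix τ hτF'
  have hconj : φ⁻¹ * τ * φ ∈ F'.fixingSubgroup := by
    have h1 : F' ≤ IntermediateField.fixedField (Subgroup.zpowers (φ⁻¹ * τ * φ)) := by
      have hφw : ∀ w : E, τ (φ w) = φ w → (φ⁻¹ * τ * φ) w = w := by
        intro w hw
        show φ⁻¹ (τ (φ w)) = w
        rw [hw]
        exact φ.symm_apply_apply w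
      apply sup_le
      · intro w hw
        rintro ⟨σ, hσ⟩
        obtain ⟨i, rfl⟩ := Subgroup.mem_zpowers_iff.mp hσ
        have : (φ⁻¹ * τ * φ) ∈ MulAction.stabilizer (E ≃ₐ[k] E) w :=
          hφw w (by rw [hfix φ hφF w hw, hfix τ hτF w hw])
        exact Subgroup.zpow_mem _ this i
      · rw [IntermediateField.adjoin_le_iff]
        rintro w (rfl | rfl)
        · rintro ⟨σ, hσ⟩
          obtain ⟨i, rfl⟩ := Subgroup.mem_zpowers_iff.mp hσ
          have : (φ⁻¹ * τ * φ) ∈ MulAction.stabilizer (E ≃ₐ[k] E) w := hφw w hτφx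
          exact Subgroup.zpow_mem _ this i
        · rintro ⟨σ, hσ⟩
          obtain ⟨i, rfl⟩ := Subgroup.mem_zpowers_iff.mp hσ
          have : (φ⁻¹ * τ * φ) ∈ MulAction.stabilizer (E ≃ₐ[k] E) w := hφw w hτφy
          exact Subgroup.zpow_mem _ this i
    rw [IntermediateField.le_iff_le, Subgroup.zpowers_le] at h1
    exact h1
  have hτφz : fr.ρ τ (fr.ρ φ z) = fr.ρ φ z := by
    have h1 := hzfix _ hconj
    rw [map_mul, map_mul, map_inv] at h1
    have h2 : (fr.ρ φ) ((fr.ρ φ)⁻¹ (fr.ρ τ (fr.ρ φ z))) = fr.ρ φ z := congrArg (fr.ρ φ) h1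
    have h3 : (fr.ρ φ) ((fr.ρ φ)⁻¹ (fr.ρ τ (fr.ρ φ z))) = fr.ρ τ (fr.ρ φ z) :=
      (fr.ρ φ).apply_symm_apply _
    exact h3.symm.trans h2
  -- evaluation at the point `(a, 0)`
  have hT : (0 : E) ^ 2 = (a - RingHom.id E a) * (a - RingHom.id E b) * (a - RingHom.id E c) := by
    simp
  set evT := ev (RingHom.id E) a b c a 0 hT with hevT
  have hevTσ : ∀ (σ : E ≃ₐ[k] E) (hσ : σ ∈ F.fixingSubgroup) (g : (leg a b c).CoordinateRing),
      σ (evT g) = evT (coef (σ : E →+* E) a b c (hfix3 σ hσ) g) := by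
    intro σ hσ g
    exact ev_coef (σ : E →+* E) (hfix3 σ hσ) (RingHom.id E) a 0 hT (σ : E →+* E)
      (fun e => rfl) (hfix σ hσ a ha) (map_zero _) g
  have hcoefτ : coef (τ : E →+* E) a b c (hfix3 τ hτF) g = g := by
    apply hinj
    rw [← hev τ hτF, ← hz, map_pow, hτz]
  have hcoefτφ : coef (τ : E →+* E) a b c (hfix3 τ hτF)
      (coef (φ : E →+* E) a b c (hfix3 φ hφF) g) = coef (φ : E →+* E) a b c (hfix3 φ hφF) g := by
    apply hinj
    rw [← hev τ hτF, ← hev φ hφF, ← hz, map_pow, map_pow, hτφz]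
  have hτev : τ (evT g) = evT g := by rw [hevTσ τ hτF, hcoefτ]
  have hτφev : τ (φ (evT g)) = φ (evT g) := by rw [hevTσ φ hφF, hevTσ τ hτF, hcoefτφ]
  have hevT0 : evT g ≠ 0 := gen_ne_zero hab hbc hca _ x y h hxa g hg hT
  obtain ⟨β, hβ⟩ := IsAlgClosed.exists_pow_nat_eq (evT g) (n := 2 ^ (m + 1)) (by positivity)
  have hβ0 : β ≠ 0 := by
    rintro rfl
    rw [zero_pow hn0] at hβ
    exact hevT0 hβ.symm
  have hU2 : τ (φ β / β) = φ β / β := by
    refine hl.fix_quot (m + 1) hβ0 ?_ ?_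
    · show τ (β ^ 2 ^ (m + 1)) = β ^ 2 ^ (m + 1)
      rw [hβ, hτev]
    · show τ (φ (β ^ 2 ^ (m + 1))) = φ (β ^ 2 ^ (m + 1))
      rw [hβ, hτφev]
  obtain ⟨s, hs⟩ := IsAlgClosed.exists_pow_nat_eq (a - c) (n := 2) (by norm_num)
  have hs1 : v s = 1 := by
    have h1 : v s ^ 2 = 1 := by
      rw [← map_pow, hs, ← neg_sub, Valuation.map_neg, G.vca]
    exact (pow_eq_one_iff_of_nonneg zero_le (by norm_num)).mp h1
  have hτs : τ s = s := by
    refine hl.fix_root 1 hs1 ?_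
    show τ (s ^ 2 ^ 1) = s ^ 2 ^ 1
    rw [pow_one, hs, map_sub, hfix τ hτF a ha, hfix τ hτF c hc]
  have hs0 : s ≠ 0 := by
    rintro rfl
    rw [map_zero] at hs1
    exact zero_ne_one hs1
  have hsn : (a - c) ^ 2 ^ m = s ^ 2 ^ (m + 1) := by rw [← hs, ← pow_mul, ← pow_succ']
  obtain ⟨u, hu0, hrel⟩ := relation hab hbc hca (φ : E →+* E) (hfix3 φ hφF) m x y h h' hcc hxc
    hadd g hg
  set lam := y / (x - c) with hlam
  have hτlam : τ lam = lam := by
    rw [hlam, map_div₀, map_sub, show τ x = x from hτx, show τ y = y from hτy, hfix τ hτF c hc]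
  have hac : a - c ≠ 0 := by
    intro h0
    exact hca (sub_eq_zero.mp h0).symm
  have hφxa : a - φ x ≠ 0 := by
    intro h0
    have h1 : φ x = φ a := by
      rw [hfix φ hφF a ha]
      exact (sub_eq_zero.mp h0).symm
    exact hxa (φ.injective h1)
  -- the relation evaluated at `(a, 0)`
  have hrelT : (a - φ x) ^ 2 ^ (m + 1) * evT g * (a - c) ^ 2 ^ m =
      u * (0 - lam * (a - c)) ^ 2 ^ (m + 1) * φ (evT g) := by
    have h1 := congrArg evT hrel
    rw [map_mul, map_mul, map_mul, map_mul, map_pow, map_pow, map_pow, map_sub, map_sub, map_sub,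
      map_mul, map_sub, ← hevTσ φ hφF] at h1
    simpa [hevT] using h1
  have hφβ0 : φ β ≠ 0 := by
    intro h0
    exact hβ0 ((map_eq_zero φ).mp h0)
  have hlam0 : lam ≠ 0 := by
    intro h0
    rw [h0, zero_mul, sub_zero, zero_pow hn0, mul_zero, zero_mul] at hrelT
    exact (mul_ne_zero (mul_ne_zero (pow_ne_zero _ hφxa) hevT0) (pow_ne_zero _ hac)) hrelT
  set B1 := 0 - lam * (a - c) with hB1
  have hB10 : B1 ≠ 0 := by
    rw [hB1, zero_sub]
    exact neg_ne_zero.mpr (mul_ne_zero hlam0 hac)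
  set μ0 := (a - φ x) * s / (B1 * (φ β / β)) with hμ0
  have hμ00 : μ0 ≠ 0 :=
    div_ne_zero (mul_ne_zero hφxa hs0) (mul_ne_zero hB10 (div_ne_zero hφβ0 hβ0))
  have hμ0n : μ0 ^ 2 ^ (m + 1) = u := by
    have h1 : u = ((a - φ x) ^ 2 ^ (m + 1) * evT g * (a - c) ^ 2 ^ m) /
        (B1 ^ 2 ^ (m + 1) * φ (evT g)) := by
      rw [hrelT]
      have h2 : φ (evT g) ≠ 0 := by
        intro h0
        exact hevT0 ((map_eq_zero φ).mp h0)
      field_simp
    rw [h1, hsn, ← hβ, map_pow, hμ0, div_pow, mul_pow, mul_pow, div_pow]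
    field_simp
  have hτμ0 : τ μ0 = μ0 := by
    rw [hμ0, map_div₀, map_mul, map_mul, hU2, map_sub, hτs, hfix τ hτF a ha,
      show τ (φ x) = φ x from hτφx, hB1, map_sub, map_mul, map_sub, map_zero, hτlam,
      hfix τ hτF a ha, hfix τ hτF c hc]
  -- the relation in `M`
  have hrelM : ((X - fr.ι (φ x)) * z * r) ^ 2 ^ (m + 1) =
      (fr.ι μ0 * (Y - fr.ι lam * (X - fr.ι c)) * fr.ρ φ z) ^ 2 ^ (m + 1) := by
    have h1 := congrArg (ev fr.ι a b c X Y hXY) hrel
    rw [map_mul, map_mul, map_mul, map_mul, map_pow, map_pow, map_pow, ← hev φ hφF, ← hz] at h1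
    simp only [map_sub, map_mul, ev_gx, ev_gy, ev_cst] at h1
    have h2 : (X - fr.ι c) ^ 2 ^ m = r ^ 2 ^ (m + 1) := by rw [← hr, ← pow_mul, ← pow_succ']
    rw [h2, ← hμ0n, map_pow, map_pow] at h1
    rw [mul_pow, mul_pow, mul_pow, mul_pow]
    exact h1
  have hXφx : X - fr.ι (φ x) ≠ 0 := by
    intro h0
    exact hXr ⟨φ x, (sub_eq_zero.mp h0).symm⟩
  have hr0 : r ≠ 0 := by
    rintro rfl
    rw [zero_pow (by norm_num)] at hr
    exact hXr ⟨c, (sub_eq_zero.mp hr.symm).symm⟩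
  set LHS := (X - fr.ι (φ x)) * z * r with hLHS
  set RHS := fr.ι μ0 * (Y - fr.ι lam * (X - fr.ι c)) * fr.ρ φ z with hRHS
  have hLHS0 : LHS ≠ 0 := mul_ne_zero (mul_ne_zero hXφx hzne) hr0
  have hRHS0 : RHS ≠ 0 := by
    intro h0
    rw [h0, zero_pow hn0] at hrelM
    exact hLHS0 (pow_eq_zero_iff hn0 |>.mp hrelM)
  have hQ : (LHS / RHS) ^ 2 ^ (m + 1) = fr.ι 1 := by
    rw [div_pow, hrelM, div_self (pow_ne_zero _ hRHS0), map_one]
  obtain ⟨ζ, hζ⟩ := root_mem_range fr.ι hn0 hQ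
  have hζn : ζ ^ 2 ^ (m + 1) = 1 := by
    apply fr.ι.injective
    rw [map_pow, ← hζ, hQ]
  have hζ1 : v ζ = 1 := by
    have h1 : v ζ ^ 2 ^ (m + 1) = 1 := by rw [← map_pow, hζn, map_one]
    exact (pow_eq_one_iff_of_nonneg zero_le hn0).mp h1
  have hτζ : τ ζ = ζ := by
    refine hl.fix_root (m + 1) hζ1 ?_
    show τ (ζ ^ 2 ^ (m + 1)) = ζ ^ 2 ^ (m + 1)
    rw [hζn, map_one]
  have heq : LHS = fr.ι ζ * RHS := by rw [← hζ, div_mul_cancel₀ _ hRHS0]
  have hτRHS : fr.ρ τ RHS = RHS := by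
    rw [hRHS, map_mul, map_mul, map_sub, map_mul, map_sub, fr.semilin, fr.semilin, fr.semilin,
      hτφz, hτμ0, hτlam, hX τ hτF, hY τ hτF, hfix τ hτF c hc]
  have hτLHS : fr.ρ τ LHS = LHS := by
    rw [heq, map_mul, fr.semilin, hτζ, hτRHS]
  rw [hLHS, map_mul, map_mul, map_sub, fr.semilin, hτz, hX τ hτF,
    show τ (φ x) = φ x from hτφx] at hτLHS
  exact mul_left_cancel₀ (mul_ne_zero hXφx hzne) hτLHS

end main

end Pool.Agent.Helper19.Sec
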