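import Mathlib
import Pool.Agent.Helper36.SecThm
import Pool.Agent.Helper19.Sec.Main
import Pool.Agent.Helper19.Sec.Comb

/-!
Four roots: if the inertia element fixes the square roots of `(x - θ₁)(x - θ₂)` and of
`(x - θ₃)(x - θ₄)`, then it fixes the square root of `(x - θ₁)(x - θ₃)`.
-/

set_option autoImplicit false

namespace Pool.Agent.Helper19.Sec

open Polynomial Pool.Agent.Helper36

section orbit

variable {k E : Type*} [Field k] [Field E] [Algebra k E] [Algebra.IsAlgebraic k E]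

lemma exists_pow_fix_one (φ : E ≃ₐ[k] E) (z : E) : ∃ j, 0 < j ∧ (φ ^ j) z = z := by
  classical
  have hint : IsIntegral k z := (Algebra.IsAlgebraic.isAlgebraic z).isIntegral
  let R : Finset E := ((minpoly k z).map (algebraMap k E)).roots.toFinset
  have hR : ∀ i : ℕ, (φ ^ i) z ∈ R := by
    intro i
    rw [Multiset.mem_toFinset, mem_roots (map_ne_zero (minpoly.ne_zero hint)), IsRoot.def,
      eval_map_algebraMap, aeval_algHom_apply, minpoly.aeval, map_zero]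
  obtain ⟨i, j, hij, h⟩ := Finite.exists_ne_map_eq_of_infinite
    (fun i : ℕ => (⟨(φ ^ i) z, hR i⟩ : R))
  have h' : (φ ^ i) z = (φ ^ j) z := congrArg Subtype.val h
  clear h
  wlog hlt : i < j generalizing i j
  · exact this j i hij.symm h'.symm (by omega)
  refine ⟨j - i, by omega, ?_⟩
  have h1 : φ ^ j = φ ^ i * φ ^ (j - i) := by rw [← pow_add]; congr 1; omega
  rw [h1] at h'
  exact ((φ ^ i).injective h').symm

lemma exists_pow_fix (φ : E ≃ₐ[k] E) (S : Finset E) : ∃ j, 0 < j ∧ ∀ z ∈ S, (φ ^ j) z = z := by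
  classical
  induction S using Finset.induction_on with
  | empty => exact ⟨1, one_pos, by simp⟩
  | insert z S hz ih =>
    obtain ⟨j, hj, hjS⟩ := ih
    obtain ⟨i, hi, hiz⟩ := exists_pow_fix_one φ z
    refine ⟨i * j, by positivity, ?_⟩
    intro w hw
    rw [Finset.mem_insert] at hw
    rcases hw with rfl | hw
    · have : φ ^ i ∈ MulAction.stabilizer (E ≃ₐ[k] E) w := hiz
      rw [pow_mul]
      exact Subgroup.pow_mem _ this j
    · have : φ ^ j ∈ MulAction.stabilizer (E ≃ₐ[k] E) w := hjS w hw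
      rw [mul_comm, pow_mul]
      exact Subgroup.pow_mem _ this i

omit [Algebra.IsAlgebraic k E] in
/-- elements of the fixer of `k(S)` -/
lemma mem_fixing_adjoin (σ : E ≃ₐ[k] E) (S : Set E) :
    σ ∈ (IntermediateField.adjoin k S).fixingSubgroup ↔ ∀ z ∈ S, σ z = z := by
  constructor
  · intro h z hz
    exact (IntermediateField.mem_fixingSubgroup_iff _ σ).mp h z
      (IntermediateField.subset_adjoin k S hz)
  · intro h
    have h1 : IntermediateField.adjoin k S ≤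
        IntermediateField.fixedField (Subgroup.zpowers σ) := by
      rw [IntermediateField.adjoin_le_iff]
      rintro w hw ⟨σ', hσ'⟩
      obtain ⟨i, rfl⟩ := Subgroup.mem_zpowers_iff.mp hσ'
      have : σ ∈ MulAction.stabilizer (E ≃ₐ[k] E) w := h w hw
      exact Subgroup.zpow_mem _ this i
    rw [IntermediateField.le_iff_le, Subgroup.zpowers_le] at h1
    exact h1

end orbit

section pairs

variable {k E M : Type*} [Field k] [Field E] [Field M] [Algebra k E] [IsGalois k E]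
  [IsAlgClosed E]

omit [IsAlgClosed E] in
/-- descent for square roots of `(x - θ)(x - θ')` -/
lemma descend_root (fr : Frame k E M) (x : M) (hx : x ∉ Set.range fr.ι)
    (hxfix : ∀ σ, fr.ρ σ x = x) (θ θ' : E) (r : M)
    (hr : r ^ 2 = (x - fr.ι θ) * (x - fr.ι θ')) :
    ∃ b : E, b ≠ 0 ∧ ∀ σ : E ≃ₐ[k] E, σ θ = θ → σ θ' = θ' → fr.ρ σ (fr.ι b * r) = fr.ι b * r := by
  have hne : ∀ e : E, x - fr.ι e ≠ 0 := fun e h0 => hx ⟨e, (sub_eq_zero.mp h0).symm⟩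
  have hr0 : r ≠ 0 := by
    rintro rfl
    rw [zero_pow (by norm_num)] at hr
    exact mul_ne_zero (hne θ) (hne θ') hr.symm
  obtain ⟨F, hF, hFfix⟩ := fr.cont r
  have hfin : FiniteDimensional k (IntermediateField.adjoin k {θ, θ'}) :=
    IntermediateField.finiteDimensional_adjoin fun z _ =>
      (Algebra.IsAlgebraic.isAlgebraic z).isIntegral
  have hfin2 : FiniteDimensional k
      (IntermediateField.adjoin k {θ, θ'} ⊔ F : IntermediateField k E) :=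
    IntermediateField.finiteDimensional_sup _ _
  obtain ⟨b, hb0, hb⟩ := Pool.Agent.Helper36.descent (ρ := fr.ρ) fr.semilin
    (IntermediateField.adjoin k {θ, θ'}) (IntermediateField.adjoin k {θ, θ'} ⊔ F)
    le_sup_left hr0 (by
      intro σ hσ
      apply hFfix
      rw [IntermediateField.mem_fixingSubgroup_iff] at hσ ⊢
      exact fun z hz => hσ z ((le_sup_right : F ≤ _ ⊔ F) hz)) (by
      intro σ hσ
      rw [mem_fixing_adjoin] at hσ
      have h1 : (fr.ρ σ r) ^ 2 = r ^ 2 := by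
        rw [← map_pow, hr, map_mul, map_sub, map_sub, fr.semilin, fr.semilin, hxfix,
          hσ θ (by simp), hσ θ' (by simp)]
      rcases sq_eq_sq_iff_eq_or_eq_neg.mp h1 with h2 | h2
      · exact ⟨1, by rw [map_one, one_mul, h2]⟩
      · exact ⟨-1, by rw [map_neg, map_one, h2]; ring⟩)
  refine ⟨b, hb0, fun σ h1 h2 => hb σ ?_⟩
  rw [mem_fixing_adjoin]
  rintro z (rfl | rfl)
  exacts [h1, h2]

variable [CharZero E] {Γ₀ : Type*} [LinearOrderedCommGroupWithZero Γ₀]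

omit [IsAlgClosed E] [CharZero E] in
/-- the relation `the inertia element fixes the square root of `(x - θ)(x - θ')`` is invariant
under the Frobenius lift -/
lemma phi_inv (fr : Frame k E M) (x : M) (hx : x ∉ Set.range fr.ι)
    (hxfix : ∀ σ, fr.ρ σ x = x) {v : Valuation E Γ₀} {φ τ : E ≃ₐ[k] E} {q : ℕ}
    (hl : IsLoc v (φ : E →+* E) (τ : E →+* E) q) (θ θ' : E) (r : M)
    (hr : r ^ 2 = (x - fr.ι θ) * (x - fr.ι θ')) (h1 : τ θ = θ) (h2 : τ θ' = θ')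
    (h3 : τ (φ θ) = φ θ) (h4 : τ (φ θ') = φ θ') (hτr : fr.ρ τ r = r) :
    fr.ρ τ (fr.ρ φ r) = fr.ρ φ r := by
  obtain ⟨b, hb0, hb⟩ := descend_root fr x hx hxfix θ θ' r hr
  have hne : ∀ e : E, x - fr.ι e ≠ 0 := fun e h0 => hx ⟨e, (sub_eq_zero.mp h0).symm⟩
  have hr0 : r ≠ 0 := by
    rintro rfl
    rw [zero_pow (by norm_num)] at hr
    exact mul_ne_zero (hne θ) (hne θ') hr.symm
  have hb2 : ∀ σ : E ≃ₐ[k] E, σ θ = θ → σ θ' = θ' → σ (b ^ 2) = b ^ 2 := by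
    intro σ hσ hσ'
    have h5 := hb σ hσ hσ'
    have h6 : fr.ρ σ (r ^ 2) = r ^ 2 := by
      rw [hr, map_mul, map_sub, map_sub, fr.semilin, fr.semilin, hxfix, hσ, hσ']
    have h7 : fr.ρ σ ((fr.ι b * r) ^ 2) = (fr.ι b * r) ^ 2 := by rw [map_pow, h5]
    rw [mul_pow, map_mul, h6, ← map_pow, fr.semilin] at h7
    exact fr.ι.injective (mul_right_cancel₀ (pow_ne_zero 2 hr0) h7)
  have hconj : ∀ w : E, τ (φ w) = φ w → (φ⁻¹ * τ * φ) w = w := by
    intro w hw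
    show φ⁻¹ (τ (φ w)) = w
    rw [hw]
    exact φ.symm_apply_apply w
  have hτb : τ b = b := by
    have h5 := hb τ h1 h2
    rw [map_mul, hτr, fr.semilin] at h5
    exact fr.ι.injective (mul_right_cancel₀ hr0 h5)
  have hτφb2 : τ (φ (b ^ 2)) = φ (b ^ 2) := by
    have h5 := hb2 (φ⁻¹ * τ * φ) (hconj θ h3) (hconj θ' h4)
    have h6 : φ ((φ⁻¹ * τ * φ) (b ^ 2)) = τ (φ (b ^ 2)) := by
      show φ (φ⁻¹ (τ (φ (b ^ 2)))) = _
      exact φ.apply_symm_apply _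
    rw [← h6, h5]
  have hU2 : τ (φ b / b) = φ b / b := by
    refine hl.fix_quot 1 hb0 ?_ ?_
    · show τ (b ^ 2 ^ 1) = b ^ 2 ^ 1
      rw [pow_one]
      exact hb2 τ h1 h2
    · show τ (φ (b ^ 2 ^ 1)) = φ (b ^ 2 ^ 1)
      rw [pow_one]
      exact hτφb2
  have hτφb : τ (φ b) = φ b := by
    rw [map_div₀, hτb] at hU2
    exact (div_left_inj' hb0).mp hU2
  have h5 := hb (φ⁻¹ * τ * φ) (hconj θ h3) (hconj θ' h4)
  have h6 : fr.ρ φ (fr.ρ (φ⁻¹ * τ * φ) (fr.ι b * r)) = fr.ρ τ (fr.ρ φ (fr.ι b * r)) := by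
    have h7 : fr.ρ (φ⁻¹ * τ * φ) = (fr.ρ φ)⁻¹ * fr.ρ τ * fr.ρ φ := by
      rw [map_mul, map_mul, map_inv]
    rw [h7]
    exact (fr.ρ φ).apply_symm_apply _
  rw [h5, map_mul, map_mul, fr.semilin, fr.semilin, hτφb] at h6
  have hφb0 : fr.ι (φ b) ≠ 0 := by
    rw [_root_.map_ne_zero, _root_.map_ne_zero]
    exact hb0
  exact (mul_left_cancel₀ hφb0 h6).symm

/-- the main lemma for four roots -/
lemma four_roots_frame (fr : Frame k E M) (x : M) (hx : x ∉ Set.range fr.ι)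
    (hxfix : ∀ σ, fr.ρ σ x = x) {v : Valuation E Γ₀} {φ τ : E ≃ₐ[k] E} {q : ℕ}
    (hl : IsLoc v (φ : E →+* E) (τ : E →+* E) q) (θ₁ θ₂ θ₃ θ₄ : E) (hv1 : v θ₁ ≤ 1)
    (hv12 : v (θ₁ - θ₂) = 1) (hv13 : v (θ₁ - θ₃) = 1) (hv14 : v (θ₁ - θ₄) = 1)
    (hv23 : v (θ₂ - θ₃) = 1) (hv24 : v (θ₂ - θ₄) = 1) (hv34 : v (θ₃ - θ₄) = 1)
    (ht1 : τ θ₁ = θ₁) (ht2 : τ θ₂ = θ₂) (ht3 : τ θ₃ = θ₃) (ht4 : τ θ₄ = θ₄)
    (r12 r34 r13 : M) (h12 : r12 ^ 2 = (x - fr.ι θ₁) * (x - fr.ι θ₂))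
    (h34 : r34 ^ 2 = (x - fr.ι θ₃) * (x - fr.ι θ₄))
    (h13 : r13 ^ 2 = (x - fr.ι θ₁) * (x - fr.ι θ₃)) (hτ12 : fr.ρ τ r12 = r12)
    (hτ34 : fr.ρ τ r34 = r34)
    (RP : ∀ (a b c : E) (X Y : M) (hab : a ≠ b) (hbc : b ≠ c) (hca : c ≠ a)
      (h : Y ^ 2 = (X - fr.ι a) * (X - fr.ι b) * (X - fr.ι c)),
      (∃ κ : E, X = fr.ι κ / (x - fr.ι θ₁) ∧ Y = fr.ι κ * (r12 * r34) / (x - fr.ι θ₁) ^ 2) →
      RootProp fr.ι a b c X Y h) :
    fr.ρ τ r13 = r13 := by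
  classical
  have hxne : ∀ e : E, x - fr.ι e ≠ 0 := fun e h0 => hx ⟨e, (sub_eq_zero.mp h0).symm⟩
  have hvne : ∀ {s t : E}, v (s - t) = 1 → s - t ≠ 0 := by
    intro s t h h0
    rw [h0, map_zero] at h
    exact zero_ne_one h
  have n12 := hvne hv12
  have n13 := hvne hv13
  have n14 := hvne hv14
  have n23 := hvne hv23
  have n24 := hvne hv24
  have n34 := hvne hv34
  obtain ⟨b12, hb12, hfix12⟩ := descend_root fr x hx hxfix θ₁ θ₂ r12 h12
  obtain ⟨b34, hb34, hfix34⟩ := descend_root fr x hx hxfix θ₃ θ₄ r34 h34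
  have hr12 : r12 ≠ 0 := by
    rintro rfl
    rw [zero_pow (by norm_num)] at h12
    exact mul_ne_zero (hxne _) (hxne _) h12.symm
  have hr34 : r34 ≠ 0 := by
    rintro rfl
    rw [zero_pow (by norm_num)] at h34
    exact mul_ne_zero (hxne _) (hxne _) h34.symm
  have hτb12 : τ b12 = b12 := by
    have h5 := hfix12 τ ht1 ht2
    rw [map_mul, hτ12, fr.semilin] at h5
    exact fr.ι.injective (mul_right_cancel₀ hr12 h5)
  have hτb34 : τ b34 = b34 := by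
    have h5 := hfix34 τ ht3 ht4
    rw [map_mul, hτ34, fr.semilin] at h5
    exact fr.ι.injective (mul_right_cancel₀ hr34 h5)
  let S : Finset E := {θ₁, θ₂, θ₃, θ₄, b12, b34}
  obtain ⟨j, hj, hjS⟩ := exists_pow_fix φ S
  let F : IntermediateField k E := IntermediateField.adjoin k (S : Set E)
  have hFfin : FiniteDimensional k F :=
    IntermediateField.finiteDimensional_adjoin fun z _ =>
      (Algebra.IsAlgebraic.isAlgebraic z).isIntegral
  have hφF : φ ^ j ∈ F.fixingSubgroup := by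
    rw [mem_fixing_adjoin]
    intro z hz
    exact hjS z (Finset.mem_coe.mp hz)
  have hτF : τ ∈ F.fixingSubgroup := by
    rw [mem_fixing_adjoin]
    intro z hz
    rw [Finset.mem_coe] at hz
    simp only [S, Finset.mem_insert, Finset.mem_singleton] at hz
    rcases hz with rfl | rfl | rfl | rfl | rfl | rfl <;> assumption
  have hmem : ∀ z ∈ S, z ∈ F := fun z hz => IntermediateField.subset_adjoin k _ hz
  have m1 : θ₁ ∈ F := hmem _ (by simp [S])
  have m2 : θ₂ ∈ F := hmem _ (by simp [S])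
  have m3 : θ₃ ∈ F := hmem _ (by simp [S])
  have m4 : θ₄ ∈ F := hmem _ (by simp [S])
  have m5 : b12 ∈ F := hmem _ (by simp [S])
  have m6 : b34 ∈ F := hmem _ (by simp [S])
  have hFfix : ∀ σ ∈ F.fixingSubgroup, ∀ z ∈ F, σ z = z := fun σ hσ z hz =>
    (IntermediateField.mem_fixingSubgroup_iff F σ).mp hσ z hz
  have hF12 : ∀ σ ∈ F.fixingSubgroup, fr.ρ σ r12 = r12 := by
    intro σ hσ
    have h5 := hfix12 σ (hFfix σ hσ _ m1) (hFfix σ hσ _ m2)
    rw [map_mul, fr.semilin, hFfix σ hσ _ m5] at h5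
    exact mul_left_cancel₀ (by rwa [_root_.map_ne_zero]) h5
  have hF34 : ∀ σ ∈ F.fixingSubgroup, fr.ρ σ r34 = r34 := by
    intro σ hσ
    have h5 := hfix34 σ (hFfix σ hσ _ m3) (hFfix σ hσ _ m4)
    rw [map_mul, fr.semilin, hFfix σ hσ _ m6] at h5
    exact mul_left_cancel₀ (by rwa [_root_.map_ne_zero]) h5
  have hl' : IsLoc v ((φ ^ j : E ≃ₐ[k] E) : E →+* E) (τ : E →+* E) (q ^ j) := by
    have h5 := hl.pow j hj
    have h6 : ∀ i : ℕ, ((φ ^ i : E ≃ₐ[k] E) : E →+* E) = (φ : E →+* E) ^ i := by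
      intro i
      induction i with
      | zero => rfl
      | succ i ih =>
        rw [pow_succ, pow_succ, ← ih]
        rfl
    rw [h6]
    exact h5
  obtain ⟨κ, hκ⟩ : ∃ κ : E, κ = (θ₁ - θ₂) * (θ₁ - θ₃) * (θ₁ - θ₄) := ⟨_, rfl⟩
  have hκv : v κ = 1 := by rw [hκ, map_mul, map_mul, hv12, hv13, hv14, mul_one, mul_one]
  have hκ0 : κ ≠ 0 := by rw [hκ]; exact mul_ne_zero (mul_ne_zero n12 n13) n14
  have n21 : θ₂ - θ₁ ≠ 0 := by rw [← neg_sub]; exact neg_ne_zero.mpr n12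
  have n31 : θ₃ - θ₁ ≠ 0 := by rw [← neg_sub]; exact neg_ne_zero.mpr n13
  have n41 : θ₄ - θ₁ ≠ 0 := by rw [← neg_sub]; exact neg_ne_zero.mpr n14
  have hv21 : v (θ₂ - θ₁) = 1 := by rw [Valuation.map_sub_swap]; exact hv12
  have hv31 : v (θ₃ - θ₁) = 1 := by rw [Valuation.map_sub_swap]; exact hv13
  have hv41 : v (θ₄ - θ₁) = 1 := by rw [Valuation.map_sub_swap]; exact hv14
  set a : E := κ / (θ₂ - θ₁) with ha
  set b : E := κ / (θ₄ - θ₁) with hb
  set c : E := κ / (θ₃ - θ₁) with hc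
  have hva : v a = 1 := by rw [ha, map_div₀, hκv, hv21, div_one]
  have hvb : v b = 1 := by rw [hb, map_div₀, hκv, hv41, div_one]
  have hvc : v c = 1 := by rw [hc, map_div₀, hκv, hv31, div_one]
  have hvab : v (a - b) = 1 := by
    have : a - b = κ * (θ₄ - θ₂) / ((θ₂ - θ₁) * (θ₄ - θ₁)) := by
      rw [ha, hb]
      field_simp
      ring
    rw [this, map_div₀, map_mul, map_mul, hκv, hv21, hv41, Valuation.map_sub_swap, hv24]
    simp
  have hvbc : v (b - c) = 1 := by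
    have : b - c = κ * (θ₃ - θ₄) / ((θ₄ - θ₁) * (θ₃ - θ₁)) := by
      rw [hb, hc]
      field_simp
      ring
    rw [this, map_div₀, map_mul, map_mul, hκv, hv31, hv41, hv34]
    simp
  have hvca : v (c - a) = 1 := by
    have : c - a = κ * (θ₂ - θ₃) / ((θ₃ - θ₁) * (θ₂ - θ₁)) := by
      rw [hc, ha]
      field_simp
      ring
    rw [this, map_div₀, map_mul, map_mul, hκv, hv31, hv21, hv23]
    simp
  have G : GoodV v a b c := ⟨hva.le, hvb.le, hvc.le, hvab, hvbc, hvca⟩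
  have hκF : κ ∈ F := by
    rw [hκ]
    exact F.mul_mem (F.mul_mem (F.sub_mem m1 m2) (F.sub_mem m1 m3)) (F.sub_mem m1 m4)
  have haF : a ∈ F := F.div_mem hκF (F.sub_mem m2 m1)
  have hbF : b ∈ F := F.div_mem hκF (F.sub_mem m4 m1)
  have hcF : c ∈ F := F.div_mem hκF (F.sub_mem m3 m1)
  set X : M := fr.ι κ / (x - fr.ι θ₁) with hX
  set Y : M := fr.ι κ * (r12 * r34) / (x - fr.ι θ₁) ^ 2 with hY
  have hx1 := hxne θ₁
  have hι : ∀ {e : E}, e ≠ 0 → fr.ι e ≠ 0 := fun h => by rwa [_root_.map_ne_zero]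
  have hfactor : ∀ θ : E, θ - θ₁ ≠ 0 → X - fr.ι (κ / (θ - θ₁)) =
      fr.ι κ * (fr.ι θ - x) / ((x - fr.ι θ₁) * (fr.ι θ - fr.ι θ₁)) := by
    intro θ hθ
    have h5 : fr.ι θ - fr.ι θ₁ ≠ 0 := by rw [← map_sub]; exact hι hθ
    rw [hX, map_div₀, map_sub]
    field_simp
    ring
  have h21' : fr.ι θ₂ - fr.ι θ₁ ≠ 0 := by rw [← map_sub]; exact hι n21
  have h31' : fr.ι θ₃ - fr.ι θ₁ ≠ 0 := by rw [← map_sub]; exact hι n31
  have h41' : fr.ι θ₄ - fr.ι θ₁ ≠ 0 := by rw [← map_sub]; exact hι n41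
  have hXY : Y ^ 2 = (X - fr.ι a) * (X - fr.ι b) * (X - fr.ι c) := by
    rw [ha, hb, hc, hfactor θ₂ n21, hfactor θ₄ n41, hfactor θ₃ n31, hY]
    have h5 : fr.ι κ = (fr.ι θ₁ - fr.ι θ₂) * (fr.ι θ₁ - fr.ι θ₃) * (fr.ι θ₁ - fr.ι θ₄) := by
      rw [hκ]
      simp only [map_mul, map_sub]
    have h6 : (fr.ι κ * (r12 * r34) / (x - fr.ι θ₁) ^ 2) ^ 2 =
        fr.ι κ ^ 2 * (((x - fr.ι θ₁) * (x - fr.ι θ₂)) * ((x - fr.ι θ₃) * (x - fr.ι θ₄))) /
          (x - fr.ι θ₁) ^ 4 := by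
      rw [← h12, ← h34]
      field_simp
    rw [h6]
    have h7 : fr.ι κ = - ((fr.ι θ₂ - fr.ι θ₁) * (fr.ι θ₃ - fr.ι θ₁) * (fr.ι θ₄ - fr.ι θ₁)) := by
      rw [h5]; ring
    field_simp
    rw [h7]
    ring
  have hXr : X ∉ Set.range fr.ι := by
    rintro ⟨e, he⟩
    have he0 : e ≠ 0 := by
      rintro rfl
      rw [map_zero, hX] at he
      exact div_ne_zero (hι hκ0) hx1 he.symm
    apply hx
    refine ⟨θ₁ + κ / e, ?_⟩
    rw [map_add, map_div₀, he, hX]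
    have := hι hκ0
    field_simp
    ring
  have hρX : ∀ σ ∈ F.fixingSubgroup, fr.ρ σ X = X := by
    intro σ hσ
    rw [hX, map_div₀, map_sub, fr.semilin, fr.semilin, hxfix, hFfix σ hσ _ m1, hFfix σ hσ _ hκF]
  have hρY : ∀ σ ∈ F.fixingSubgroup, fr.ρ σ Y = Y := by
    intro σ hσ
    rw [hY, map_div₀, map_mul, map_mul, map_pow, map_sub, fr.semilin, fr.semilin, hxfix,
      hFfix σ hσ _ m1, hFfix σ hσ _ hκF, hF12 σ hσ, hF34 σ hσ]
  have hab : a ≠ b := sub_ne_zero.mp (hvne hvab)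
  have hbc : b ≠ c := sub_ne_zero.mp (hvne hvbc)
  have hca : c ≠ a := sub_ne_zero.mp (hvne hvca)
  obtain ⟨s, hs⟩ := IsAlgClosed.exists_pow_nat_eq ((θ₁ - θ₂) * (θ₁ - θ₄)) (n := 2) (by norm_num)
  have hs1 : v s = 1 := by
    have h5 : v s ^ 2 = 1 := by rw [← map_pow, hs, map_mul, hv12, hv14, mul_one]
    exact (pow_eq_one_iff_of_nonneg zero_le (by norm_num)).mp h5
  have hτs : τ s = s := by
    refine hl.fix_root 1 hs1 ?_
    show τ (s ^ 2 ^ 1) = s ^ 2 ^ 1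
    rw [pow_one, hs, map_mul, map_sub, map_sub, ht1, ht2, ht4]
  have hs0 : s ≠ 0 := by
    rintro rfl
    rw [map_zero] at hs1
    exact zero_ne_one hs1
  have hr : (fr.ι s * r13 / (x - fr.ι θ₁)) ^ 2 = X - fr.ι c := by
    rw [div_pow, mul_pow, h13, ← map_pow, hs, hc, hfactor θ₃ n31]
    have h5 : fr.ι κ = - ((fr.ι θ₂ - fr.ι θ₁) * (fr.ι θ₃ - fr.ι θ₁) * (fr.ι θ₄ - fr.ι θ₁)) := by
      rw [hκ]
      simp only [map_mul, map_sub]
      ring
    rw [h5, map_mul, map_sub, map_sub]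
    field_simp
    ring
  have hfinal := main_lemma fr hl' G F hφF hτF haF hbF hcF X Y hρX hρY hXr hXY
    (RP a b c X Y hab hbc hca hXY ⟨κ, rfl, rfl⟩) _ hr
  rw [map_div₀, map_mul, map_sub, fr.semilin, fr.semilin, hxfix, hτs, ht1] at hfinal
  have h5 := (div_left_inj' hx1).mp hfinal
  exact mul_left_cancel₀ (hι hs0) h5

end pairs

end Pool.Agent.Helper19.Sec
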