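import Mathlib

/-!
Extension of valuations to extension fields.
-/

set_option autoImplicit false

namespace Pool.Agent.Helper19.Sec

/-- extension of a valuation to an algebraic (or any) extension field -/
theorem exists_ext {L Ω Γ₀ : Type*} [Field L] [Field Ω] [Algebra L Ω]
    [LinearOrderedCommGroupWithZero Γ₀] (v : Valuation L Γ₀) :
    ∃ A : ValuationSubring Ω, (A.valuation.comap (algebraMap L Ω)).IsEquiv v := by
  let S : LocalSubring L := v.valuationSubring.toLocalSubring
  obtain ⟨A, hA⟩ := (S.map (algebraMap L Ω)).exists_le_valuationSubring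
  obtain ⟨hle, hloc⟩ := LocalSubring.le_def.1 hA
  have h1 : ∀ x : L, v x ≤ 1 → algebraMap L Ω x ∈ A := fun x hx =>
    hle (Subring.mem_map.2 ⟨x, hx, rfl⟩)
  refine ⟨A, Valuation.isEquiv_of_val_le_one fun {x} => ?_⟩
  rw [Valuation.comap_apply, ValuationSubring.valuation_le_one_iff]
  refine ⟨fun hx => ?_, h1 x⟩
  by_contra hlt
  push Not at hlt
  have hx0 : x ≠ 0 := by
    rintro rfl
    simp at hlt
  have hinv : v x⁻¹ ≤ 1 := by
    rw [map_inv₀]
    exact inv_le_one_of_one_le₀ hlt.le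
  have hmem : algebraMap L Ω x⁻¹ ∈ (S.map (algebraMap L Ω)).toSubring :=
    Subring.mem_map.2 ⟨x⁻¹, hinv, rfl⟩
  have hunit : IsUnit (Subring.inclusion hle ⟨algebraMap L Ω x⁻¹, hmem⟩) := by
    refine IsUnit.of_mul_eq_one ⟨algebraMap L Ω x, hx⟩ ?_
    apply Subtype.ext
    show algebraMap L Ω x⁻¹ * algebraMap L Ω x = 1
    rw [← map_mul, inv_mul_cancel₀ hx0, map_one]
  have hunit' := hloc.map_nonunit _ hunit
  obtain ⟨u, hu⟩ := hunit'.exists_right_inv
  obtain ⟨z, hz, hzu⟩ := Subring.mem_map.1 u.2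
  have h3 : algebraMap L Ω x⁻¹ * (u : Ω) = 1 := by
    have := congrArg Subtype.val hu
    exact this
  rw [← hzu, ← map_mul, ← map_one (algebraMap L Ω)] at h3
  have h4 : x⁻¹ * z = 1 := (algebraMap L Ω).injective h3
  have h5 : z = x := by
    field_simp at h4
    exact h4
  rw [h5] at hz
  exact absurd hz (not_le.2 hlt)

end Pool.Agent.Helper19.Sec
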