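import Mathlib
import Pool.Agent.Helper36.UnivCover

/-!
Finite unramified extensions: adjoining constants and Kummer elements over a finite unramified
extension (module UNR for helper19).
-/

set_option autoImplicit false

namespace Pool.Agent.Helper19.Sec

open Polynomial Pool.Agent.Helper36 IntermediateField

section UNR

variable {k K Ω : Type*} [Field k] [Field K] [Field Ω] [Algebra k K] [Algebra K Ω] [Algebra k Ω]
  [IsScalarTower k K Ω]

lemma unram_step [Algebra.IsAlgebraic K Ω] (L : IntermediateField K Ω)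
    (h1 : FiniteDimensional K L)
    (h2 : UnramifiedEverywhere k K L) (γ : Ω)
    (H : ∀ w : Valuation (L⟮γ⟯) (WithZero (Multiplicative ℤ)), IsPlace k w →
      ∀ z : L⟮γ⟯, ∃ y : L, w (algebraMap L (L⟮γ⟯) y) = w z) :
    ∃ L' : IntermediateField K Ω, L ≤ L' ∧ γ ∈ L' ∧ FiniteDimensional K L' ∧
      UnramifiedEverywhere k K L' := by
  let M : IntermediateField L Ω := L⟮γ⟯
  let L' : IntermediateField K Ω := M.restrictScalars K
  have hγalg : IsAlgebraic L γ := by
    have : IsAlgebraic K γ := Algebra.IsAlgebraic.isAlgebraic γ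
    exact this.tower_top L
  have hfin2 : FiniteDimensional L M := adjoin.finiteDimensional hγalg.isIntegral
  have hfin3 : FiniteDimensional K M := FiniteDimensional.trans K L M
  have hfin4 : FiniteDimensional K L' := hfin3
  refine ⟨L', ?_, mem_adjoin_simple_self L γ, hfin4, ?_⟩
  · intro x hx
    exact (algebraMap L M ⟨x, hx⟩).2
  intro v hv l
  let e : M →+* L' :=
    { toFun := fun x => ⟨(x : Ω), x.2⟩
      map_one' := rfl
      map_mul' := fun _ _ => rfl
      map_zero' := rfl
      map_add' := fun _ _ => rfl }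
  let w : Valuation M (WithZero (Multiplicative ℤ)) := v.comap e
  have hw : IsPlace k w := by
    refine ⟨?_, ?_⟩
    · intro c hc
      exact hv.1 c hc
    · obtain ⟨x, hx0, hx1⟩ := hv.2
      refine ⟨⟨(x : Ω), x.2⟩, ?_, hx1⟩
      intro h
      apply hx0
      apply Subtype.ext
      exact congrArg Subtype.val h
  have halg : Algebra.IsAlgebraic L M := inferInstance
  obtain ⟨y, hy⟩ := H w hw ⟨(l : Ω), l.2⟩
  obtain ⟨x, hx⟩ := h2 (w.comap (algebraMap L M)) (IsPlace.comap hw) y
  refine ⟨x, ?_⟩
  have h3 : (w.comap (algebraMap L M)) (algebraMap K L x) = v (algebraMap K L' x) := rfl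
  have h4 : w ⟨(l : Ω), l.2⟩ = v l := rfl
  rw [← h3, hx, ← h4, ← hy]
  rfl

variable [CharZero k] [Algebra.IsAlgebraic K Ω]

/-- adjoining a constant to a finite unramified extension -/
theorem unram_adjoin_const (L : IntermediateField K Ω) (h1 : FiniteDimensional K L)
    (h2 : UnramifiedEverywhere k K L) (θ : Ω) (hθ : IsAlgebraic k θ) :
    ∃ L' : IntermediateField K Ω, L ≤ L' ∧ θ ∈ L' ∧ FiniteDimensional K L' ∧
      UnramifiedEverywhere k K L' := by
  refine unram_step L h1 h2 θ ?_
  intro w hw z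
  have hθalg : IsAlgebraic L θ := by
    have : IsAlgebraic K θ := Algebra.IsAlgebraic.isAlgebraic θ
    exact this.tower_top L
  have halg : Algebra.IsAlgebraic L L⟮θ⟯ := isAlgebraic_adjoin_simple hθalg.isIntegral
  have h3 : IsAlgebraic k (AdjoinSimple.gen L θ) := by
    have : IsAlgebraic k (algebraMap L⟮θ⟯ Ω (AdjoinSimple.gen L θ)) := by
      rw [AdjoinSimple.algebraMap_gen]; exact hθ
    exact (isAlgebraic_algebraMap_iff (algebraMap L⟮θ⟯ Ω).injective).mp this
  exact val_const (K := L) hw h3 (z := z) (by rw [adjoin_gen_top]; exact mem_top)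

/-- adjoining an `n`-th root of an element whose divisor is divisible by `n` -/
theorem unram_adjoin_root (L : IntermediateField K Ω) (h1 : FiniteDimensional K L)
    (h2 : UnramifiedEverywhere k K L) (n : ℕ) (hn : n ≠ 0) (g : L) (hg : g ≠ 0)
    (hdiv : ∀ v : Valuation L (WithZero (Multiplicative ℤ)), IsPlace k v →
      ∃ h : L, v g = v h ^ n) (γ : Ω) (hγ : γ ^ n = (g : Ω)) :
    ∃ L' : IntermediateField K Ω, L ≤ L' ∧ γ ∈ L' ∧ FiniteDimensional K L' ∧
      UnramifiedEverywhere k K L' := by
  refine unram_step L h1 h2 γ ?_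
  intro w hw z
  have hγalg : IsAlgebraic L γ := by
    have : IsAlgebraic K γ := Algebra.IsAlgebraic.isAlgebraic γ
    exact this.tower_top L
  have halg : Algebra.IsAlgebraic L L⟮γ⟯ := isAlgebraic_adjoin_simple hγalg.isIntegral
  obtain ⟨h, hh⟩ := hdiv (w.comap (algebraMap L L⟮γ⟯)) (IsPlace.comap hw)
  refine val_kummer (k := k) hw hn hg (γ := AdjoinSimple.gen L γ) ?_ ⟨h, hh⟩ ?_
  · apply Subtype.ext
    exact hγ
  · rw [adjoin_gen_top]; exact mem_top

end UNR

end Pool.Agent.Helper19.Sec
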