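import Mathlib
import Pool.Agent.Helper19.Sec.Defs
import Pool.Agent.Helper19.Sec.Ring

/-!
Module VAL: the valuation of a generator of the `n`-th power of the ideal of a point.
-/

set_option autoImplicit false

namespace Pool.Agent.Helper19.Sec

open Polynomial WeierstrassCurve.Affine

section VAL

variable {E L Γ₀ : Type*} [Field E] [Field L] [LinearOrderedCommGroupWithZero Γ₀]

private lemma vle (j : E →+* L) (V : Valuation L Γ₀) (hV : ∀ e : E, e ≠ 0 → V (j e) = 1) (e : E) :
    V (j e) ≤ 1 := by
  by_cases he : e = 0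
  · rw [he, map_zero, map_zero]
    exact zero_le_one
  · exact (hV e he).le

/-- polynomials with constant coefficients at an integral element -/
private lemma v_poly_le (j : E →+* L) (V : Valuation L Γ₀)
    (hV : ∀ e : E, e ≠ 0 → V (j e) = 1) (X : L) (hX : V X ≤ 1) (p : E[X]) :
    V (eval₂ j X p) ≤ 1 := by
  rw [eval₂_eq_sum_range]
  apply V.map_sum_le
  intro i _
  rw [map_mul, map_pow]
  exact mul_le_one' (vle j V hV _) (pow_le_one' hX i)

/-- polynomials with constant coefficients at a non-integral element -/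
private lemma v_poly_eq (j : E →+* L) (V : Valuation L Γ₀)
    (hV : ∀ e : E, e ≠ 0 → V (j e) = 1) (X : L) (hX : 1 < V X) (p : E[X]) (hp : p ≠ 0) :
    V (eval₂ j X p) = V X ^ p.natDegree := by
  rw [eval₂_eq_sum_range, Finset.sum_range_succ]
  have h1 : V (j (p.coeff p.natDegree) * X ^ p.natDegree) = V X ^ p.natDegree := by
    rw [map_mul, map_pow, hV _ (by rwa [coeff_natDegree, Ne, leadingCoeff_eq_zero]), one_mul]
  have h0 : V X ^ p.natDegree ≠ 0 := pow_ne_zero _ (lt_of_le_of_lt zero_le_one hX).ne'
  have h2 : V (∑ i ∈ Finset.range p.natDegree, j (p.coeff i) * X ^ i) <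
      V (j (p.coeff p.natDegree) * X ^ p.natDegree) := by
    rw [h1]
    apply V.map_sum_lt h0
    intro i hi
    rw [map_mul, map_pow]
    refine lt_of_le_of_lt (mul_le_of_le_one_left' (vle j V hV _)) ?_
    exact pow_lt_pow_right₀ hX (Finset.mem_range.mp hi)
  rw [V.map_add_eq_of_lt_right h2, h1]

/-- the conjugation of the coordinate ring -/
private noncomputable def conj (a b c : E) :
    (leg a b c).CoordinateRing →+* (leg a b c).CoordinateRing :=
  ev (cst a b c) a b c (gx a b c) (-gy a b c) (by rw [neg_sq]; exact g_eq a b c)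

private lemma conj_ideal (a b c x y : E) :
    (CoordinateRing.XYIdeal (leg a b c) x (C y)).map (conj a b c) =
    CoordinateRing.XYIdeal (leg a b c) x (C (-y)) := by
  rw [XYIdeal_eq, XYIdeal_eq, Ideal.map_span, Set.image_pair, map_sub, map_sub]
  have h1 : conj a b c (gx a b c) = gx a b c := ev_gx _ _ _ _
  have h2 : conj a b c (gy a b c) = - gy a b c := ev_gy _ _ _ _
  have h3 : ∀ e, conj a b c (cst a b c e) = cst a b c e := ev_cst _ _ _ _
  rw [h1, h2, h3, h3, map_neg]
  have h4 : -gy a b c - cst a b c y = -(gy a b c - - cst a b c y) := by ring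
  rw [h4, Ideal.span_insert, Ideal.span_insert, Ideal.span_singleton_neg]

private lemma conj_mul {a b c : E} {n : ℕ} {x y : E}
    (h : (leg a b c).Nonsingular x y) {g : (leg a b c).CoordinateRing}
    (hg : CoordinateRing.XYIdeal (leg a b c) x (C y) ^ n = Ideal.span {g}) :
    ∃ u : E, u ≠ 0 ∧ conj a b c g * g = cst a b c u * (gx a b c - cst a b c x) ^ n := by
  apply gen_unique
  have h1 : Ideal.span {conj a b c g} = CoordinateRing.XYIdeal (leg a b c) x (C (-y)) ^ n := by
    rw [← conj_ideal, ← Ideal.map_pow, hg, Ideal.map_span, Set.image_singleton]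
  have h2 := CoordinateRing.XYIdeal_neg_mul h
  have h3 : (leg a b c).negY x y = -y := by
    simp [negY]
  rw [h3] at h2
  rw [← Ideal.span_singleton_mul_span_singleton, h1, ← hg, ← mul_pow, h2,
    CoordinateRing.XIdeal, XClass_eq, Ideal.span_singleton_pow]

/-- values of a generator of the `n`-th power of the ideal of a point -/
theorem val_gen {E L Γ₀ : Type*} [Field E] [CharZero E] [Field L]
    [LinearOrderedCommGroupWithZero Γ₀] (j : E →+* L) (V : Valuation L Γ₀)
    (hV : ∀ e : E, e ≠ 0 → V (j e) = 1) (a b c : E) (hab : a ≠ b) (hbc : b ≠ c) (hca : c ≠ a)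
    (X Y : L) (hXY : Y ^ 2 = (X - j a) * (X - j b) * (X - j c)) (n : ℕ) (x y : E)
    (h : (leg a b c).Nonsingular x y) (g : (leg a b c).CoordinateRing)
    (hg : CoordinateRing.XYIdeal (leg a b c) x (C y) ^ n = Ideal.span {g}) :
    V (ev j a b c X Y hXY g) = V (X - j x) ^ n ∨ V (ev j a b c X Y hXY g) = V (Y - j y) ^ n ∨
      V (ev j a b c X Y hXY g) = V (Y / X) ^ n := by
  rcases le_or_gt (V X) 1 with hX | hX
  · -- integral case
    have hsub : ∀ e : E, V (X - j e) ≤ 1 := fun e =>
      le_trans (V.map_sub _ _) (max_le hX (vle j V hV e))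
    have hY : V Y ≤ 1 := by
      have h1 : V Y ^ 2 ≤ 1 := by
        rw [← map_pow, hXY, map_mul, map_mul]
        exact mul_le_one' (mul_le_one' (hsub a) (hsub b)) (hsub c)
      exact (pow_le_one_iff (two_ne_zero)).mp h1
    have hr : ∀ r : (leg a b c).CoordinateRing, V (ev j a b c X Y hXY r) ≤ 1 := by
      intro r
      obtain ⟨p, q, rfl⟩ := exists_form a b c r
      rw [map_add, map_mul, ev_poly, ev_poly, ev_gy]
      refine le_trans (V.map_add _ _) (max_le (v_poly_le j V hV X hX p) ?_)
      rw [map_mul]
      exact mul_le_one' (v_poly_le j V hV X hX q) hY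
    set t : Γ₀ := max (V (X - j x)) (V (Y - j y)) with ht
    -- the ideal of functions of value at most `t ^ m`
    let J : ℕ → Ideal (leg a b c).CoordinateRing := fun m =>
      { carrier := {r | V (ev j a b c X Y hXY r) ≤ t ^ m}
        add_mem' := by
          intro r s hr' hs'
          simp only [Set.mem_setOf_eq] at hr' hs' ⊢
          rw [map_add]
          exact le_trans (V.map_add _ _) (max_le hr' hs')
        zero_mem' := by
          simp only [Set.mem_setOf_eq, map_zero]
          exact zero_le
        smul_mem' := by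
          intro r s hs'
          simp only [Set.mem_setOf_eq, smul_eq_mul] at hs' ⊢
          rw [map_mul, map_mul]
          exact le_trans (mul_le_of_le_one_left' (hr r)) hs' }
    have hJ : ∀ m (r : (leg a b c).CoordinateRing), r ∈ J m ↔
        V (ev j a b c X Y hXY r) ≤ t ^ m := fun m r => Iff.rfl
    have hI1 : CoordinateRing.XYIdeal (leg a b c) x (C y) ≤ J 1 := by
      rw [XYIdeal_eq, Ideal.span_le]
      intro r hr'
      simp only [Set.mem_insert_iff, Set.mem_singleton_iff] at hr'
      rcases hr' with rfl | rfl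
      · show _ ∈ J 1
        rw [hJ, map_sub, ev_gx, ev_cst, pow_one]
        exact le_max_left _ _
      · show _ ∈ J 1
        rw [hJ, map_sub, ev_gy, ev_cst, pow_one]
        exact le_max_right _ _
    have hIn : ∀ m, CoordinateRing.XYIdeal (leg a b c) x (C y) ^ m ≤ J m := by
      intro m
      induction m with
      | zero =>
        intro r _
        rw [hJ, pow_zero]
        exact hr r
      | succ m ih =>
        rw [pow_succ, Ideal.mul_le]
        intro r hr' s hs'
        have h1 := (hJ _ _).mp (ih hr')
        have h2 := (hJ _ _).mp (hI1 hs')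
        rw [hJ, map_mul, map_mul, pow_succ]
        rw [pow_one] at h2
        exact mul_le_mul' h1 h2
    have hle : V (ev j a b c X Y hXY g) ≤ t ^ n := by
      have h1 : g ∈ CoordinateRing.XYIdeal (leg a b c) x (C y) ^ n := by
        rw [hg]
        exact Ideal.mem_span_singleton_self g
      exact (hJ _ _).mp (hIn n h1)
    have hdvd : ∀ r ∈ CoordinateRing.XYIdeal (leg a b c) x (C y),
        V (ev j a b c X Y hXY r) ^ n ≤ V (ev j a b c X Y hXY g) := by
      intro r hr'
      have h1 : r ^ n ∈ CoordinateRing.XYIdeal (leg a b c) x (C y) ^ n := Ideal.pow_mem_pow hr' n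
      rw [hg, Ideal.mem_span_singleton] at h1
      obtain ⟨s, hs⟩ := h1
      rw [← map_pow, ← map_pow, hs, map_mul, map_mul]
      exact mul_le_of_le_one_right' (hr s)
    have h1 : V (X - j x) ^ n ≤ V (ev j a b c X Y hXY g) := by
      have h2 := hdvd (gx a b c - cst a b c x) (by
        rw [XYIdeal_eq]
        exact Ideal.subset_span (Set.mem_insert _ _))
      rwa [map_sub, ev_gx, ev_cst] at h2
    have h2 : V (Y - j y) ^ n ≤ V (ev j a b c X Y hXY g) := by
      have h2 := hdvd (gy a b c - cst a b c y) (by
        rw [XYIdeal_eq]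
        exact Ideal.subset_span (Set.mem_insert_of_mem _ rfl))
      rwa [map_sub, ev_gy, ev_cst] at h2
    rcases max_choice (V (X - j x)) (V (Y - j y)) with h3 | h3
    · rw [ht, h3] at hle
      exact Or.inl (le_antisymm hle h1)
    · rw [ht, h3] at hle
      exact Or.inr (Or.inl (le_antisymm hle h2))
  · -- the point reduces to the origin
    right
    right
    have hX0 : V X ≠ 0 := (lt_of_le_of_lt zero_le_one hX).ne'
    have hsub : ∀ e : E, V (X - j e) = V X := fun e =>
      V.map_sub_eq_of_lt_left (lt_of_le_of_lt (vle j V hV e) hX)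
    have hY2 : V Y ^ 2 = V X ^ 3 := by
      rw [← map_pow, hXY, map_mul, map_mul, hsub, hsub, hsub, pow_succ, pow_two]
    set t : Γ₀ := V (Y / X) with ht
    have ht2 : t ^ 2 = V X := by
      rw [ht, map_div₀, div_pow, hY2, pow_succ, mul_comm, mul_div_assoc, div_self (pow_ne_zero 2 hX0),
        mul_one]
    have hY3 : V Y = t ^ 3 := by
      have h1 : V Y = t * V X := by
        rw [ht, map_div₀, div_mul_cancel₀ _ hX0]
      rw [h1, ← ht2, ← pow_succ']
    have ht1 : 1 < t := by
      by_contra h1
      push Not at h1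
      have h2 : t ^ 2 ≤ 1 := pow_le_one' h1 2
      rw [ht2] at h2
      exact absurd hX (not_lt.mpr h2)
    obtain ⟨u, hu, hconj⟩ := conj_mul h hg
    have hprod : V (ev j a b c X Y hXY (conj a b c g)) * V (ev j a b c X Y hXY g) =
        (t ^ n) ^ 2 := by
      rw [← map_mul, ← map_mul, hconj, map_mul, map_mul, map_pow, map_pow, map_sub, ev_gx, ev_cst,
        ev_cst, hV u hu, one_mul, hsub, ← ht2, ← pow_mul, ← pow_mul, mul_comm 2 n]
    have hconjev : V (ev j a b c X Y hXY (conj a b c g)) = V (ev j a b c X Y hXY g) := by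
      obtain ⟨p, q, rfl⟩ := exists_form a b c g
      have h1 : conj a b c (gx a b c) = gx a b c := ev_gx _ _ _ _
      have h2 : conj a b c (gy a b c) = - gy a b c := ev_gy _ _ _ _
      have h3 : ∀ r : E[X], conj a b c (eval₂ (cst a b c) (gx a b c) r) =
          eval₂ (cst a b c) (gx a b c) r := fun r => ev_poly _ _ _ _ r
      have h7 : ev j a b c X Y hXY (eval₂ (cst a b c) (gx a b c) p +
          eval₂ (cst a b c) (gx a b c) q * gy a b c) = eval₂ j X p + eval₂ j X q * Y := by
        rw [map_add, map_mul, ev_poly, ev_poly, ev_gy]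
      have h8 : ev j a b c X Y hXY (conj a b c (eval₂ (cst a b c) (gx a b c) p +
          eval₂ (cst a b c) (gx a b c) q * gy a b c)) = eval₂ j X p + eval₂ j X q * -Y := by
        rw [map_add, map_mul, h2, h3, h3, map_add, map_mul, map_neg, ev_poly, ev_poly, ev_gy]
      rw [h7, h8]
      by_cases hp : p = 0
      · rw [hp]
        simp
      by_cases hq : q = 0
      · rw [hq]
        simp
      have hne : V (eval₂ j X p) ≠ V (eval₂ j X q * Y) := by
        rw [map_mul, v_poly_eq j V hV X hX p hp, v_poly_eq j V hV X hX q hq, hY3, ← ht2,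
          ← pow_mul, ← pow_mul, ← pow_add]
        intro h4
        have h5 := pow_right_injective₀ (lt_trans zero_lt_one ht1) ht1.ne' h4
        omega
      have h5 : V (eval₂ j X q * -Y) = V (eval₂ j X q * Y) := by
        rw [mul_neg, Valuation.map_neg]
      have h4 : V (eval₂ j X p + eval₂ j X q * Y) =
          max (V (eval₂ j X p)) (V (eval₂ j X q * Y)) := V.map_add_of_distinct_val hne
      have h6 : V (eval₂ j X p + eval₂ j X q * -Y) =
          max (V (eval₂ j X p)) (V (eval₂ j X q * -Y)) :=
        V.map_add_of_distinct_val (by rwa [h5])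
      rw [h4, h6, h5]
    rw [hconjev, ← pow_two] at hprod
    exact (pow_left_inj₀ zero_le zero_le two_ne_zero).mp hprod

end VAL

end Pool.Agent.Helper19.Sec
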