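import Pool.Agent.Helper19.Sec.Defs
import Pool.Agent.Helper19.Sec.Ring
import Pool.Agent.Helper19.Sec.Val
import Pool.Agent.Helper19.Sec.ExtV
import Pool.Agent.Helper19.Sec.Unr
import Pool.Agent.Helper36.SecMain

/-!
Module RPM: the root property for the universal cover.
-/

set_option autoImplicit false

namespace Pool.Agent.Helper19.Sec

open Polynomial WeierstrassCurve.Affine

namespace Rpm

/-- roots of monic polynomials with integral coefficients are integral -/
lemma val_le_one_of_root {K L Γ₀ : Type*} [Field K] [Field L] [Algebra K L]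
    [LinearOrderedCommGroupWithZero Γ₀] (v : Valuation L Γ₀) (θ : L) (f : K[X]) (hf : f.Monic)
    (hfB : ∀ i, v (algebraMap K L (f.coeff i)) ≤ 1) (hfθ : aeval θ f = 0) : v θ ≤ 1 := by
  by_contra hc
  rw [not_le] at hc
  have hn : f.natDegree ≠ 0 := by
    intro h0
    have : f = 1 := hf.natDegree_eq_zero.mp h0
    rw [this, map_one] at hfθ
    exact one_ne_zero hfθ
  rw [aeval_eq_sum_range, Finset.sum_range_succ, hf.coeff_natDegree, one_smul,
    add_eq_zero_iff_eq_neg] at hfθ
  apply_fun v at hfθ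
  rw [Valuation.map_neg, map_pow] at hfθ
  refine absurd hfθ (ne_of_lt (v.map_sum_lt ?_ ?_))
  · exact pow_ne_zero _ (ne_of_gt (lt_trans zero_lt_one hc))
  · intro i hi
    rw [Finset.mem_range] at hi
    rw [Algebra.smul_def, map_mul, map_pow]
    exact mul_lt_of_le_one_of_lt (hfB i) (pow_lt_pow_right₀ hc hi)

/-- nonzero elements algebraic over `k` are units at valuations trivial on `k` -/
lemma val_eq_one_of_algebraic {k L Γ₀ : Type*} [Field k] [Field L] [Algebra k L]
    [LinearOrderedCommGroupWithZero Γ₀] {v : Valuation L Γ₀}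
    (hv : ∀ c : k, c ≠ 0 → v (algebraMap k L c) = 1)
    {x : L} (hx : IsAlgebraic k x) (hx0 : x ≠ 0) : v x = 1 := by
  have key : ∀ y : L, IsAlgebraic k y → v y ≤ 1 := by
    intro y hy
    refine val_le_one_of_root (K := k) v y (minpoly k y) (minpoly.monic hy.isIntegral) ?_
      (minpoly.aeval k y)
    intro i
    by_cases h : (minpoly k y).coeff i = 0
    · rw [h]; simp
    · exact le_of_eq (hv _ h)
  apply le_antisymm (key x hx)
  have h1 := key x⁻¹ hx.inv
  rw [map_inv₀] at h1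
  have h2 : v x ≠ 0 := by rwa [Valuation.ne_zero_iff]
  exact (inv_le_one₀ (zero_lt_iff.mpr h2)).mp h1

end Rpm

section RPM

open Pool.Agent.Helper36 IntermediateField

variable {k K Ω : Type*} [Field k] [Field K] [Field Ω] [Algebra k K] [Algebra K Ω] [Algebra k Ω]
  [IsScalarTower k K Ω] [CharZero k] [Algebra.IsAlgebraic K Ω] [IsAlgClosed Ω]

omit [IsAlgClosed Ω] in
lemma Rpm.adjoin_finset (L : IntermediateField K Ω) (h1 : FiniteDimensional K L)
    (h2 : UnramifiedEverywhere k K L) (S : Finset Ω) (hS : ∀ θ ∈ S, IsAlgebraic k θ) :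
    ∃ L' : IntermediateField K Ω, L ≤ L' ∧ (∀ θ ∈ S, θ ∈ L') ∧ FiniteDimensional K L' ∧
      UnramifiedEverywhere k K L' := by
  classical
  induction S using Finset.induction_on with
  | empty => exact ⟨L, le_rfl, by simp, h1, h2⟩
  | insert θ S hθ ih =>
    obtain ⟨L', hL, hS', h1', h2'⟩ := ih fun θ' h => hS θ' (Finset.mem_insert_of_mem h)
    obtain ⟨L'', hL', hθ', h1'', h2''⟩ := unram_adjoin_const L' h1' h2' θ
      (hS θ (Finset.mem_insert_self _ _))
    refine ⟨L'', hL.trans hL', fun θ' h => ?_, h1'', h2''⟩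
    rcases Finset.mem_insert.1 h with rfl | h
    · exact hθ'
    · exact hL' (hS' θ' h)

/-- the root property for the universal cover -/
theorem rootProp_univCover (a b c : algebraicClosure k Ω) (hab : a ≠ b) (hbc : b ≠ c)
    (hca : c ≠ a) (X Y : univCover k K Ω)
    (hXY : Y ^ 2 = (X - incl k K Ω a) * (X - incl k K Ω b) * (X - incl k K Ω c))
    (L : IntermediateField K Ω) (h1 : FiniteDimensional K L) (h2 : UnramifiedEverywhere k K L)
    (hX : (X : Ω) ∈ L) (hY : (Y : Ω) ∈ L) :
    RootProp (incl k K Ω) a b c X Y hXY := by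
  classical
  intro n x y g hn hns hg
  obtain ⟨p, q, hpq⟩ := exists_form a b c g
  -- constants
  have halg : ∀ e : algebraicClosure k Ω, IsAlgebraic k (e : Ω) := fun e =>
    mem_algebraicClosure_iff.mp e.2
  set S : Finset Ω := insert (x : Ω) (insert (y : Ω)
    ((p.support.image fun i => (p.coeff i : Ω)) ∪ (q.support.image fun i => (q.coeff i : Ω))))
    with hS
  obtain ⟨L1, hL1, hSL, hf1, hu1⟩ := Rpm.adjoin_finset L h1 h2 S (by
    intro θ hθ
    rw [hS] at hθ
    simp only [Finset.mem_insert, Finset.mem_union, Finset.mem_image] at hθ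
    rcases hθ with rfl | rfl | ⟨i, -, rfl⟩ | ⟨i, -, rfl⟩ <;> exact halg _)
  have hxL : (x : Ω) ∈ L1 := hSL _ (by rw [hS]; simp)
  have hyL : (y : Ω) ∈ L1 := hSL _ (by rw [hS]; simp)
  have hpL : ∀ i, (p.coeff i : Ω) ∈ L1 := by
    intro i
    by_cases h : p.coeff i = 0
    · rw [h]; exact zero_mem _
    · refine hSL _ ?_
      rw [hS]
      refine Finset.mem_insert_of_mem (Finset.mem_insert_of_mem (Finset.mem_union_left _ ?_))
      exact Finset.mem_image.2 ⟨i, mem_support_iff.2 h, rfl⟩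
  have hqL : ∀ i, (q.coeff i : Ω) ∈ L1 := by
    intro i
    by_cases h : q.coeff i = 0
    · rw [h]; exact zero_mem _
    · refine hSL _ ?_
      rw [hS]
      refine Finset.mem_insert_of_mem (Finset.mem_insert_of_mem (Finset.mem_union_right _ ?_))
      exact Finset.mem_image.2 ⟨i, mem_support_iff.2 h, rfl⟩
  have hXL : (X : Ω) ∈ L1 := hL1 hX
  have hYL : (Y : Ω) ∈ L1 := hL1 hY
  -- evaluation in `Ω`
  set j : algebraicClosure k Ω →+* Ω := algebraMap (algebraicClosure k Ω) Ω with hj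
  have hXYΩ : (Y : Ω) ^ 2 = ((X : Ω) - j a) * ((X : Ω) - j b) * ((X : Ω) - j c) := by
    have := congrArg (fun z : univCover k K Ω => (z : Ω)) hXY
    exact this
  have hev : ((ev (incl k K Ω) a b c X Y hXY g : univCover k K Ω) : Ω) =
      ev j a b c (X : Ω) (Y : Ω) hXYΩ g := by
    have h3 : ((univCover k K Ω).val : univCover k K Ω →+* Ω).comp
        (ev (incl k K Ω) a b c X Y hXY) = ev j a b c (X : Ω) (Y : Ω) hXYΩ := by
      refine hom_ext (fun e => ?_) ?_ ?_
      · rw [RingHom.comp_apply, ev_cst, ev_cst]; rfl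
      · rw [RingHom.comp_apply, ev_gx, ev_gx]; rfl
      · rw [RingHom.comp_apply, ev_gy, ev_gy]; rfl
    exact congrArg (fun f : (leg a b c).CoordinateRing →+* Ω => f g) h3
  set G : Ω := ev j a b c (X : Ω) (Y : Ω) hXYΩ g with hG
  have hGL : G ∈ L1 := by
    have hmem : ∀ r : (algebraicClosure k Ω)[X], (∀ i, (r.coeff i : Ω) ∈ L1) →
        eval₂ j (X : Ω) r ∈ L1 := by
      intro r hr
      rw [eval₂_eq_sum_range]
      exact sum_mem fun i _ => mul_mem (hr i) (pow_mem hXL i)
    rw [hG, hpq, map_add, map_mul, ev_poly, ev_poly, ev_gy]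
    exact add_mem (hmem p hpL) (mul_mem (hmem q hqL) hYL)
  by_cases hG0 : G = 0
  · refine ⟨0, ?_⟩
    rw [zero_pow hn]
    refine Subtype.ext ?_
    rw [hev, hG0]
    rfl
  obtain ⟨z, hz⟩ := IsAlgClosed.exists_pow_nat_eq G (Nat.pos_of_ne_zero hn)
  have hdiv : ∀ v : Valuation L1 (WithZero (Multiplicative ℤ)), IsPlace k v →
      ∃ h : L1, v ⟨G, hGL⟩ = v h ^ n := by
    intro v hv
    obtain ⟨A, hA⟩ := exists_ext (Ω := Ω) v
    have hAk : ∀ e : k, e ≠ 0 → A.valuation (algebraMap k Ω e) = 1 := by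
      intro e he
      have h3 := hv.1 e he
      have h4 := (Valuation.isEquiv_iff_val_eq_one.1 hA (x := algebraMap k L1 e)).2 h3
      rw [Valuation.comap_apply] at h4
      rwa [← IsScalarTower.algebraMap_apply k L1 Ω] at h4
    have hAj : ∀ e : algebraicClosure k Ω, e ≠ 0 → A.valuation (j e) = 1 := by
      intro e he
      refine Rpm.val_eq_one_of_algebraic hAk (halg e) ?_
      intro h0
      exact he (Subtype.ext h0)
    have htr : ∀ h : L1, A.valuation G = A.valuation (h : Ω) ^ n → v ⟨G, hGL⟩ = v h ^ n := by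
      intro h hh
      rw [← map_pow]
      refine (hA.eq_iff).1 ?_
      rw [Valuation.comap_apply, Valuation.comap_apply]
      show A.valuation G = A.valuation ((h ^ n : L1) : Ω)
      rw [hh, ← map_pow]
      rfl
    rcases val_gen j A.valuation hAj a b c hab hbc hca (X : Ω) (Y : Ω) hXYΩ n x y hns g hg with
      h | h | h
    · exact ⟨⟨(X : Ω) - j x, sub_mem hXL hxL⟩, htr _ h⟩
    · exact ⟨⟨(Y : Ω) - j y, sub_mem hYL hyL⟩, htr _ h⟩
    · exact ⟨⟨(Y : Ω) / (X : Ω), div_mem hYL hXL⟩, htr _ h⟩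
  obtain ⟨L2, hL2, hzL, hf2, hu2⟩ := unram_adjoin_root L1 hf1 hu1 n hn ⟨G, hGL⟩
    (fun h => hG0 (congrArg Subtype.val h)) hdiv z hz
  refine ⟨⟨z, le_univCover (k := k) L2 hf2 hu2 hzL⟩, ?_⟩
  refine Subtype.ext ?_
  rw [hev]
  exact hz

end RPM

end Pool.Agent.Helper19.Sec
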