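import Mathlib
import Pool.Agent.Helper19.Sec.Unr

/-!
Square roots of `(x - θ)(x - θ')` on the curve `c y² = f(x)` (module SQRT for helper19).
-/

set_option autoImplicit false

namespace Pool.Agent.Helper19.Sec

open Polynomial Pool.Agent.Helper36 IntermediateField

section SQRT

lemma val_eval_of_root {k L : Type*} [Field k] [Field L] [Algebra k L]
    {v : Valuation L (WithZero (Multiplicative ℤ))}
    (hv : ∀ c : k, c ≠ 0 → v (algebraMap k L c) = 1) (f : k[X]) {θ x : L} (hθ : aeval θ f = 0)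
    (hθv : v θ ≤ 1) (hxv : v x ≤ 1) (hd : v (aeval θ (derivative f)) = 1)
    (hlt : v (x - θ) < 1) : v (aeval x f) = v (x - θ) := by
  have hk : ∀ c : k, algebraMap k L c ∈ v.integer := by
    intro c
    rw [Valuation.mem_integer_iff]
    by_cases h : c = 0
    · rw [h]; simp
    · exact le_of_eq (hv c h)
  let φ : k →+* v.integer := (algebraMap k L).codRestrict v.integer hk
  have hφ : v.integer.subtype.comp φ = algebraMap k L := by
    ext c; rfl
  have hev : ∀ (z : L) (hz : z ∈ v.integer) (g : k[X]),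
      (((g.map φ).eval (⟨z, hz⟩ : v.integer) : v.integer) : L) = aeval z g := by
    intro z hz g
    rw [eval_map, aeval_def, ← hφ]
    exact Polynomial.hom_eval₂ g φ v.integer.subtype ⟨z, hz⟩
  let θ₁ : v.integer := ⟨θ, hθv⟩
  let x₁ : v.integer := ⟨x, hxv⟩
  obtain ⟨q, hq⟩ := (f.map φ).binomExpansion θ₁ (x₁ - θ₁)
  rw [add_sub_cancel, derivative_map] at hq
  have hq' := congrArg (fun z : v.integer => (z : L)) hq
  simp only [Subring.coe_add, Subring.coe_mul, Subring.coe_pow] at hq'
  rw [hev, hev, hev] at hq'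
  change aeval x f = aeval θ f + aeval θ (derivative f) * (x - θ) + (q : L) * (x - θ) ^ 2 at hq'
  have h1 : aeval x f = (x - θ) * (aeval θ (derivative f) + (q : L) * (x - θ)) := by
    rw [hq', hθ]; ring
  have hqv : v (q : L) ≤ 1 := q.2
  have h2 : v ((q : L) * (x - θ)) < 1 := by
    rw [map_mul]
    exact lt_of_le_of_lt (mul_le_of_le_one_left' hqv) hlt
  have h3 : v (aeval θ (derivative f) + (q : L) * (x - θ)) = 1 := by
    rw [Valuation.map_add_eq_of_lt_left]
    · exact hd
    · rw [hd]; exact h2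
  rw [h1, map_mul, h3, mul_one]

lemma isAlgebraic_aeval_aux {k L : Type*} [Field k] [Field L] [Algebra k L] {z : L}
    (hz : IsAlgebraic k z) (g : k[X]) : IsAlgebraic k (aeval z g) := by
  have h1 : aeval z g ∈ (k⟮z⟯) :=
    algebra_adjoin_le_adjoin k {z} (aeval_mem_adjoin_singleton k z)
  have : Algebra.IsAlgebraic k k⟮z⟯ := isAlgebraic_adjoin_simple hz.isIntegral
  have h2 := Algebra.IsAlgebraic.isAlgebraic (R := k) (⟨_, h1⟩ : k⟮z⟯)
  exact (isAlgebraic_algebraMap_iff (algebraMap k⟮z⟯ L).injective).mpr h2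

variable {k K Ω : Type*} [Field k] [Field K] [Field Ω] [Algebra k K] [Algebra K Ω] [Algebra k Ω]
  [IsScalarTower k K Ω] [CharZero k] [Algebra.IsAlgebraic K Ω] [IsAlgClosed Ω]

/-- on the curve `c y² = f(x)` with `f` separable, the functions
`(x - θ)(x - θ')` have divisor divisible by two -/
theorem sqrt_unram (f : k[X]) (hf : f.Separable) (c : k) (hc : c ≠ 0)
    (x y : K) (hx : Transcendental k x) (hxy : algebraMap k K c * y ^ 2 = aeval x f)
    (L : IntermediateField K Ω) (h1 : FiniteDimensional K L) (h2 : UnramifiedEverywhere k K L)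
    (θ θ' : Ω) (hθ : aeval θ f = 0) (hθ' : aeval θ' f = 0) (r : Ω)
    (hr : r ^ 2 = (algebraMap K Ω x - θ) * (algebraMap K Ω x - θ')) :
    ∃ L' : IntermediateField K Ω, L ≤ L' ∧ r ∈ L' ∧ θ ∈ L' ∧ θ' ∈ L' ∧ FiniteDimensional K L' ∧
      UnramifiedEverywhere k K L' := by
  have hf0 : f ≠ 0 := hf.ne_zero
  have halg : IsAlgebraic k θ := ⟨f, hf0, hθ⟩
  have halg' : IsAlgebraic k θ' := ⟨f, hf0, hθ'⟩
  obtain ⟨L1, hL1, hθ1, hfin1, hun1⟩ := unram_adjoin_const L h1 h2 θ halg
  obtain ⟨L2, hL2, hθ2', hfin2, hun2⟩ := unram_adjoin_const L1 hfin1 hun1 θ' halg'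
  have hθ2 : θ ∈ L2 := hL2 hθ1
  have hLL2 : L ≤ L2 := hL1.trans hL2
  by_cases heq : θ = θ'
  · refine ⟨L2, hLL2, ?_, hθ2, hθ2', hfin2, hun2⟩
    have h3 : (r - (algebraMap K Ω x - θ)) * (r + (algebraMap K Ω x - θ)) = 0 := by
      rw [← heq] at hr
      linear_combination hr
    have hxm : algebraMap K Ω x - θ ∈ L2 := sub_mem (IntermediateField.algebraMap_mem L2 x) hθ2
    rcases mul_eq_zero.mp h3 with h | h
    · rw [sub_eq_zero.mp h]; exact hxm
    · rw [eq_neg_of_add_eq_zero_left h]; exact neg_mem hxm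
  -- distinct roots
  let X2 : L2 := algebraMap K L2 x
  let T : L2 := ⟨θ, hθ2⟩
  let T' : L2 := ⟨θ', hθ2'⟩
  have hinj : Function.Injective (algebraMap L2 Ω) := (algebraMap L2 Ω).injective
  have haev : ∀ (g : k[X]) (z : L2), algebraMap L2 Ω (aeval z g) = aeval (z : Ω) g := by
    intro g z
    exact (aeval_algebraMap_apply Ω z g).symm
  have hTf : aeval T f = 0 := by
    apply hinj; rw [haev, map_zero]; exact hθ
  have hTf' : aeval T' f = 0 := by
    apply hinj; rw [haev, map_zero]; exact hθ'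
  have hTalg : IsAlgebraic k T := ⟨f, hf0, hTf⟩
  have hTalg' : IsAlgebraic k T' := ⟨f, hf0, hTf'⟩
  have hXtr : Transcendental k X2 := by
    intro hal
    apply hx
    exact (isAlgebraic_algebraMap_iff (algebraMap K L2).injective).mp hal
  have hXT : X2 - T ≠ 0 := by
    intro h
    exact hXtr (by rw [sub_eq_zero.mp h]; exact hTalg)
  have hXT' : X2 - T' ≠ 0 := by
    intro h
    exact hXtr (by rw [sub_eq_zero.mp h]; exact hTalg')
  have hTT : T - T' ≠ 0 := by
    intro h
    apply heq
    have := sub_eq_zero.mp h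
    exact congrArg (fun z : L2 => (z : Ω)) this
  have hdne : ∀ z : L2, aeval z f = 0 → aeval z (derivative f) ≠ 0 := by
    intro z hz
    exact hf.aeval_derivative_ne_zero hz
  have hg0 : (X2 - T) * (X2 - T') ≠ 0 := mul_ne_zero hXT hXT'
  -- one-sided statement
  have side : ∀ (v : Valuation L2 (WithZero (Multiplicative ℤ))), IsPlace k v → v X2 ≤ 1 →
      ∀ z z' : L2, aeval z f = 0 → aeval z' f = 0 → z - z' ≠ 0 → v (X2 - z) < 1 →
      v ((X2 - z) * (X2 - z')) = v (algebraMap K L2 y) ^ 2 := by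
    intro v hv hXv z z' hz hz' hzz hlt
    have hza : IsAlgebraic k z := ⟨f, hf0, hz⟩
    have hza' : IsAlgebraic k z' := ⟨f, hf0, hz'⟩
    have hzv : v z ≤ 1 := by
      by_cases h : z = 0
      · rw [h, map_zero]; exact zero_le
      · exact le_of_eq (val_eq_one_of_algebraic hv.1 hza h)
    have hdv : v (aeval z (derivative f)) = 1 := by
      apply val_eq_one_of_algebraic hv.1 _ (hdne z hz)
      exact isAlgebraic_aeval_aux hza (derivative f)
    have h4 := val_eval_of_root hv.1 f hz hzv hXv hdv hlt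
    have hzz1 : v (z - z') = 1 := val_eq_one_of_algebraic hv.1 (hza.sub hza') hzz
    have h5 : v (X2 - z') = 1 := by
      have : X2 - z' = (z - z') + (X2 - z) := by ring
      rw [this, Valuation.map_add_eq_of_lt_left]
      · exact hzz1
      · rw [hzz1]; exact hlt
    have h6 : aeval X2 f = algebraMap k L2 c * (algebraMap K L2 y) ^ 2 := by
      have h7 : aeval X2 f = algebraMap K L2 (aeval x f) := by
        exact aeval_algebraMap_apply L2 x f
      rw [h7, ← hxy, map_mul, map_pow, ← IsScalarTower.algebraMap_apply]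
    rw [map_mul, h5, mul_one, ← h4, h6, map_mul, hv.1 c hc, one_mul, map_pow]
  have hdiv : ∀ v : Valuation L2 (WithZero (Multiplicative ℤ)), IsPlace k v →
      ∃ h : L2, v ((X2 - T) * (X2 - T')) = v h ^ 2 := by
    intro v hv
    have hTv : v T ≤ 1 := by
      by_cases h : T = 0
      · rw [h, map_zero]; exact zero_le
      · exact le_of_eq (val_eq_one_of_algebraic hv.1 hTalg h)
    have hTv' : v T' ≤ 1 := by
      by_cases h : T' = 0
      · rw [h, map_zero]; exact zero_le
      · exact le_of_eq (val_eq_one_of_algebraic hv.1 hTalg' h)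
    rcases lt_or_ge 1 (v X2) with hX | hX
    · refine ⟨X2, ?_⟩
      have e1 : v (X2 - T) = v X2 := by
        rw [Valuation.map_sub_swap]
        exact Valuation.map_sub_eq_of_lt_right v (lt_of_le_of_lt hTv hX)
      have e2 : v (X2 - T') = v X2 := by
        rw [Valuation.map_sub_swap]
        exact Valuation.map_sub_eq_of_lt_right v (lt_of_le_of_lt hTv' hX)
      rw [map_mul, e1, e2, sq]
    · have b1 : v (X2 - T) ≤ 1 := (v.map_sub _ _).trans (max_le hX hTv)
      have b2 : v (X2 - T') ≤ 1 := (v.map_sub _ _).trans (max_le hX hTv')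
      rcases lt_or_eq_of_le b1 with c1 | c1
      · exact ⟨algebraMap K L2 y, side v hv hX T T' hTf hTf' hTT c1⟩
      · rcases lt_or_eq_of_le b2 with c2 | c2
        · refine ⟨algebraMap K L2 y, ?_⟩
          rw [mul_comm]
          refine side v hv hX T' T hTf' hTf ?_ c2
          intro h
          apply hTT
          rw [← neg_sub, h, neg_zero]
        · refine ⟨1, ?_⟩
          rw [map_mul, c1, c2, map_one]; simp
  obtain ⟨L3, hL3, hr3, hfin3, hun3⟩ := unram_adjoin_root L2 hfin2 hun2 2 two_ne_zero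
    ((X2 - T) * (X2 - T')) hg0 hdiv r (by rw [hr]; rfl)
  exact ⟨L3, hLL2.trans hL3, hr3, hL3 hθ2, hL3 hθ2', hfin3, hun3⟩

end SQRT

end Pool.Agent.Helper19.Sec
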