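import Pool.Agent.Helper19.Sec.Defs

/-!
# Module GAL: Frobenius lifts and inertia elements in the Galois group of a discretely valued field
-/

set_option autoImplicit false

namespace Pool.Agent.Helper19.Sec

open Polynomial
open scoped Pointwise

namespace GalAux

section prufer

variable {B E : Type*} [CommRing B] [Field E] [Algebra B E]

/-- a polynomial relation with a coefficient outside `P` gives a quotient -/
lemma prufer_aux (hcl : ∀ x : E, IsIntegral B x → ∃ y : B, algebraMap B E y = x) (P : Ideal B)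
    [P.IsPrime] (hinj : Function.Injective (algebraMap B E)) (z : E) (n : ℕ) :
    ∀ g : B[X], g.natDegree ≤ n → aeval z g = 0 → (∃ i, g.coeff i ∉ P) →
      ∃ b c : B, algebraMap B E b * z = algebraMap B E c ∧ (b ∉ P ∨ c ∉ P) := by
  induction n with
  | zero =>
    intro g hg h0 ⟨i, hi⟩
    exfalso
    apply hi
    rw [eq_C_of_natDegree_le_zero hg] at h0 ⊢
    rw [aeval_C] at h0
    have h1 : g.coeff 0 = 0 := hinj (by rw [h0, map_zero])
    rw [h1, C_0, coeff_zero]
    exact P.zero_mem
  | succ n ih =>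
    intro g hg h0 ⟨i, hi⟩
    have hint : IsIntegral B (algebraMap B E (g.coeff (n + 1)) * z) := by
      rcases Nat.lt_or_ge g.natDegree (n + 1) with h | h
      · rw [coeff_eq_zero_of_natDegree_lt h, map_zero, zero_mul]
        exact isIntegral_zero
      · have h1 : g.natDegree = n + 1 := le_antisymm hg h
        have h2 := isIntegral_leadingCoeff_smul g z h0
        rw [leadingCoeff, h1, Algebra.smul_def] at h2
        exact h2
    obtain ⟨c, hc⟩ := hcl _ hint
    by_cases hb : g.coeff (n + 1) ∈ P
    swap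
    · exact ⟨g.coeff (n + 1), c, hc.symm, Or.inl hb⟩
    by_cases hcP : c ∈ P
    swap
    · exact ⟨g.coeff (n + 1), c, hc.symm, Or.inr hcP⟩
    refine ih (g - C (g.coeff (n + 1)) * X ^ (n + 1) + C c * X ^ n) ?_ ?_ ?_
    · rw [natDegree_le_iff_coeff_eq_zero]
      intro m hm
      rw [coeff_add, coeff_sub, coeff_C_mul_X_pow, coeff_C_mul_X_pow]
      rcases Nat.lt_or_ge (n + 1) m with h | h
      · rw [coeff_eq_zero_of_natDegree_lt (lt_of_le_of_lt hg h), if_neg (by omega),
          if_neg (by omega)]
        simp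
      · have : m = n + 1 := by omega
        subst this
        simp
    · rw [map_add, map_sub, h0, map_mul, map_mul, map_pow, map_pow, aeval_X, aeval_C, aeval_C, hc]
      ring
    · refine ⟨i, fun hcon => hi ?_⟩
      rw [coeff_add, coeff_sub, coeff_C_mul_X_pow, coeff_C_mul_X_pow] at hcon
      have h1 : (if i = n + 1 then g.coeff (n + 1) else 0) ∈ P := by
        split_ifs
        · exact hb
        · exact P.zero_mem
      have h2 : (if i = n then c else 0) ∈ P := by
        split_ifs
        · exact hcP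
        · exact P.zero_mem
      have h3 := P.sub_mem (P.add_mem hcon h1) h2
      convert h3 using 1
      ring

/-- the localization of `B` at `P`, as a valuation subring -/
def VP (P : Ideal B) [P.IsPrime] (hinj : Function.Injective (algebraMap B E))
    (hpr : ∀ z : E, ∃ b c : B, algebraMap B E b * z = algebraMap B E c ∧ (b ∉ P ∨ c ∉ P)) :
    ValuationSubring E where
  carrier := {z | ∃ b t : B, t ∉ P ∧ algebraMap B E t * z = algebraMap B E b}
  mul_mem' := by
    rintro x y ⟨b, t, ht, h⟩ ⟨b', t', ht', h'⟩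
    refine ⟨b * b', t * t', fun hcon => ?_, ?_⟩
    · rcases Ideal.IsPrime.mem_or_mem ‹P.IsPrime› hcon with h1 | h1
      · exact ht h1
      · exact ht' h1
    · rw [map_mul, map_mul, ← h, ← h']; ring
  one_mem' := ⟨1, 1, fun h => Ideal.IsPrime.ne_top ‹P.IsPrime› ((Ideal.eq_top_iff_one P).2 h),
    by rw [mul_one]⟩
  add_mem' := by
    rintro x y ⟨b, t, ht, h⟩ ⟨b', t', ht', h'⟩
    refine ⟨b * t' + b' * t, t * t', fun hcon => ?_, ?_⟩
    · rcases Ideal.IsPrime.mem_or_mem ‹P.IsPrime› hcon with h1 | h1
      · exact ht h1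
      · exact ht' h1
    · rw [map_add, map_mul, map_mul, map_mul, ← h, ← h']; ring
  zero_mem' := ⟨0, 1, fun h => Ideal.IsPrime.ne_top ‹P.IsPrime› ((Ideal.eq_top_iff_one P).2 h),
    by rw [mul_zero, map_zero]⟩
  neg_mem' := by
    rintro x ⟨b, t, ht, h⟩
    exact ⟨-b, t, ht, by rw [map_neg, ← h]; ring⟩
  mem_or_inv_mem' := by
    intro z
    obtain ⟨b, c, h, h1⟩ := hpr z
    rcases h1 with h1 | h1
    · exact Or.inl ⟨c, b, h1, h⟩
    · right
      have hz : z ≠ 0 := by
        rintro rfl
        apply h1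
        rw [mul_zero] at h
        have : c = 0 := hinj (by rw [← h, map_zero])
        rw [this]; exact P.zero_mem
      exact ⟨b, c, h1, by rw [← h, mul_assoc, mul_inv_cancel₀ hz, mul_one]⟩

variable (P : Ideal B) [hP : P.IsPrime] (hinj : Function.Injective (algebraMap B E))
    (hpr : ∀ z : E, ∃ b c : B, algebraMap B E b * z = algebraMap B E c ∧ (b ∉ P ∨ c ∉ P))

lemma mem_VP {z : E} : z ∈ VP P hinj hpr ↔
    ∃ b t : B, t ∉ P ∧ algebraMap B E t * z = algebraMap B E b := Iff.rfl

lemma val_le_one (b : B) : (VP P hinj hpr).valuation (algebraMap B E b) ≤ 1 := by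
  rw [ValuationSubring.valuation_le_one_iff]
  exact ⟨b, 1, fun h => hP.ne_top ((Ideal.eq_top_iff_one P).2 h), by rw [map_one, one_mul]⟩

lemma val_eq_one {t : B} (ht : t ∉ P) : (VP P hinj hpr).valuation (algebraMap B E t) = 1 := by
  have h0 : algebraMap B E t ≠ 0 := by
    intro h
    apply ht
    have : t = 0 := hinj (by rw [h, map_zero])
    rw [this]; exact P.zero_mem
  have h1 : (algebraMap B E t)⁻¹ ∈ VP P hinj hpr := ⟨1, t, ht, by
    rw [mul_inv_cancel₀ h0, map_one]⟩
  rw [← ValuationSubring.valuation_le_one_iff, map_inv₀] at h1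
  have h2 : (VP P hinj hpr).valuation (algebraMap B E t) ≠ 0 := (Valuation.ne_zero_iff _).2 h0
  have h3 := val_le_one P hinj hpr t
  exact le_antisymm h3 ((inv_le_one₀ (zero_lt_iff.2 h2)).1 h1)

lemma val_lt_one {t : B} (ht : t ∈ P) : (VP P hinj hpr).valuation (algebraMap B E t) < 1 := by
  refine lt_of_le_of_ne (val_le_one P hinj hpr t) fun h => ?_
  have h0 : algebraMap B E t ≠ 0 := by
    intro h1
    rw [h1, map_zero] at h
    exact zero_ne_one h
  have h1 : (algebraMap B E t)⁻¹ ∈ VP P hinj hpr := by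
    rw [← ValuationSubring.valuation_le_one_iff, map_inv₀, h, inv_one]
  obtain ⟨b, s, hs, h2⟩ := h1
  apply hs
  have h3 : s = b * t := hinj (by rw [map_mul, ← h2, mul_assoc, inv_mul_cancel₀ h0, mul_one])
  rw [h3]
  exact P.mul_mem_left b ht

/-- congruences extend from `B` to the valuation ring -/
lemma congr_val (g : E →+* E) (gB : B → B) (hg : ∀ b, algebraMap B E (gB b) = g (algebraMap B E b))
    (hgP : ∀ t, t ∉ P → gB t ∉ P) (N : ℕ) (hN : ∀ b, gB b - b ^ N ∈ P) {z : E}
    (hz : (VP P hinj hpr).valuation z ≤ 1) :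
    (VP P hinj hpr).valuation (g z - z ^ N) < 1 := by
  rw [ValuationSubring.valuation_le_one_iff] at hz
  obtain ⟨b, t, ht, h⟩ := hz
  have hgz : (VP P hinj hpr).valuation (g z) ≤ 1 := by
    rw [ValuationSubring.valuation_le_one_iff]
    exact ⟨gB b, gB t, hgP t ht, by rw [hg, hg, ← map_mul, h]⟩
  have h1 : algebraMap B E t ^ N * (g z - z ^ N) =
      algebraMap B E (gB b - b ^ N) - algebraMap B E (gB t - t ^ N) * g z := by
    rw [map_sub, map_sub, map_pow, map_pow, hg, hg, ← h, map_mul]
    ring
  have h2 : (VP P hinj hpr).valuation (algebraMap B E t ^ N * (g z - z ^ N)) < 1 := by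
    rw [h1]
    refine lt_of_le_of_lt (Valuation.map_sub _ _ _) (max_lt ?_ ?_)
    · exact val_lt_one P hinj hpr (hN b)
    · rw [map_mul]
      exact lt_of_le_of_lt (mul_le_of_le_one_right' hgz) (val_lt_one P hinj hpr (hN t))
  rwa [map_mul, map_pow, val_eq_one P hinj hpr ht, one_pow, one_mul] at h2

end prufer

section orbit

/-- an automorphism with finite orbits preserving a valuation ring preserves the valuation -/
lemma val_eq_of_orbit {E : Type*} [Field E] (V : ValuationSubring E) (g : E ≃+* E)
    (hV : ∀ z, z ∈ V ↔ g z ∈ V) (z : E) (hz : ∃ n, 0 < n ∧ g^[n] z = z) :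
    V.valuation (g z) = V.valuation z := by
  have hle : ∀ x y : E, V.valuation x ≤ V.valuation y ↔ V.valuation (g x) ≤ V.valuation (g y) := by
    intro x y
    by_cases hy : y = 0
    · subst hy
      rw [map_zero, map_zero, map_zero, le_zero_iff, le_zero_iff, Valuation.zero_iff,
        Valuation.zero_iff]
      simp
    have hgy : g y ≠ 0 := by
      intro h; apply hy; simpa using h
    have h1 : ∀ a b : E, b ≠ 0 → (V.valuation a ≤ V.valuation b ↔ a / b ∈ V) := by
      intro a b hb
      rw [← ValuationSubring.valuation_le_one_iff, map_div₀, div_le_one₀]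
      exact zero_lt_iff.2 ((Valuation.ne_zero_iff _).2 hb)
    rw [h1 x y hy, h1 _ _ hgy, hV, map_div₀]
  have hlt : ∀ x y : E, V.valuation x < V.valuation y ↔ V.valuation (g x) < V.valuation (g y) := by
    intro x y
    rw [← not_le, ← not_le, hle]
  obtain ⟨n, hn, hnz⟩ := hz
  rcases lt_trichotomy (V.valuation z) (V.valuation (g z)) with h | h | h
  · exfalso
    have h1 : StrictMono fun i : ℕ => V.valuation (g^[i] z) := by
      apply strictMono_nat_of_lt_succ
      intro i
      induction i with
      | zero => simpa using h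
      | succ i ih =>
        rw [hlt] at ih
        rw [← Function.iterate_succ_apply' g i z, ← Function.iterate_succ_apply' g (i + 1) z] at ih
        exact ih
    have h2 := h1 hn
    simp only [Function.iterate_zero, id_eq, hnz, lt_self_iff_false] at h2
  · exact h.symm
  · exfalso
    have h1 : StrictAnti fun i : ℕ => V.valuation (g^[i] z) := by
      apply strictAnti_nat_of_succ_lt
      intro i
      induction i with
      | zero => simpa using h
      | succ i ih =>
        rw [hlt] at ih
        rw [← Function.iterate_succ_apply' g i z, ← Function.iterate_succ_apply' g (i + 1) z] at ih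
        exact ih
    have h2 := h1 hn
    simp only [Function.iterate_zero, id_eq, hnz, lt_self_iff_false] at h2

/-- orbits of a Galois automorphism are finite -/
lemma finite_orbit {k E : Type*} [Field k] [Field E] [Algebra k E] [Algebra.IsAlgebraic k E]
    (g : E ≃ₐ[k] E) (z : E) : ∃ n, 0 < n ∧ g^[n] z = z := by
  have hmem : ∀ i : ℕ, g^[i] z ∈ (minpoly k z).rootSet E := by
    intro i
    have h0 : minpoly k z ≠ 0 := minpoly.ne_zero (Algebra.IsAlgebraic.isAlgebraic z).isIntegral
    rw [mem_rootSet]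
    refine ⟨h0, ?_⟩
    induction i with
    | zero => exact minpoly.aeval k z
    | succ i ih =>
      rw [Function.iterate_succ_apply']
      have h1 : aeval (g (g^[i] z)) (minpoly k z) = g (aeval (g^[i] z) (minpoly k z)) :=
        aeval_algHom_apply (g : E →ₐ[k] E) _ _
      rw [h1, ih, map_zero]
  have : Finite ((minpoly k z).rootSet E) := ((minpoly k z).rootSet_finite E).to_subtype
  obtain ⟨i, j, hij, h⟩ := Finite.exists_ne_map_eq_of_infinite
    (fun i : ℕ => (⟨g^[i] z, hmem i⟩ : (minpoly k z).rootSet E))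
  have h1 : g^[i] z = g^[j] z := congrArg Subtype.val h
  have key : ∀ i j : ℕ, i < j → g^[i] z = g^[j] z → ∃ n, 0 < n ∧ g^[n] z = z := by
    intro i j hij h
    refine ⟨j - i, by omega, ?_⟩
    have h2 : g^[i] (g^[j - i] z) = g^[i] z := by
      rw [← Function.iterate_add_apply, Nat.add_sub_cancel' hij.le, h]
    exact (g.injective.iterate i) h2
  rcases lt_or_gt_of_ne hij with hlt | hlt
  · exact key i j hlt h1
  · exact key j i hlt h1.symm

end orbit

section galois

variable {A k E : Type*} [CommRing A] [IsDomain A] [IsDiscreteValuationRing A] [Field k]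
  [Algebra A k] [IsFractionRing A k] [Field E] [Algebra k E] [Algebra A E] [IsScalarTower A k E]

omit [IsDomain A] [IsDiscreteValuationRing A] [IsFractionRing A k] in
lemma int_map (g : E ≃ₐ[k] E) {x : E} (hx : IsIntegral A x) : IsIntegral A (g x) :=
  hx.map ((g : E →ₐ[k] E).restrictScalars A)

variable (A k E) in
/-- the Galois group acts on the integral closure -/
@[reducible]
def actB : MulSemiringAction (E ≃ₐ[k] E) (integralClosure A E) where
  smul g b := ⟨g b, int_map g b.2⟩
  one_smul b := Subtype.ext rfl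
  mul_smul g h b := Subtype.ext rfl
  smul_zero g := Subtype.ext (map_zero g)
  smul_add g a b := Subtype.ext (map_add g _ _)
  smul_one g := Subtype.ext (map_one g)
  smul_mul g a b := Subtype.ext (map_mul g _ _)

attribute [local instance] actB

lemma coe_smulB (g : E ≃ₐ[k] E) (b : integralClosure A E) :
    ((g • b : integralClosure A E) : E) = g b := rfl

lemma commB : SMulCommClass (E ≃ₐ[k] E) A (integralClosure A E) where
  smul_comm g a b := by
    apply Subtype.ext
    show g (a • (b : E)) = a • g b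
    rw [Algebra.smul_def, Algebra.smul_def, map_mul, IsScalarTower.algebraMap_apply A k E,
      AlgEquiv.commutes]

attribute [local instance] commB

omit [IsDomain A] [IsDiscreteValuationRing A] [IsFractionRing A k] in
lemma fixed_int' [IsGalois k E] (x : E) (hx : ∀ g : E ≃ₐ[k] E, g x = x) :
    ∃ y : k, algebraMap k E y = x := by
  have := (InfiniteGalois.mem_range_algebraMap_iff_fixed (k := k) (K := E) x).2 hx
  obtain ⟨y, hy⟩ := this
  exact ⟨y, hy⟩

lemma fixed_int [IsGalois k E] (x : E) (hx : ∀ g : E ≃ₐ[k] E, g x = x) (hi : IsIntegral A x) :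
    ∃ y : A, algebraMap A E y = x := by
  obtain ⟨y, rfl⟩ := fixed_int' x hx
  have h1 : IsIntegral A y := (isIntegral_algebraMap_iff (algebraMap k E).injective).1 hi
  obtain ⟨a, rfl⟩ := IsIntegrallyClosed.algebraMap_eq_of_integral h1
  exact ⟨a, IsScalarTower.algebraMap_apply A k E a⟩

lemma contB [IsGalois k E] : letI : TopologicalSpace (integralClosure A E) := ⊥
    ContinuousSMul (E ≃ₐ[k] E) (integralClosure A E) := by
  letI : TopologicalSpace (integralClosure A E) := ⊥
  haveI : DiscreteTopology (integralClosure A E) := ⟨rfl⟩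
  rw [continuousSMul_iff_stabilizer_isOpen]
  intro x
  have h1 := stabilizer_isOpen_of_isIntegral (K := k) (x : E)
  convert h1 using 1
  ext g
  simp only [SetLike.mem_coe, MulAction.mem_stabilizer_iff]
  exact ⟨fun h => congrArg Subtype.val h, fun h => Subtype.ext h⟩

/-- the Pruefer property of the integral closure of a discrete valuation ring -/
lemma pruefer [Algebra.IsAlgebraic k E] (P : Ideal (integralClosure A E)) [P.IsPrime] (z : E) :
    ∃ b c : integralClosure A E, algebraMap _ E b * z = algebraMap _ E c ∧ (b ∉ P ∨ c ∉ P) := by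
  classical
  have hinj : Function.Injective (algebraMap A E) := by
    rw [IsScalarTower.algebraMap_eq A k E]
    exact (algebraMap k E).injective.comp (IsFractionRing.injective A k)
  obtain ⟨f, hf0, hf⟩ : IsAlgebraic A z :=
    (IsFractionRing.isAlgebraic_iff A k E).2 (Algebra.IsAlgebraic.isAlgebraic z)
  have hsupp : f.support.Nonempty := by
    rwa [Finset.nonempty_iff_ne_empty, Ne, support_eq_empty]
  obtain ⟨i, hi, hmin⟩ := f.support.exists_min_image
    (fun i => IsDiscreteValuationRing.addVal A (f.coeff i)) hsupp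
  have hdvd : ∀ j, f.coeff i ∣ f.coeff j := by
    intro j
    by_cases hj : j ∈ f.support
    · exact (IsDiscreteValuationRing.addVal_le_iff_dvd).1 (hmin j hj)
    · rw [notMem_support_iff] at hj
      rw [hj]; exact dvd_zero _
  obtain ⟨g, hg⟩ := (C_dvd_iff_dvd_coeff _ _).2 hdvd
  have hci : f.coeff i ≠ 0 := mem_support_iff.1 hi
  have hg1 : g.coeff i = 1 := by
    have h1 := congrArg (fun p => p.coeff i) hg
    simp only [coeff_C_mul] at h1
    exact mul_left_cancel₀ hci (by rw [← h1, mul_one])
  have hgz : aeval z g = 0 := by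
    rw [hg, map_mul, aeval_C] at hf
    rcases mul_eq_zero.1 hf with h | h
    · exact absurd (hinj (by rw [h, map_zero])) hci
    · exact h
  refine prufer_aux ?_ P Subtype.val_injective z _ (g.map (algebraMap A (integralClosure A E)))
    le_rfl ?_ ⟨i, ?_⟩
  · intro x hx
    have h1 : IsIntegral A x := isIntegral_trans x hx
    exact ⟨⟨x, h1⟩, rfl⟩
  · rw [aeval_map_algebraMap]; exact hgz
  · rw [coeff_map, hg1, map_one]
    exact fun h => Ideal.IsPrime.ne_top ‹P.IsPrime› ((Ideal.eq_top_iff_one P).2 h)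

/-- the Frobenius automorphism of the residue field lifts -/
lemma exists_frob [IsGalois k E] (P : Ideal (integralClosure A E)) [P.IsMaximal]
    [P.LiesOver (IsLocalRing.maximalIdeal A)] [Finite (IsLocalRing.ResidueField A)] :
    ∃ g : E ≃ₐ[k] E, g • P = P ∧
      ∀ b : integralClosure A E, g • b - b ^ (Nat.card (IsLocalRing.ResidueField A)) ∈ P := by
  letI : TopologicalSpace (integralClosure A E) := ⊥
  haveI : DiscreteTopology (integralClosure A E) := ⟨rfl⟩
  haveI := contB (A := A) (k := k) (E := E)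
  haveI : Algebra.IsInvariant A (integralClosure A E) (E ≃ₐ[k] E) := ⟨fun b hb => by
    obtain ⟨a, ha⟩ := fixed_int (A := A) (k := k) (b : E) (fun g => congrArg Subtype.val (hb g)) b.2
    exact ⟨a, Subtype.ext ha⟩⟩
  letI := Ideal.Quotient.field (IsLocalRing.maximalIdeal A)
  letI := Ideal.Quotient.field P
  haveI : Finite (A ⧸ IsLocalRing.maximalIdeal A) :=
    inferInstanceAs (Finite (IsLocalRing.ResidueField A))
  letI := Fintype.ofFinite (A ⧸ IsLocalRing.maximalIdeal A)
  haveI : Algebra.IsAlgebraic (A ⧸ IsLocalRing.maximalIdeal A) (integralClosure A E ⧸ P) := by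
    have := Ideal.Quotient.algebra_isIntegral_of_liesOver P (IsLocalRing.maximalIdeal A)
    exact Algebra.IsIntegral.isAlgebraic
  obtain ⟨g, hg⟩ := Ideal.Quotient.stabilizerHom_surjective_of_profinite (G := E ≃ₐ[k] E)
    (IsLocalRing.maximalIdeal A) P
    (FiniteField.frobeniusAlgEquivOfAlgebraic (A ⧸ IsLocalRing.maximalIdeal A)
      (integralClosure A E ⧸ P))
  refine ⟨g.1, g.2, fun b => ?_⟩
  have h1 := DFunLike.congr_fun hg (Ideal.Quotient.mk P b)
  rw [← Ideal.Quotient.mk_eq_mk_iff_sub_mem]
  have h2 : Nat.card (IsLocalRing.ResidueField A) =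
      Fintype.card (A ⧸ IsLocalRing.maximalIdeal A) :=
    (Nat.card_eq_fintype_card : Nat.card (A ⧸ IsLocalRing.maximalIdeal A) = _)
  rw [map_pow, h2]
  exact h1

/-- parity of the valuation -/
lemma parity (ϖ : A) (hϖ : Irreducible ϖ) (b : k) (u : A) (hu : IsUnit u) :
    b ^ 2 * algebraMap A k ϖ ≠ algebraMap A k u := by
  intro h
  obtain ⟨x, y, hy, rfl⟩ := IsFractionRing.div_surjective (A := A) b
  have hy0 : y ≠ 0 := nonZeroDivisors.ne_zero hy
  have hyk : algebraMap A k y ≠ 0 := by
    rwa [Ne, IsFractionRing.to_map_eq_zero_iff]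
  have hu0 : u ≠ 0 := hu.ne_zero
  have h1 : x ^ 2 * ϖ = u * y ^ 2 := by
    apply IsFractionRing.injective A k
    rw [map_mul, map_mul, map_pow, map_pow, ← h]
    field_simp
  have hx0 : x ≠ 0 := by
    rintro rfl
    apply mul_ne_zero hu0 (pow_ne_zero 2 hy0)
    rw [← h1]; ring
  obtain ⟨n, hn⟩ := ENat.ne_top_iff_exists.1
    (fun h => hx0 (IsDiscreteValuationRing.addVal_eq_top_iff.1 h))
  obtain ⟨m, hm⟩ := ENat.ne_top_iff_exists.1
    (fun h => hy0 (IsDiscreteValuationRing.addVal_eq_top_iff.1 h))
  have h2 := congrArg (IsDiscreteValuationRing.addVal A) h1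
  rw [IsDiscreteValuationRing.addVal_mul, IsDiscreteValuationRing.addVal_mul,
    IsDiscreteValuationRing.addVal_pow, IsDiscreteValuationRing.addVal_pow,
    IsDiscreteValuationRing.addVal_uniformizer hϖ, ← hn, ← hm] at h2
  have h3 : IsDiscreteValuationRing.addVal A u = 0 := by
    obtain ⟨w, rfl⟩ := hu
    simpa using IsDiscreteValuationRing.addVal_def' w hϖ 0
  rw [h3] at h2
  have h4 : ((2 * n + 1 : ℕ) : ℕ∞) = ((2 * m : ℕ) : ℕ∞) := by
    push_cast
    simpa [two_smul, two_mul] using h2
  have h5 : 2 * n + 1 = 2 * m := by exact_mod_cast h4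
  omega

omit [IsDomain A] [IsDiscreteValuationRing A] [IsFractionRing A k] in
lemma pm (ϖ : A) (s : E) (hs : s ^ 2 = algebraMap A E ϖ) (g : E ≃ₐ[k] E) : g s = s ∨ g s = - s := by
  have h1 : (g s) ^ 2 = s ^ 2 := by
    rw [← map_pow, hs, IsScalarTower.algebraMap_apply A k E, AlgEquiv.commutes]
  exact sq_eq_sq_iff_eq_or_eq_neg.1 h1

/-- elements fixed by the stabilizer of the square root are congruent to elements of `A` -/
lemma decomp [IsGalois k E] (P : Ideal (integralClosure A E)) [hP : P.IsPrime]
    [hlo : P.LiesOver (IsLocalRing.maximalIdeal A)] (h2 : IsUnit (2 : A)) (ϖ : A)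
    (hϖ : Irreducible ϖ) (s : E) (hs : s ^ 2 = algebraMap A E ϖ) (σ : E ≃ₐ[k] E)
    (hσ : σ s = - s) (x : integralClosure A E)
    (hx : ∀ g : E ≃ₐ[k] E, g s = s → g • x = x) :
    ∃ a : A, x - algebraMap A _ a ∈ P ∧ ∀ g : E ≃ₐ[k] E, g s = - s →
      g • (x - algebraMap A _ a) = - (x - algebraMap A _ a) := by
  obtain ⟨i2, hi2⟩ := h2.exists_right_inv
  have hinjA : Function.Injective (algebraMap A E) := by
    rw [IsScalarTower.algebraMap_eq A k E]
    exact (algebraMap k E).injective.comp (IsFractionRing.injective A k)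
  have hi2E : (2 : E) * algebraMap A E i2 = 1 := by
    rw [← map_ofNat (algebraMap A E) 2, ← map_mul, hi2, map_one]
  have hgA : ∀ (g : E ≃ₐ[k] E) (a : A), g (algebraMap A E a) = algebraMap A E a := by
    intro g a
    rw [IsScalarTower.algebraMap_apply A k E, AlgEquiv.commutes]
  have hx' : ∀ g : E ≃ₐ[k] E, g s = s → g (x : E) = x := fun g hg => congrArg Subtype.val (hx g hg)
  have hσ' : σ.symm s = - s := by
    rw [AlgEquiv.symm_apply_eq, map_neg, hσ, neg_neg]
  have hneg : ∀ g : E ≃ₐ[k] E, g s = - s → g (x : E) = σ x ∧ g (σ x) = x := by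
    intro g hg
    constructor
    · have h1 : σ.symm (g x) = x := hx' (σ⁻¹ * g) (by
        show σ.symm (g s) = s
        rw [hg, map_neg, hσ', neg_neg])
      rwa [AlgEquiv.symm_apply_eq] at h1
    · exact hx' (g * σ) (by rw [AlgEquiv.mul_apply, hσ, map_neg, hg, neg_neg])
  have hpos : ∀ g : E ≃ₐ[k] E, g s = s → g (σ x) = σ x := by
    intro g hg
    have h1 : σ.symm (g (σ x)) = x := hx' (σ⁻¹ * (g * σ)) (by
        show σ.symm (g (σ s)) = s
        rw [hσ, map_neg, hg, map_neg, hσ', neg_neg])
    rwa [AlgEquiv.symm_apply_eq] at h1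
  -- the invariant part
  have hyint : IsIntegral A (algebraMap A E i2 * ((x : E) + σ x)) :=
    isIntegral_algebraMap.mul (x.2.add (int_map σ x.2))
  obtain ⟨a, ha⟩ := fixed_int (A := A) (k := k) (algebraMap A E i2 * ((x : E) + σ x)) (fun g => by
    rw [map_mul, hgA, map_add]
    rcases pm ϖ s hs g with hg | hg
    · rw [hx' g hg, hpos g hg]
    · rw [(hneg g hg).1, (hneg g hg).2, add_comm]) hyint
  set d : E := (x : E) - algebraMap A E a with hd
  have hd2 : d = algebraMap A E i2 * ((x : E) - σ x) := by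
    rw [hd, ha]
    linear_combination (-(x : E)) * hi2E
  have hdneg : ∀ g : E ≃ₐ[k] E, g s = - s → g d = - d := by
    intro g hg
    rw [hd2, map_mul, hgA, map_sub, (hneg g hg).1, (hneg g hg).2]
    ring
  have hdpos : ∀ g : E ≃ₐ[k] E, g s = s → g d = d := by
    intro g hg
    rw [hd2, map_mul, hgA, map_sub, hx' g hg, hpos g hg]
  have hdint : IsIntegral A d := x.2.sub isIntegral_algebraMap
  refine ⟨a, ?_, fun g hg => Subtype.ext (hdneg g hg)⟩
  -- the square of `d` lies in the maximal ideal
  obtain ⟨u, hu⟩ := fixed_int (A := A) (k := k) (d ^ 2) (fun g => by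
    rw [map_pow]
    rcases pm ϖ s hs g with hg | hg
    · rw [hdpos g hg]
    · rw [hdneg g hg, neg_sq]) (hdint.pow 2)
  have hs0 : s ≠ 0 := by
    rintro rfl
    rw [zero_pow two_ne_zero] at hs
    exact hϖ.ne_zero (hinjA (by rw [← hs, map_zero]))
  obtain ⟨b, hb⟩ := fixed_int' (k := k) (d / s) (fun g => by
    rw [map_div₀]
    rcases pm ϖ s hs g with hg | hg
    · rw [hdpos g hg, hg]
    · rw [hdneg g hg, hg, neg_div_neg_eq])
  have hbu : b ^ 2 * algebraMap A k ϖ = algebraMap A k u := by
    apply (algebraMap k E).injective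
    rw [map_mul, map_pow, hb, ← IsScalarTower.algebraMap_apply, ← IsScalarTower.algebraMap_apply,
      ← hs, hu]
    field_simp
  have hum : u ∈ IsLocalRing.maximalIdeal A := by
    rw [IsLocalRing.mem_maximalIdeal, mem_nonunits_iff]
    exact fun h => parity ϖ hϖ b u h hbu
  have hmem : (x - algebraMap A (integralClosure A E) a) ^ 2 ∈ P := by
    have h1 : (x - algebraMap A (integralClosure A E) a) ^ 2 =
        algebraMap A (integralClosure A E) u := Subtype.ext hu.symm
    rw [h1]
    exact (Ideal.mem_of_liesOver P (IsLocalRing.maximalIdeal A) u).1 hum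
  exact hP.mem_of_pow_mem 2 hmem

/-- elements of the inertia group acting nontrivially on the square root of a uniformizer -/
lemma exists_inertia [IsGalois k E] (P : Ideal (integralClosure A E)) [hP : P.IsPrime]
    [hlo : P.LiesOver (IsLocalRing.maximalIdeal A)] (h2 : IsUnit (2 : A)) (ϖ : A)
    (hϖ : Irreducible ϖ) (s : E) (hs : s ^ 2 = algebraMap A E ϖ) :
    ∃ g : E ≃ₐ[k] E, g • P = P ∧ (∀ b : integralClosure A E, g • b - b ∈ P) ∧ g s = - s := by
  have hinjA : Function.Injective (algebraMap A E) := by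
    rw [IsScalarTower.algebraMap_eq A k E]
    exact (algebraMap k E).injective.comp (IsFractionRing.injective A k)
  have hs0 : s ≠ 0 := by
    rintro rfl
    rw [zero_pow two_ne_zero] at hs
    exact hϖ.ne_zero (hinjA (by rw [← hs, map_zero]))
  -- an automorphism moving `s`
  obtain ⟨σ, hσ⟩ : ∃ σ : E ≃ₐ[k] E, σ s = - s := by
    by_contra hcon
    push Not at hcon
    obtain ⟨b, hb⟩ := fixed_int' (k := k) s (fun g => (pm ϖ s hs g).resolve_right (hcon g))
    have hb0 : b ≠ 0 := by
      rintro rfl
      exact hs0 (by rw [← hb, map_zero])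
    apply parity (k := k) ϖ hϖ b⁻¹ 1 isUnit_one
    apply (algebraMap k E).injective
    rw [map_mul, map_pow, map_inv₀, hb, ← IsScalarTower.algebraMap_apply, ← hs, map_one, map_one]
    field_simp
  have hdec := decomp (k := k) P h2 ϖ hϖ s hs σ hσ
  have hσ' : σ.symm s = - s := by
    rw [AlgEquiv.symm_apply_eq, map_neg, hσ, neg_neg]
  let G := E ≃ₐ[k] E
  let B := integralClosure A E
  letI : TopologicalSpace B := ⊥
  haveI : DiscreteTopology B := ⟨rfl⟩
  haveI := contB (A := A) (k := k) (E := E)
  let H : Subgroup G := MulAction.stabilizer G s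
  have hHo : IsOpen (H : Set G) := stabilizer_isOpen_of_isIntegral (K := k) s
  haveI : CompactSpace H := isCompact_iff_compactSpace.1 (H.isClosed_of_isOpen hHo).isCompact
  let A' : Subalgebra A B := FixedPoints.subalgebra A B H
  haveI : Algebra.IsInvariant A' B H := ⟨fun b hb => ⟨⟨b, hb⟩, rfl⟩⟩
  have hA' : ∀ x : A', ∃ a : A, (x : B) - algebraMap A _ a ∈ P ∧ ∀ g : E ≃ₐ[k] E, g s = - s →
      g • ((x : B) - algebraMap A _ a) = - ((x : B) - algebraMap A _ a) := fun x =>
    hdec x fun g hg => x.2 ⟨g, hg⟩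
  -- `P` and `σ P` have the same intersection with `A'`
  haveI : (σ • P).IsPrime := inferInstance
  have hunder : (σ • P).under A' = P.under A' := by
    ext x
    obtain ⟨a, ha, hneg⟩ := hA' x
    have h1 : x ∈ P.under A' ↔ algebraMap A B a ∈ P := by
      rw [Ideal.mem_comap]
      constructor
      · intro h
        have h3 := P.sub_mem h ha
        rwa [show (algebraMap A' B x) - ((x : B) - algebraMap A _ a) = algebraMap A B a from
          sub_sub_cancel _ _] at h3
      · intro h
        have h3 := P.add_mem ha h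
        rwa [sub_add_cancel] at h3
    have h3 : x ∈ (σ • P).under A' ↔ algebraMap A B a ∈ P := by
      rw [Ideal.mem_comap, Ideal.mem_pointwise_smul_iff_inv_smul_mem]
      have h4 : σ⁻¹ • (algebraMap A' B x) = algebraMap A B a - ((x : B) - algebraMap A _ a) := by
        have h5 : σ⁻¹ • ((x : B) - algebraMap A _ a) = -((x : B) - algebraMap A _ a) :=
          hneg σ⁻¹ hσ'
        rw [smul_sub, smul_algebraMap] at h5
        rw [sub_eq_iff_eq_add] at h5
        show σ⁻¹ • (x : B) = _
        rw [h5]; ring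
      rw [h4]
      constructor
      · intro h
        have h6 := P.add_mem h ha
        rwa [sub_add_cancel] at h6
      · intro h
        exact P.sub_mem h ha
    rw [h1, h3]
  obtain ⟨h, hh⟩ := Algebra.IsInvariant.exists_smul_of_under_eq_of_profinite (A := A') (G := H)
    (σ • P) P hunder
  -- the element `δ`
  set δ : G := (h : G) * σ with hδ
  have hδP : δ • P = P := by
    rw [hδ, mul_smul]
    exact hh.symm
  have hhs : (h : G) s = s := h.2
  have hδs : δ s = - s := by
    show (h : G) (σ s) = - s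
    rw [hσ, map_neg, hhs]
  -- the automorphism of the residue field
  let δ' : MulAction.stabilizer G P := ⟨δ, hδP⟩
  let f : (B ⧸ P) ≃ₐ[A ⧸ IsLocalRing.maximalIdeal A] (B ⧸ P) :=
    Ideal.Quotient.stabilizerHom P (IsLocalRing.maximalIdeal A) G δ'
  have hf : ∀ b : B, f (Ideal.Quotient.mk P b) = Ideal.Quotient.mk P (δ • b) := fun b => rfl
  let α : (B ⧸ P) ≃ₐ[A' ⧸ P.under A'] (B ⧸ P) := AlgEquiv.ofRingEquiv (f := f.toRingEquiv) (by
    intro r
    obtain ⟨x, rfl⟩ := Ideal.Quotient.mk_surjective r
    show f (Ideal.Quotient.mk P (x : B)) = Ideal.Quotient.mk P (x : B)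
    obtain ⟨a, ha, hneg⟩ := hA' x
    rw [hf, Ideal.Quotient.mk_eq_mk_iff_sub_mem]
    have h1 := hneg δ hδs
    rw [smul_sub, smul_algebraMap, sub_eq_iff_eq_add] at h1
    rw [h1]
    have h3 : -((x : B) - algebraMap A _ a) + algebraMap A B a - (x : B) =
        -(2 * ((x : B) - algebraMap A _ a)) := by ring
    rw [h3]
    exact P.neg_mem (P.mul_mem_left _ ha))
  obtain ⟨η, hη⟩ := Ideal.Quotient.stabilizerHom_surjective_of_profinite (G := H)
    (P.under A') P α
  have hη1 : ∀ b : B, Ideal.Quotient.mk P (((η : H) : G) • b) = Ideal.Quotient.mk P (δ • b) :=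
    fun b => DFunLike.congr_fun hη (Ideal.Quotient.mk P b)
  have hηP : ((η : H) : G) • P = P := η.2
  have hηs : ((η : H) : G) s = s := (η : H).2
  have hηP' : ((η : H) : G)⁻¹ • P = P := by
    rw [inv_smul_eq_iff, hηP]
  refine ⟨((η : H) : G)⁻¹ * δ, ?_, ?_, ?_⟩
  · rw [mul_smul, hδP, hηP']
  · intro b
    have h1 : (((η : H) : G)⁻¹ * δ) • b - b = ((η : H) : G)⁻¹ • (δ • b - ((η : H) : G) • b) := by
      rw [smul_sub, inv_smul_smul, mul_smul]
    rw [h1]
    have h3 : δ • b - ((η : H) : G) • b ∈ P := by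
      rw [← Ideal.Quotient.mk_eq_mk_iff_sub_mem, hη1]
    have h4 := Ideal.smul_mem_pointwise_smul ((η : H) : G)⁻¹ _ P h3
    rwa [hηP'] at h4
  · show ((η : H) : G).symm (δ s) = - s
    rw [hδs, map_neg]
    congr 1
    rw [AlgEquiv.symm_apply_eq, hηs]

end galois

end GalAux

open GalAux in
/-- existence of a Frobenius lift and of an inertia element acting nontrivially on `√ϖ` -/
theorem exists_local {A k E : Type*} [CommRing A] [IsDomain A] [IsDiscreteValuationRing A]
    [Field k] [CharZero k] [Algebra A k] [IsFractionRing A k] [Field E] [Algebra k E]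
    [IsAlgClosure k E] [Finite (IsLocalRing.ResidueField A)] (h2 : IsUnit (2 : A)) (ϖ : A)
    (hϖ : Irreducible ϖ) (s : E) (hs : s ^ 2 = algebraMap k E (algebraMap A k ϖ)) :
    ∃ (V : ValuationSubring E) (φ τ : E ≃ₐ[k] E),
      IsLoc V.valuation (φ : E →+* E) (τ : E →+* E) (Nat.card (IsLocalRing.ResidueField A)) ∧
      (∀ z : A, V.valuation (algebraMap k E (algebraMap A k z)) ≤ 1) ∧
      V.valuation (algebraMap k E (algebraMap A k ϖ)) < 1 ∧ τ s = - s := by
  letI : Algebra A E := ((algebraMap k E).comp (algebraMap A k)).toAlgebra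
  haveI : IsScalarTower A k E := IsScalarTower.of_algebraMap_eq fun _ => rfl
  haveI : IsGalois k E := inferInstance
  letI := actB A k E
  have hinjA : Function.Injective (algebraMap A E) := by
    rw [IsScalarTower.algebraMap_eq A k E]
    exact (algebraMap k E).injective.comp (IsFractionRing.injective A k)
  have hinjAB : Function.Injective (algebraMap A (integralClosure A E)) := fun a b h =>
    hinjA (congrArg Subtype.val h)
  obtain ⟨P, hPm, hPl⟩ : ∃ P : Ideal (integralClosure A E), P.IsMaximal ∧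
      P.LiesOver (IsLocalRing.maximalIdeal A) := by
    haveI : FaithfulSMul A (integralClosure A E) :=
      (faithfulSMul_iff_algebraMap_injective _ _).2 hinjAB
    exact Ideal.exists_maximal_ideal_liesOver_of_isIntegral _
  have hP : P.IsPrime := hPm.isPrime
  have hinj : Function.Injective (algebraMap (integralClosure A E) E) := Subtype.val_injective
  have hpr := pruefer (A := A) (k := k) P
  obtain ⟨φ, hφP, hφ⟩ := exists_frob (A := A) (k := k) P
  obtain ⟨τ, hτP, hτ, hτs⟩ := exists_inertia (A := A) (k := k) P h2 ϖ hϖ s hs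
  have hmem : ∀ g : E ≃ₐ[k] E, g • P = P → ∀ t : integralClosure A E, t ∉ P → g • t ∉ P := by
    intro g hg t ht hcon
    apply ht
    rw [← hg] at hcon
    exact Ideal.smul_mem_pointwise_smul_iff.1 hcon
  have hV : ∀ g : E ≃ₐ[k] E, g • P = P → ∀ z, z ∈ VP P hinj hpr → g z ∈ VP P hinj hpr := by
    rintro g hg z ⟨b, t, ht, h⟩
    refine ⟨g • b, g • t, hmem g hg t ht, ?_⟩
    show g (t : E) * g z = g (b : E)
    rw [← map_mul]
    exact congrArg g h
  have hV' : ∀ g : E ≃ₐ[k] E, g • P = P → ∀ z, z ∈ VP P hinj hpr ↔ g z ∈ VP P hinj hpr := by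
    intro g hg z
    refine ⟨hV g hg z, fun h => ?_⟩
    have h1 := hV g⁻¹ (by rw [inv_smul_eq_iff, hg]) (g z) h
    have h3 : g⁻¹ (g z) = z := AlgEquiv.symm_apply_apply g z
    rwa [h3] at h1
  have hval : ∀ g : E ≃ₐ[k] E, g • P = P → ∀ z, (VP P hinj hpr).valuation (g z) =
      (VP P hinj hpr).valuation z := fun g hg z =>
    val_eq_of_orbit (VP P hinj hpr) (g : E ≃+* E) (hV' g hg) z (finite_orbit g z)
  have hcongr : ∀ (g : E ≃ₐ[k] E) (N : ℕ), g • P = P →
      (∀ b : integralClosure A E, g • b - b ^ N ∈ P) → ∀ z, (VP P hinj hpr).valuation z ≤ 1 →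
      (VP P hinj hpr).valuation (g z - z ^ N) < 1 := by
    intro g N hg hN z hz
    exact congr_val P hinj hpr (g : E →+* E) (fun b => g • b) (fun b => rfl) (hmem g hg) N hN hz
  refine ⟨VP P hinj hpr, φ, τ, ⟨?_, ?_, hval φ hφP, hval τ hτP, hcongr φ _ hφP hφ, ?_⟩, ?_, ?_, hτs⟩
  · exact Finite.one_lt_card
  · have h1 : algebraMap A (integralClosure A E) 2 ∉ P := by
      intro h
      have h3 := (Ideal.mem_of_liesOver P (IsLocalRing.maximalIdeal A) 2).2 h
      rw [IsLocalRing.mem_maximalIdeal, mem_nonunits_iff] at h3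
      exact h3 h2
    have h3 := val_eq_one P hinj hpr h1
    have h4 : algebraMap (integralClosure A E) E (algebraMap A (integralClosure A E) 2) = 2 := by
      rw [map_ofNat, map_ofNat]
    rwa [h4] at h3
  · intro z hz
    have h1 := hcongr τ 1 hτP (fun b => by rw [pow_one]; exact hτ b) z hz
    rwa [pow_one] at h1
  · intro z
    exact val_le_one P hinj hpr (algebraMap A (integralClosure A E) z)
  · refine val_lt_one P hinj hpr (t := algebraMap A (integralClosure A E) ϖ) ?_
    refine (Ideal.mem_of_liesOver P (IsLocalRing.maximalIdeal A) ϖ).1 ?_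
    rw [IsLocalRing.mem_maximalIdeal, mem_nonunits_iff]
    exact hϖ.not_isUnit

end Pool.Agent.Helper19.Sec
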