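import Mathlib
import Pool.Agent.Helper36.SecConv
import Pool.Agent.Helper19.Sec.Fixed
import Pool.Agent.Helper19.Sec.Gal

/-!
The local theorem: ramified quadratic twists have no sections.
-/

set_option autoImplicit false

namespace Pool.Agent.Helper19.Sec

open Polynomial Pool.Agent.Helper36 IsLocalRing

/-- in a field extension of a finite field with `q` elements, the roots of `X^q - X` come from the
finite field -/
lemma mem_range_of_pow_card {κ κ' : Type*} [Field κ] [Finite κ] [Field κ'] (j : κ →+* κ') (t : κ')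
    (ht : t ^ Nat.card κ = t) : ∃ a : κ, j a = t := by
  classical
  have := Fintype.ofFinite κ
  rw [Nat.card_eq_fintype_card] at ht
  have hroots := FiniteField.roots_X_pow_card_sub_X κ
  have hmonic : (X ^ Fintype.card κ - X : κ[X]).Monic := by
    apply monic_X_pow_sub
    rw [degree_X]
    exact_mod_cast Fintype.one_lt_card
  have hprod : (Multiset.map (fun a => X - C a) (Finset.univ : Finset κ).val).prod =
      (X ^ Fintype.card κ - X : κ[X]) := by
    rw [← hroots]
    apply prod_multiset_X_sub_C_of_monic_of_roots_card_eq hmonic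
    rw [hroots, FiniteField.X_pow_card_sub_X_natDegree_eq κ Fintype.one_lt_card]
    rfl
  have h1 : eval₂ j t (X ^ Fintype.card κ - X : κ[X]) = 0 := by
    rw [eval₂_sub, eval₂_pow, eval₂_X, ht, sub_self]
  rw [← hprod, ← coe_eval₂RingHom, map_multiset_prod, Multiset.prod_eq_zero_iff] at h1
  obtain ⟨p, hp, hp0⟩ := Multiset.mem_map.mp h1
  obtain ⟨w, hw, rfl⟩ := Multiset.mem_map.mp hp
  rw [coe_eval₂RingHom, eval₂_sub, eval₂_X, eval₂_C] at hp0
  exact ⟨w, (sub_eq_zero.mp hp0).symm⟩

theorem no_section {A k K Ω : Type*} [CommRing A] [IsDomain A] [IsDiscreteValuationRing A]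
    [Finite (ResidueField A)] (h2 : IsUnit (2 : A)) [Field k] [CharZero k] [Algebra A k]
    [IsFractionRing A k] [Field K] [Field Ω] [Algebra k K] [Algebra K Ω] [Algebra k Ω]
    [IsScalarTower k K Ω] [IsAlgClosure K Ω] (f : A[X]) (heven : Even f.natDegree)
    (h6 : 6 ≤ f.natDegree) (hlead : IsUnit f.leadingCoeff)
    (hsep : (f.map (residue A)).Separable)
    (hroot : ∀ z : ResidueField A, (f.map (residue A)).eval z ≠ 0)
    (ϖ : A) (hϖ : Irreducible ϖ) (u : A) (hu : IsUnit u) (n : ℕ) (hn : Odd n) (x y : K)
    (hx : Transcendental k x)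
    (hxy : algebraMap k K (algebraMap A k (u * ϖ ^ n)) * y ^ 2 =
      aeval x (f.map (algebraMap A k))) :
    IsEmpty (PiOneSection k K Ω) := by
  have hclosed : IsAlgClosed Ω := IsAlgClosure.isAlgClosed K
  have halg : Algebra.IsAlgebraic K Ω := IsAlgClosure.isAlgebraic
  refine ⟨fun s0 => ?_⟩
  let s := s0.toData
  obtain ⟨t, ht⟩ := IsAlgClosed.exists_pow_nat_eq
    (algebraMap k (algebraicClosure k Ω) (algebraMap A k ϖ)) (n := 2) (by norm_num)
  obtain ⟨V, φ, τ, hl, hA, hϖ1, hτt⟩ := exists_local h2 ϖ hϖ t ht
  -- the ring homomorphism `A → V`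
  let jE : A →+* algebraicClosure k Ω := (algebraMap k (algebraicClosure k Ω)).comp (algebraMap A k)
  have hjE : ∀ z, jE z ∈ V := fun z => (V.valuation_le_one_iff _).mp (hA z)
  let jA : A →+* V := jE.codRestrict V.toSubring hjE
  have hjA : ∀ z, ((jA z : V) : algebraicClosure k Ω) = jE z := fun z => rfl
  have hjinj : Function.Injective jE :=
    (algebraMap k (algebraicClosure k Ω)).injective.comp (IsFractionRing.injective A k)
  have hloc : IsLocalHom jA := by
    refine ⟨fun a ha => ?_⟩
    by_contra hna
    have h3 : a ∈ maximalIdeal A := (mem_maximalIdeal a).mpr hna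
    rw [hϖ.maximalIdeal_eq, Ideal.mem_span_singleton] at h3
    obtain ⟨b, rfl⟩ := h3
    have h4 : V.valuation (jE (ϖ * b)) = 1 := by
      have := (V.valuation_eq_one_iff _).mp ha
      exact this
    rw [map_mul, map_mul] at h4
    have h5 : V.valuation (jE ϖ) * V.valuation (jE b) < 1 := by
      calc V.valuation (jE ϖ) * V.valuation (jE b) ≤ V.valuation (jE ϖ) * 1 := by
            gcongr
            exact hA b
        _ < 1 := by rw [mul_one]; exact hϖ1
    rw [h4] at h5
    exact lt_irrefl _ h5
  let j : ResidueField A →+* ResidueField V := ResidueField.map jA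
  have hj : ∀ a, j (residue A a) = residue V (jA a) := fun a => ResidueField.map_residue jA a
  -- the polynomials
  set fk : k[X] := f.map (algebraMap A k) with hfk
  have hinjk : Function.Injective (algebraMap A k) := IsFractionRing.injective A k
  have hdegk : fk.natDegree = f.natDegree := natDegree_map_eq_of_injective hinjk f
  have hleadk : fk.leadingCoeff = algebraMap A k f.leadingCoeff :=
    leadingCoeff_map_of_injective hinjk f
  set fV : V[X] := f.map jA with hfV
  have hfVres : fV.map (residue V) = (f.map (residue A)).map j := by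
    rw [hfV, Polynomial.map_map, Polynomial.map_map]
    rfl
  have hsepV : (fV.map (residue V)).Separable := by
    rw [hfVres]
    exact hsep.map
  -- roots are integral
  have hroots : ∀ θ : algebraicClosure k Ω, aeval θ fk = 0 → ∃ z : V,
      (z : algebraicClosure k Ω) = θ ∧ fV.eval z = 0 := by
    intro θ hθ
    have h3 : eval₂ jE θ f = 0 := by
      rw [hfk, aeval_def, eval₂_map] at hθ
      exact hθ
    have h4 : IsIntegral V θ := by
      obtain ⟨ℓ, hℓ⟩ := hlead
      refine ⟨C (jA (ℓ⁻¹ : Aˣ)) * fV, ?_, ?_⟩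
      · rw [Monic, leadingCoeff_mul, leadingCoeff_C, hfV,
          leadingCoeff_map_of_injective (show Function.Injective jA from fun a b h =>
            hjinj (congrArg Subtype.val h)), ← hℓ, ← map_mul]
        simp
      · rw [eval₂_mul, hfV, eval₂_map]
        have : (algebraMap V (algebraicClosure k Ω)).comp jA = jE := RingHom.ext fun a => rfl
        rw [this, h3, mul_zero]
    obtain ⟨z, hz⟩ := IsIntegrallyClosed.isIntegral_iff.mp h4
    refine ⟨z, hz, ?_⟩
    apply Subtype.val_injective
    have h5 : algebraMap V (algebraicClosure k Ω) (fV.eval z) = eval₂ jE θ f := by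
      rw [hfV, eval_map, hom_eval₂, hz]
      rfl
    exact h5.trans (h3.trans (map_zero (algebraMap V (algebraicClosure k Ω))).symm)
  have hder : ∀ z : V, fV.eval z = 0 → (fV.map (residue V)).derivative.eval (residue V z) ≠ 0 := by
    intro z hz h0
    have h3 : (fV.map (residue V)).eval (residue V z) = 0 := by
      rw [eval_map, eval₂_at_apply, hz, map_zero]
    have h4 := hsepV.eval₂_derivative_ne_zero (RingHom.id _) (x := residue V z)
      (by rw [eval₂_id]; exact h3)
    rw [eval₂_id] at h4
    exact h4 h0
  -- separability over `k`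
  have hsepk : fk.Separable := by
    rw [← separable_map (algebraMap k (algebraicClosure k Ω)), Polynomial.Separable,
      Polynomial.isCoprime_iff_aeval_ne_zero_of_isAlgClosed (algebraicClosure k Ω)
        (algebraicClosure k Ω)]
    intro θ
    by_contra hc
    push Not at hc
    obtain ⟨h3, h4⟩ := hc
    rw [coe_aeval_eq_eval, eval_map_algebraMap] at h3
    rw [coe_aeval_eq_eval, derivative_map, eval_map_algebraMap] at h4
    obtain ⟨z, hzθ, hz⟩ := hroots θ h3
    apply hder z hz
    have h5 : (derivative fV).eval z = 0 := by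
      apply Subtype.val_injective
      have h6 : algebraMap V (algebraicClosure k Ω) ((derivative fV).eval z) =
          aeval θ (derivative fk) := by
        rw [hfV, derivative_map, eval_map, hom_eval₂, aeval_def, hfk, derivative_map, eval₂_map]
        rw [show algebraMap V (algebraicClosure k Ω) z = θ from hzθ]
        rfl
      exact h6.trans (h4.trans (map_zero (algebraMap V (algebraicClosure k Ω))).symm)
    rw [derivative_map, eval_map, eval₂_at_apply, h5, map_zero]
  have hsepv : ∀ θ θ' : algebraicClosure k Ω, aeval θ fk = 0 → aeval θ' fk = 0 → θ ≠ θ' →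
      V.valuation (θ - θ') = 1 := by
    intro θ θ' hθ hθ' hne
    obtain ⟨z, hzθ, hz⟩ := hroots θ hθ
    obtain ⟨z', hzθ', hz'⟩ := hroots θ' hθ'
    have h3 : V.valuation (θ - θ') ≤ 1 := by
      rw [← hzθ, ← hzθ']
      exact V.valuation_le_one (z - z')
    refine le_antisymm h3 ?_
    by_contra hlt
    push Not at hlt
    have h4 : residue V z = residue V z' := by
      rw [← sub_eq_zero, ← map_sub, residue_eq_zero_iff, ValuationSubring.valuation_lt_one_iff]
      have : ((z - z' : V) : algebraicClosure k Ω) = θ - θ' := by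
        rw [← hzθ, ← hzθ']
        rfl
      rw [this]
      exact hlt
    -- `fV = (X - z) * g`
    obtain ⟨g, hg⟩ : X - C z ∣ fV := dvd_iff_isRoot.mpr hz
    have h5 : g.eval z' = 0 := by
      have h6 := hz'
      rw [hg, eval_mul, eval_sub, eval_X, eval_C] at h6
      rcases mul_eq_zero.mp h6 with h7 | h7
      · exfalso
        apply hne
        rw [← hzθ, ← hzθ', sub_eq_zero.mp h7]
      · exact h7
    apply hder z hz
    rw [hg, Polynomial.map_mul, derivative_mul, eval_add, eval_mul, eval_mul]
    have h8 : (g.map (residue V)).eval (residue V z) = 0 := by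
      rw [h4, eval_map, eval₂_at_apply, h5, map_zero]
    rw [h8]
    simp
  have hint : ∀ θ : algebraicClosure k Ω, aeval θ fk = 0 → V.valuation θ ≤ 1 := by
    intro θ hθ
    obtain ⟨z, hzθ, -⟩ := hroots θ hθ
    rw [← hzθ]
    exact V.valuation_le_one z
  -- the inertia element on the square root
  have ht0 : t ≠ 0 := by
    rintro rfl
    rw [zero_pow (by norm_num)] at ht
    exact hϖ.ne_zero (hjinj (ht.symm.trans (map_zero jE).symm))
  have hunit1 : ∀ a : A, IsUnit a → V.valuation (jE a) = 1 := by
    intro a ha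
    have := (V.valuation_eq_one_iff (jA a)).mp (ha.map jA)
    exact this
  have hτc : ∀ w : algebraicClosure k Ω,
      w ^ 2 = algebraMap k (algebraicClosure k Ω) (algebraMap A k (u * ϖ ^ n) / fk.leadingCoeff) →
      τ w = -w := by
    intro w hw
    have h3 : w ^ 2 = jE u / jE f.leadingCoeff * (t ^ n) ^ 2 := by
      rw [hw, hleadk, map_div₀, ← pow_mul, mul_comm n 2, pow_mul, ht, map_mul, map_mul, map_pow,
        map_pow]
      show _ = algebraMap k _ (algebraMap A k u) / algebraMap k _ (algebraMap A k f.leadingCoeff) *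
        algebraMap k _ (algebraMap A k ϖ) ^ n
      ring
    have htn : t ^ n ≠ 0 := pow_ne_zero _ ht0
    have h4 : (w / t ^ n) ^ 2 = jE u / jE f.leadingCoeff := by
      rw [div_pow, h3, mul_div_assoc, div_self (pow_ne_zero 2 htn), mul_one]
    have h5 : V.valuation (w / t ^ n) = 1 := by
      have h6 : V.valuation (w / t ^ n) ^ 2 = 1 := by
        rw [← map_pow, h4, map_div₀, hunit1 u hu, hunit1 _ hlead, div_one]
      exact (pow_eq_one_iff_of_nonneg zero_le (by norm_num)).mp h6
    have h7 : τ (w / t ^ n) = w / t ^ n := by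
      refine hl.fix_root 1 h5 ?_
      show τ ((w / t ^ n) ^ 2 ^ 1) = (w / t ^ n) ^ 2 ^ 1
      rw [pow_one, h4, map_div₀]
      congr 1
      · exact τ.commutes _
      · exact τ.commutes _
    have h8 : w = w / t ^ n * t ^ n := by rw [div_mul_cancel₀ _ htn]
    rw [h8, map_mul, h7, map_pow, hτt, hn.neg_pow]
    ring
  have hc : algebraMap A k (u * ϖ ^ n) ≠ 0 := by
    rw [Ne, map_eq_zero_iff _ hinjk]
    exact mul_ne_zero hu.ne_zero (pow_ne_zero _ hϖ.ne_zero)
  obtain ⟨θ, hθ, hφθ⟩ := exists_fixed_root s hl fk hsepk (by rw [hdegk]; exact heven)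
    (by rw [hdegk]; exact h6) (algebraMap A k (u * ϖ ^ n)) hc x y hx hxy hint hsepv hτc
  obtain ⟨z, hzθ, hz⟩ := hroots θ hθ
  have h3 : (residue V z) ^ Nat.card (ResidueField A) = residue V z := by
    rw [← map_pow, ← sub_eq_zero, ← map_sub, residue_eq_zero_iff,
      ValuationSubring.valuation_lt_one_iff]
    have h4 := hl.hφ θ (hint θ hθ)
    have h5 : ((z ^ Nat.card (ResidueField A) - z : V) : algebraicClosure k Ω) =
        θ ^ Nat.card (ResidueField A) - θ := by
      rw [← hzθ]
      rfl
    rw [h5, Valuation.map_sub_swap]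
    have h6 : (φ : algebraicClosure k Ω →+* algebraicClosure k Ω) θ = θ := hφθ
    rw [h6] at h4
    exact h4
  obtain ⟨a, ha⟩ := mem_range_of_pow_card j (residue V z) h3
  apply hroot a
  apply j.injective
  rw [map_zero, ← eval₂_at_apply, ← eval_map, ← hfVres, ha, eval_map, eval₂_at_apply, hz, map_zero]

end Pool.Agent.Helper19.Sec
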