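import Mathlib
import Pool.Agent.Helper19.Sec.Local

/-!
The local theorem at a prime of `ℚ`.
-/

set_option autoImplicit false

namespace Pool.Agent.Helper19.Sec

open Polynomial Pool.Agent.Helper36 IsLocalRing

/-- some extension `K` of `ℚ` containing elements `x`, `y` with `x` transcendental and
`d y² = f(x)` has a section -/
def HasSection (f : ℤ[X]) (d : ℤ) : Prop :=
  ∃ (K Ω : Type) (_ : Field K) (_ : Field Ω) (_ : Algebra ℚ K) (_ : Algebra K Ω) (_ : Algebra ℚ Ω)
    (_ : IsScalarTower ℚ K Ω) (_ : IsAlgClosure K Ω) (x y : K), Transcendental ℚ x ∧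
    (d : K) * y ^ 2 = aeval x f ∧ Nonempty (PiOneSection ℚ K Ω)

theorem no_section_int (f : ℤ[X]) (heven : Even f.natDegree) (h6 : 6 ≤ f.natDegree) (p : ℕ)
    [hp : Fact p.Prime] (hp2 : p ≠ 2) (hlead : ¬ (p : ℤ) ∣ f.leadingCoeff)
    (hsep : (f.map (Int.castRingHom (ZMod p))).Separable)
    (hroot : ∀ z : ZMod p, (f.map (Int.castRingHom (ZMod p))).eval z ≠ 0) (u : ℤ)
    (hu : ¬ (p : ℤ) ∣ u) (n : ℕ) (hn : Odd n) : ¬ HasSection f (u * p ^ n) := by
  rintro ⟨K, Ω, _, _, _, _, _, _, _, x, y, hx, hxy, ⟨s⟩⟩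
  let P : Ideal ℤ := Ideal.span {(p : ℤ)}
  have hpZ : Prime (p : ℤ) := Nat.prime_iff_prime_int.mp hp.out
  have hP0 : P ≠ ⊥ := by
    rw [Ne, Ideal.span_singleton_eq_bot]
    exact hpZ.ne_zero
  have hPprime : P.IsPrime := (Ideal.span_singleton_prime hpZ.ne_zero).mpr hpZ
  have hPmax : P.IsMaximal := hPprime.isMaximal hP0
  let A := Localization.AtPrime P
  have hmemP : ∀ z : ℤ, z ∈ P ↔ (p : ℤ) ∣ z := fun z => Ideal.mem_span_singleton
  have hle : P.primeCompl ≤ nonZeroDivisors ℤ := P.primeCompl_le_nonZeroDivisors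
  let _ : Algebra A ℚ := (IsLocalization.lift (M := P.primeCompl) (S := A)
    (g := Int.castRingHom ℚ) (by
      intro z
      have : (z : ℤ) ≠ 0 := nonZeroDivisors.ne_zero (hle z.2)
      simpa using this)).toAlgebra
  have htow : ∀ z : ℤ, algebraMap ℤ ℚ z = algebraMap A ℚ (algebraMap ℤ A z) := by
    intro z
    rw [RingHom.algebraMap_toAlgebra (R := A) (S := ℚ), IsLocalization.lift_eq]
    rfl
  have htower := IsScalarTower.of_algebraMap_eq (R := ℤ) (S := A) (A := ℚ) htow
  have hfrac : IsFractionRing A ℚ :=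
    IsFractionRing.isFractionRing_of_isLocalization P.primeCompl A ℚ hle
  have hdom : IsDomain A := IsLocalization.isDomain_localization hle
  have hdvr : IsDiscreteValuationRing A :=
    IsLocalization.AtPrime.isDiscreteValuationRing_of_dedekind_domain ℤ hP0 A
  -- the residue field
  let e0 : (ℤ ⧸ P) ≃+* ResidueField A := IsLocalization.AtPrime.equivQuotMaximalIdeal P A
  let e1 : (ℤ ⧸ P) ≃+* ZMod p := Int.quotientSpanNatEquivZMod p
  let e : ZMod p ≃+* ResidueField A := e1.symm.trans e0
  have hfin : Finite (ResidueField A) := Finite.of_equiv _ e.toEquiv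
  have hres : (residue A).comp (algebraMap ℤ A) =
      (e : ZMod p →+* ResidueField A).comp (Int.castRingHom (ZMod p)) := RingHom.ext_int _ _
  have hunit : ∀ z : ℤ, ¬ (p : ℤ) ∣ z → IsUnit (algebraMap ℤ A z) := by
    intro z hz
    exact IsLocalization.map_units A (⟨z, fun h => hz ((hmemP z).mp h)⟩ : P.primeCompl)
  have hinjA : Function.Injective (algebraMap ℤ A) := IsLocalization.injective A hle
  have hres' : (f.map (algebraMap ℤ A)).map (residue A) =
      (f.map (Int.castRingHom (ZMod p))).map (e : ZMod p →+* ResidueField A) := by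
    rw [Polynomial.map_map, Polynomial.map_map, hres]
  have h2 : IsUnit (2 : A) := by
    have := hunit 2 (by
      intro h
      have h3 : p ∣ 2 := by exact_mod_cast h
      exact hp2 ((Nat.prime_dvd_prime_iff_eq hp.out Nat.prime_two).mp h3))
    simpa using this
  have hirr : Irreducible (algebraMap ℤ A (p : ℤ)) := by
    rw [IsDiscreteValuationRing.irreducible_iff_uniformizer,
      ← IsLocalization.AtPrime.map_eq_maximalIdeal P A, Ideal.map_span, Set.image_singleton]
  refine (no_section (A := A) (k := ℚ) h2 (f.map (algebraMap ℤ A)) ?_ ?_ ?_ ?_ ?_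
    (algebraMap ℤ A p) hirr (algebraMap ℤ A u) (hunit u hu) n hn x y hx ?_).false s
  · rw [natDegree_map_eq_of_injective hinjA]; exact heven
  · rw [natDegree_map_eq_of_injective hinjA]; exact h6
  · rw [leadingCoeff_map_of_injective hinjA]; exact hunit _ hlead
  · rw [hres']; exact hsep.map
  · intro z hz
    rw [hres'] at hz
    apply hroot (e.symm z)
    apply e.injective
    have h3 : e (e.symm z) = z := e.apply_symm_apply z
    have h4 := eval₂_at_apply (p := f.map (Int.castRingHom (ZMod p)))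
      (e : ZMod p →+* ResidueField A) (e.symm z)
    rw [← eval_map] at h4
    have h5 : (e : ZMod p →+* ResidueField A) (e.symm z) = z := h3
    rw [h5, hz] at h4
    rw [map_zero]
    exact h4.symm
  · have h4 : (algebraMap A ℚ).comp (algebraMap ℤ A) = algebraMap ℤ ℚ :=
      RingHom.ext fun z => (htow z).symm
    rw [Polynomial.map_map, h4, ← map_pow, ← map_mul, ← htow]
    have h3 : aeval x (f.map (algebraMap ℤ ℚ)) = aeval x f := by
      rw [aeval_map_algebraMap]
    rw [h3, ← hxy, eq_intCast (algebraMap ℤ ℚ), map_intCast]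

end Pool.Agent.Helper19.Sec
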