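import Mathlib
import Pool.Agent.Helper19.Sec.Rat
import Pool.Agent.Helper19.Sec.Div
import Pool.Agent.Helper19.Sec.Den

/-!
The global theorem: almost all quadratic twists have no section.
-/

set_option autoImplicit false

namespace Pool.Agent.Helper19.Sec

open Polynomial Pool.Agent.Helper36

/-- a separable integral polynomial is separable modulo all large primes -/
lemma exists_sep_bound (f : ℤ[X]) (hf : (f.map (Int.castRingHom ℚ)).Separable) :
    ∃ N : ℕ, ∀ p : ℕ, p.Prime → N ≤ p → (f.map (Int.castRingHom (ZMod p))).Separable := by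
  obtain ⟨a, b, hab⟩ := hf
  obtain ⟨m, hm, ha⟩ := IsLocalization.integerNormalization_spec (nonZeroDivisors ℤ) a
  obtain ⟨n, hn, hb⟩ := IsLocalization.integerNormalization_spec (nonZeroDivisors ℤ) b
  set A := IsLocalization.integerNormalization (nonZeroDivisors ℤ) a with hA
  set B := IsLocalization.integerNormalization (nonZeroDivisors ℤ) b with hB
  have hm0 : m ≠ 0 := nonZeroDivisors.ne_zero hm
  have hn0 : n ≠ 0 := nonZeroDivisors.ne_zero hn
  have hcast : (algebraMap ℤ ℚ) = Int.castRingHom ℚ := rfl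
  have key : C n * A * f + C m * B * derivative f = C (m * n) := by
    apply map_injective (Int.castRingHom ℚ) Int.cast_injective
    rw [Polynomial.map_add, Polynomial.map_mul, Polynomial.map_mul, Polynomial.map_mul,
      Polynomial.map_mul, ← derivative_map, ← hcast, ha, hb, hcast]
    simp only [Polynomial.map_C, map_mul]
    simp only [zsmul_eq_mul, eq_intCast, map_intCast, Polynomial.map_mul, Polynomial.map_intCast]
    linear_combination ((m : ℚ[X]) * n) * hab
  refine ⟨(m * n).natAbs + 1, fun p hp hNp => ?_⟩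
  have hpf := Fact.mk hp
  have hne : ((m * n : ℤ) : ZMod p) ≠ 0 := by
    rw [Ne, ZMod.intCast_zmod_eq_zero_iff_dvd]
    intro hdvd
    have h1 := Int.natAbs_dvd_natAbs.mpr hdvd
    rw [Int.natAbs_natCast] at h1
    have h2 := Nat.le_of_dvd (Int.natAbs_pos.mpr (mul_ne_zero hm0 hn0)) h1
    omega
  have h3 := congrArg (Polynomial.map (Int.castRingHom (ZMod p))) key
  rw [Polynomial.map_add, Polynomial.map_mul, Polynomial.map_mul, Polynomial.map_mul,
    Polynomial.map_mul, ← derivative_map, Polynomial.map_C, Polynomial.map_C, Polynomial.map_C]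
    at h3
  refine ⟨C (((m * n : ℤ) : ZMod p)⁻¹) * (C ((Int.castRingHom (ZMod p)) n) *
    A.map (Int.castRingHom (ZMod p))), C (((m * n : ℤ) : ZMod p)⁻¹) *
    (C ((Int.castRingHom (ZMod p)) m) * B.map (Int.castRingHom (ZMod p))), ?_⟩
  have h4 : C (((m * n : ℤ) : ZMod p)⁻¹) * C ((Int.castRingHom (ZMod p)) (m * n)) = 1 := by
    rw [← C_mul, eq_intCast, inv_mul_cancel₀ hne, C_1]
  rw [← h4, ← h3]
  ring

theorem almost_all (f : ℤ[X]) (hirr : Irreducible (f.map (Int.castRingHom ℚ)))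
    (heven : Even f.natDegree) (h6 : 6 ≤ f.natDegree) :
    Filter.Tendsto (fun N : ℕ => (Nat.card {d : ℤ // |d| ≤ N ∧ HasSection f d} : ℝ) / N)
      Filter.atTop (nhds 0) := by
  obtain ⟨N1, hN1⟩ := exists_sep_bound f hirr.separable
  have hf0 : f ≠ 0 := by
    rintro rfl
    rw [natDegree_zero] at h6
    omega
  have hlead : f.leadingCoeff ≠ 0 := leadingCoeff_ne_zero.mpr hf0
  set N0 := N1 + f.leadingCoeff.natAbs + 3 with hN0
  set P : Set ℕ := {p : ℕ | p.Prime ∧ N0 ≤ p ∧
    ∀ z : ZMod p, (f.map (Int.castRingHom (ZMod p))).eval z ≠ 0} with hP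
  have hden := density_zero P (fun p hp => hp.1) (no_root_primes f hirr (by omega) N0)
  refine squeeze_zero (fun N => by positivity) (fun N => ?_) hden
  apply div_le_div_of_nonneg_right _ (Nat.cast_nonneg N)
  have hfin : Finite {d : ℤ // |d| ≤ N ∧ ∀ p ∈ P, (p : ℤ) ∣ d → (p : ℤ) ^ 2 ∣ d} := by
    have : Set.Finite {d : ℤ | |d| ≤ N ∧ ∀ p ∈ P, (p : ℤ) ∣ d → (p : ℤ) ^ 2 ∣ d} := by
      refine (Set.finite_Icc (-(N : ℤ)) N).subset ?_
      rintro d ⟨hd, -⟩
      exact abs_le.mp hd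
    exact this
  have hinc : ∀ d : ℤ, (|d| ≤ N ∧ HasSection f d) →
      (|d| ≤ N ∧ ∀ p ∈ P, (p : ℤ) ∣ d → (p : ℤ) ^ 2 ∣ d) := by
    rintro d ⟨hd, hsec⟩
    refine ⟨hd, fun p hp hpd => ?_⟩
    by_contra hp2
    obtain ⟨u, rfl⟩ := hpd
    have hpf := Fact.mk hp.1
    have hpN : N0 ≤ p := hp.2.1
    have hu : ¬ (p : ℤ) ∣ u := by
      rintro ⟨w, rfl⟩
      exact hp2 ⟨w, by ring⟩
    have hl : ¬ (p : ℤ) ∣ f.leadingCoeff := by
      intro hdvd
      have h1 := Int.natAbs_dvd_natAbs.mpr hdvd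
      rw [Int.natAbs_natCast] at h1
      have h2 := Nat.le_of_dvd (Int.natAbs_pos.mpr hlead) h1
      omega
    refine no_section_int f heven h6 p (by omega) hl (hN1 p hp.1 (by omega)) hp.2.2 u hu 1
      odd_one ?_
    rw [pow_one, mul_comm]
    exact hsec
  exact_mod_cast Nat.card_le_card_of_injective
    (fun d : {d : ℤ // |d| ≤ N ∧ HasSection f d} =>
      (⟨d.1, hinc d.1 d.2⟩ : {d : ℤ // |d| ≤ N ∧ ∀ p ∈ P, (p : ℤ) ∣ d → (p : ℤ) ^ 2 ∣ d}))
    (fun a b h => Subtype.ext (congrArg (fun z => z.1) h))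

end Pool.Agent.Helper19.Sec
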