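import Pool.Agent.Helper19.Sec.Zeta2
import Pool.Agent.Helper19.Sec.RK

/-!
Module ZETA: `∑ r_K(p) p^{-s} = log (1 / (s - 1)) + O(1)`.
-/

set_option autoImplicit false

namespace Pool.Agent.Helper19.Sec

open NumberField

namespace ZetaAux

open Ideal Filter Topology IsDedekindDomain

variable (K : Type*) [Field K] [NumberField K]

/-- primes of degree one -/
abbrev D1 : Set (HeightOneSpectrum (𝓞 K)) := {v | (absNorm v.asIdeal).Prime}

/-- the norm as a prime number -/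
noncomputable def gp (a : D1 K) : Nat.Primes := ⟨absNorm a.1.asIdeal, a.2⟩

lemma card_fiber (p : Nat.Primes) : Nat.card (gp K ⁻¹' {p}) = rK K p := by
  have hp : Fact (p : ℕ).Prime := ⟨p.2⟩
  -- the prime ideal attached to a homomorphism
  have hsurj : ∀ φ : 𝓞 K →+* ZMod p, Function.Surjective φ := fun φ => ZMod.ringHom_surjective φ
  have hnorm : ∀ φ : 𝓞 K →+* ZMod p, absNorm (RingHom.ker φ) = p := by
    intro φ
    have e := RingHom.quotientKerEquivOfSurjective (hsurj φ)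
    have h1 : absNorm (RingHom.ker φ) = Nat.card (𝓞 K ⧸ RingHom.ker φ) := rfl
    rw [h1, Nat.card_congr e.toEquiv, Nat.card_zmod]
  have hbot : ∀ φ : 𝓞 K →+* ZMod p, RingHom.ker φ ≠ ⊥ := by
    intro φ h
    have h1 := hnorm φ
    rw [h, absNorm_bot] at h1
    exact p.2.ne_zero h1.symm
  let F : (𝓞 K →+* ZMod p) → (gp K ⁻¹' {p}) := fun φ =>
    ⟨⟨⟨RingHom.ker φ, RingHom.ker_isPrime φ, hbot φ⟩, by
      change (absNorm (RingHom.ker φ)).Prime
      rw [hnorm φ]; exact p.2⟩, by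
      rw [Set.mem_preimage, Set.mem_singleton_iff]
      exact Subtype.ext (hnorm φ)⟩
  have hF : Function.Bijective F := by
    constructor
    · intro φ ψ h
      have h1 : RingHom.ker φ = RingHom.ker ψ :=
        congrArg (fun a : (gp K ⁻¹' {p}) => a.1.1.asIdeal) h
      exact ZMod.ringHom_eq_of_ker_eq φ ψ h1
    · rintro ⟨⟨v, hv⟩, hvp⟩
      have hN : absNorm v.asIdeal = p := congrArg Subtype.val hvp
      have hfin : Finite (𝓞 K ⧸ v.asIdeal) := by
        rw [← absNorm_ne_zero_iff, Ne, absNorm_eq_zero_iff]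
        exact v.ne_bot
      let _ := Fintype.ofFinite (𝓞 K ⧸ v.asIdeal)
      have hcard : Fintype.card (𝓞 K ⧸ v.asIdeal) = p := by
        rw [← Nat.card_eq_fintype_card]; exact hN
      let e := ZMod.ringEquivOfPrime (𝓞 K ⧸ v.asIdeal) p.2 hcard
      refine ⟨(e.symm : (𝓞 K ⧸ v.asIdeal) →+* ZMod p).comp (Ideal.Quotient.mk v.asIdeal), ?_⟩
      apply Subtype.ext
      apply Subtype.ext
      apply HeightOneSpectrum.ext
      change RingHom.ker _ = v.asIdeal
      rw [RingHom.ker_comp_of_injective _ e.symm.injective, Ideal.mk_ker]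
  exact (Nat.card_eq_of_bijective F hF).symm

lemma hasSum_rK {s : ℝ} (hs : 1 < s) :
    HasSum (fun p : Nat.Primes => (rK K p : ℝ) * ((p : ℕ) : ℝ) ^ (-s))
      (∑' a : D1 K, pf K s a.1) := by
  have h1 : Summable (fun a : D1 K => pf K s a.1) := (summable_pf K hs).subtype (D1 K)
  have h2 := h1.hasSum.tsum_fiberwise (gp K)
  have h0 : (fun p : Nat.Primes => (rK K p : ℝ) * ((p : ℕ) : ℝ) ^ (-s)) =
      fun p => ∑' b : gp K ⁻¹' {p}, pf K s b.1.1 := ?_
  · rw [h0]; exact h2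
  funext p
  have h3 : ∀ b : gp K ⁻¹' {p}, pf K s b.1.1 = ((p : ℕ) : ℝ) ^ (-s) := by
    intro b
    have h4 : gp K b.1 = p := b.2
    have h5 : absNorm b.1.1.asIdeal = p := congrArg Subtype.val h4
    rw [pf, nf_apply, h5]
  rw [tsum_congr h3, tsum_const, nsmul_eq_mul, card_fiber]

lemma diff_le {s : ℝ} (hs : 1 < s) :
    |∑' v, pf K s v - ∑' a : D1 K, pf K s a.1| ≤ DD K := by
  have h1 := (summable_pf K hs).tsum_subtype_add_tsum_subtype_compl (D1 K)
  have h2 : ∑' v, pf K s v - ∑' a : D1 K, pf K s a.1 = ∑' a : ((D1 K)ᶜ : Set _), pf K s a.1 := by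
    rw [← h1]; ring
  rw [h2, abs_of_nonneg (tsum_nonneg fun a => pf_nonneg K s _)]
  refine ((summable_pf K hs).subtype _).tsum_le_of_sum_le fun S => ?_
  have h3 : ∑ a ∈ S, pf K s a.1 ≤ ∑ a ∈ S, 1 / (pv K a.1 : ℝ) ^ 2 :=
    Finset.sum_le_sum fun a _ => pf_le_of_not_prime K hs.le a.1 a.2
  refine h3.trans ?_
  have h4 := sum_pv K (S.map ⟨Subtype.val, Subtype.val_injective⟩)
  rw [Finset.sum_map] at h4
  exact h4

end ZetaAux

open ZetaAux in
/-- `∑ r_K(p) p^{-s} = log (1 / (s - 1)) + O(1)` -/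
theorem rK_sum (K : Type*) [Field K] [NumberField K] : ∃ B : ℝ, ∀ s : ℝ, 1 < s → s ≤ 2 →
    Summable (fun p : Nat.Primes => (rK K p : ℝ) * ((p : ℕ) : ℝ) ^ (-s)) ∧
    |(∑' p : Nat.Primes, (rK K p : ℝ) * ((p : ℕ) : ℝ) ^ (-s)) - Real.log (1 / (s - 1))| ≤ B := by
  obtain ⟨C, hC⟩ := log_Z K
  refine ⟨DD K + 2 * DD K + C, fun s hs hs2 => ?_⟩
  have h1 := hasSum_rK K hs
  refine ⟨h1.summable, ?_⟩
  rw [h1.tsum_eq]
  have h2 := diff_le K hs
  have h3 := sum_pf_log K hs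
  have h4 := hC s hs hs2
  rw [abs_le] at h2 h3 h4 ⊢
  constructor
  · linarith [h2.1, h3.1, h4.1, h2.2, h3.2, h4.2]
  · linarith [h2.1, h3.1, h4.1, h2.2, h3.2, h4.2]

end Pool.Agent.Helper19.Sec
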