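import Mathlib

/-!
Module ZETA, part 1: the Dedekind zeta function as a sum over ideals, behaviour at `s = 1`.
-/

set_option autoImplicit false

namespace Pool.Agent.Helper19.Sec.ZetaAux

open NumberField Ideal Filter Topology IsDedekindDomain

variable (K : Type*) [Field K] [NumberField K]

/-- the power `N(I)^{-s}` as a multiplicative function on ideals -/
noncomputable def nf (s : ℝ) : Ideal (𝓞 K) →* ℝ where
  toFun I := (absNorm I : ℝ) ^ (-s)
  map_one' := by simp
  map_mul' I J := by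
    rw [map_mul, Nat.cast_mul, Real.mul_rpow (Nat.cast_nonneg _) (Nat.cast_nonneg _)]

lemma nf_apply (s : ℝ) (I : Ideal (𝓞 K)) : nf K s I = (absNorm I : ℝ) ^ (-s) := rfl

lemma nf_nonneg (s : ℝ) (I : Ideal (𝓞 K)) : 0 ≤ nf K s I :=
  Real.rpow_nonneg (Nat.cast_nonneg _) _

/-- number of ideals of norm `n` -/
noncomputable def aco (n : ℕ) : ℕ := Nat.card {I : Ideal (𝓞 K) // absNorm I = n}

lemma finite_fiber (n : ℕ) : Finite {I : Ideal (𝓞 K) // absNorm I = n} :=
  (finite_setOfPred_absNorm_eq (S := 𝓞 K) n).to_subtype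

lemma term_eq (s : ℝ) (hs : 1 < s) (n : ℕ) :
    LSeries.term (fun n ↦ ((aco K n : ℕ) : ℂ)) (s : ℂ) n =
      (((aco K n : ℝ) * (n : ℝ) ^ (-s) : ℝ) : ℂ) := by
  rcases eq_or_ne n 0 with rfl | hn
  · rw [LSeries.term_zero]
    have : ((0 : ℕ) : ℝ) ^ (-s) = 0 := by
      rw [Nat.cast_zero]
      exact Real.zero_rpow (by linarith)
    rw [this, mul_zero, Complex.ofReal_zero]
  · rw [LSeries.term_of_ne_zero hn, Complex.ofReal_mul, Complex.ofReal_cpow (Nat.cast_nonneg _)]
    push_cast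
    rw [Complex.cpow_neg, div_eq_mul_inv]

lemma zeta_ne_zero_near : ∀ᶠ s : ℝ in 𝓝[>] 1, dedekindZeta K s ≠ 0 := by
  have h := tendsto_sub_one_mul_dedekindZeta_nhdsGT K
  have hr : ((dedekindZeta_residue K : ℝ) : ℂ) ≠ 0 := by
    exact_mod_cast dedekindZeta_residue_ne_zero K
  filter_upwards [h.eventually_ne hr] with s hs h0
  exact hs (by rw [h0, mul_zero])

lemma lseries_summable (s : ℝ) (hs : 1 < s) :
    LSeriesSummable (fun n ↦ ((aco K n : ℕ) : ℂ)) (s : ℂ) := by
  have h1 := zeta_ne_zero_near K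
  have h2 : ∀ᶠ t : ℝ in 𝓝[>] 1, t < s := nhdsWithin_le_nhds (Iio_mem_nhds hs)
  obtain ⟨t, ht1, ht2⟩ := (h1.and h2).exists
  have h3 : LSeriesSummable (fun n ↦ ((aco K n : ℕ) : ℂ)) (t : ℂ) := by
    by_contra hcon
    exact ht1 (LSeries.eq_zero_of_not_LSeriesSummable _ _ hcon)
  exact h3.of_re_le_re (by simpa using ht2.le)

lemma summable_aco (s : ℝ) (hs : 1 < s) : Summable (fun n : ℕ => (aco K n : ℝ) * (n : ℝ) ^ (-s)) := by
  have h := lseries_summable K s hs
  unfold LSeriesSummable at h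
  have h2 : LSeries.term (fun n ↦ ((aco K n : ℕ) : ℂ)) (s : ℂ) =
      fun n => (((aco K n : ℝ) * (n : ℝ) ^ (-s) : ℝ) : ℂ) := by
    ext n; exact term_eq K s hs n
  rw [h2] at h
  exact_mod_cast Complex.summable_ofReal.1 h

lemma tsum_fiber (s : ℝ) (n : ℕ) :
    ∑' I : {I : Ideal (𝓞 K) // absNorm I = n}, nf K s I.1 = (aco K n : ℝ) * (n : ℝ) ^ (-s) := by
  have := finite_fiber K n
  have h : ∀ I : {I : Ideal (𝓞 K) // absNorm I = n}, nf K s I.1 = (n : ℝ) ^ (-s) := by
    intro I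
    rw [nf_apply, I.2]
  rw [tsum_congr h, tsum_const, nsmul_eq_mul]
  rfl

lemma summable_nf (s : ℝ) (hs : 1 < s) : Summable (nf K s) := by
  rw [← (Equiv.sigmaFiberEquiv (fun I : Ideal (𝓞 K) => absNorm I)).summable_iff]
  have hnn : ∀ x : (y : ℕ) × {x : Ideal (𝓞 K) // absNorm x = y},
      0 ≤ (⇑(nf K s) ∘ ⇑(Equiv.sigmaFiberEquiv (fun I : Ideal (𝓞 K) => absNorm I))) x :=
    fun x => nf_nonneg K s _
  rw [summable_sigma_of_nonneg hnn]
  refine ⟨fun n => ?_, ?_⟩
  · have := finite_fiber K n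
    exact Summable.of_finite
  · have h : (fun n => ∑' I : {I : Ideal (𝓞 K) // absNorm I = n},
        (⇑(nf K s) ∘ ⇑(Equiv.sigmaFiberEquiv (fun I : Ideal (𝓞 K) => absNorm I))) ⟨n, I⟩) =
        fun n => (aco K n : ℝ) * (n : ℝ) ^ (-s) := by
      ext n
      exact tsum_fiber K s n
    rw [h]
    exact summable_aco K s hs

/-- the zeta function at real arguments -/
noncomputable def Z (s : ℝ) : ℝ := ∑' I : Ideal (𝓞 K), nf K s I

lemma Z_eq (s : ℝ) (hs : 1 < s) : Z K s = ∑' n : ℕ, (aco K n : ℝ) * (n : ℝ) ^ (-s) := by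
  have h := (summable_nf K s hs).hasSum.tsum_fiberwise (fun I : Ideal (𝓞 K) => absNorm I)
  rw [Z, ← h.tsum_eq]
  refine tsum_congr fun n => ?_
  exact tsum_fiber K s n

lemma zeta_eq (s : ℝ) (hs : 1 < s) : dedekindZeta K s = ((Z K s : ℝ) : ℂ) := by
  rw [Z_eq K s hs, Complex.ofReal_tsum]
  refine tsum_congr fun n => ?_
  exact term_eq K s hs n

lemma tendsto_Z : Tendsto (fun s : ℝ => (s - 1) * Z K s) (𝓝[>] 1) (𝓝 (dedekindZeta_residue K)) := by
  have h := tendsto_sub_one_mul_dedekindZeta_nhdsGT K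
  have h1 : Tendsto (fun s : ℝ => (((s - 1) * Z K s : ℝ) : ℂ)) (𝓝[>] 1)
      (𝓝 ((dedekindZeta_residue K : ℝ) : ℂ)) := by
    refine h.congr' ?_
    filter_upwards [self_mem_nhdsWithin] with s hs
    rw [zeta_eq K s hs]
    push_cast
    ring
  have h2 := (Complex.continuous_re.tendsto _).comp h1
  rw [Complex.ofReal_re] at h2
  refine h2.congr fun s => ?_
  exact Complex.ofReal_re _

lemma one_le_Z (s : ℝ) (hs : 1 < s) : 1 ≤ Z K s := by
  have h := (summable_nf K s hs).le_tsum ⊤ (fun I _ => nf_nonneg K s I)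
  have h1 : nf K s ⊤ = 1 := by simp [nf_apply]
  rw [h1] at h
  exact h

lemma Z_anti {s t : ℝ} (hs : 1 < s) (hst : s ≤ t) : Z K t ≤ Z K s := by
  refine (summable_nf K t (hs.trans_le hst)).tsum_le_tsum (fun I => ?_) (summable_nf K s hs)
  rw [nf_apply, nf_apply]
  rcases eq_or_ne (absNorm I) 0 with h | h
  · rw [h, Nat.cast_zero, Real.zero_rpow (by linarith), Real.zero_rpow (by linarith)]
  · apply Real.rpow_le_rpow_of_exponent_le
    · exact_mod_cast Nat.one_le_iff_ne_zero.2 h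
    · linarith

/-- `log Z(s) = log (1/(s-1)) + O(1)` -/
lemma log_Z : ∃ C : ℝ, ∀ s : ℝ, 1 < s → s ≤ 2 → |Real.log (Z K s) - Real.log (1 / (s - 1))| ≤ C := by
  set ρ := dedekindZeta_residue K with hρ
  have hρ0 : 0 < ρ := dedekindZeta_residue_pos K
  have h := tendsto_Z K
  have h1 : ∀ᶠ s : ℝ in 𝓝[>] 1, (s - 1) * Z K s ∈ Set.Icc (ρ / 2) (2 * ρ) :=
    h.eventually (Icc_mem_nhds (by linarith) (by linarith))
  rw [eventually_nhdsWithin_iff, Metric.eventually_nhds_iff] at h1
  obtain ⟨δ, hδ, hδ'⟩ := h1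
  set η := min (δ / 2) 1 with hη
  have hη0 : 0 < η := lt_min (by linarith) one_pos
  set m := min (ρ / 2) η with hm
  set M := max (2 * ρ) (Z K (1 + η)) with hM
  have hm0 : 0 < m := lt_min (by linarith) hη0
  have key : ∀ s : ℝ, 1 < s → s ≤ 2 → m ≤ (s - 1) * Z K s ∧ (s - 1) * Z K s ≤ M := by
    intro s hs hs2
    rcases lt_or_ge s (1 + η) with h2 | h2
    · have h3 : dist s 1 < δ := by
        rw [Real.dist_eq, abs_of_pos (by linarith)]
        have : η ≤ δ / 2 := min_le_left _ _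
        linarith
      have h4 := hδ' h3 hs
      exact ⟨(min_le_left _ _).trans h4.1, h4.2.trans (le_max_left _ _)⟩
    · have h3 := one_le_Z K s hs
      have h4 := Z_anti K (by linarith : 1 < 1 + η) h2
      constructor
      · calc m ≤ η := min_le_right _ _
          _ ≤ s - 1 := by linarith
          _ = (s - 1) * 1 := (mul_one _).symm
          _ ≤ (s - 1) * Z K s := by gcongr
      · calc (s - 1) * Z K s ≤ 1 * Z K (1 + η) := by
              gcongr
              linarith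
            _ ≤ M := by rw [one_mul]; exact le_max_right _ _
  refine ⟨max |Real.log m| |Real.log M|, fun s hs hs2 => ?_⟩
  obtain ⟨h5, h6⟩ := key s hs hs2
  have hZ := one_le_Z K s hs
  have h7 : Real.log (Z K s) - Real.log (1 / (s - 1)) = Real.log ((s - 1) * Z K s) := by
    rw [one_div, Real.log_inv, Real.log_mul (by linarith) (by linarith)]
    ring
  rw [h7]
  have h8 := Real.log_le_log hm0 h5
  have h9 := Real.log_le_log (hm0.trans_le h5) h6
  rw [abs_le]
  constructor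
  · have := neg_abs_le (Real.log m)
    have := le_max_left |Real.log m| |Real.log M|
    linarith
  · have := le_abs_self (Real.log M)
    have := le_max_right |Real.log m| |Real.log M|
    linarith

end Pool.Agent.Helper19.Sec.ZetaAux
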