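import Pool.Agent.Helper19.Sec.Zeta1

/-!
Module ZETA, part 2: comparison of `log ζ_K(s)` with the sum over prime ideals.
-/

set_option autoImplicit false

namespace Pool.Agent.Helper19.Sec.ZetaAux

open NumberField Ideal Filter Topology IsDedekindDomain

variable (K : Type*) [Field K] [NumberField K]

lemma exists_pp (v : HeightOneSpectrum (𝓞 K)) : ∃ p n : ℕ, p.Prime ∧ 0 < n ∧
    absNorm v.asIdeal = p ^ n ∧ (p : 𝓞 K) ∈ v.asIdeal := by
  classical
  have := v.isMaximal
  let _ := Ideal.Quotient.field v.asIdeal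
  have hfin : Finite (𝓞 K ⧸ v.asIdeal) := by
    rw [← absNorm_ne_zero_iff, Ne, absNorm_eq_zero_iff]
    exact v.ne_bot
  let _ := Fintype.ofFinite (𝓞 K ⧸ v.asIdeal)
  obtain ⟨p, _, n, hp, hn⟩ := FiniteField.card' (𝓞 K ⧸ v.asIdeal)
  have h1 : absNorm v.asIdeal = p ^ (n : ℕ) := by
    rw [← hn, ← Nat.card_eq_fintype_card]
    rfl
  refine ⟨p, n, hp, n.pos, h1, ?_⟩
  have h2 := absNorm_mem v.asIdeal
  rw [h1, Nat.cast_pow] at h2
  exact v.isPrime.mem_of_pow_mem _ h2

/-- the residue characteristic -/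
noncomputable def pv (v : HeightOneSpectrum (𝓞 K)) : ℕ := Nat.minFac (absNorm v.asIdeal)

lemma pv_spec (v : HeightOneSpectrum (𝓞 K)) : (pv K v).Prime ∧ (pv K v : 𝓞 K) ∈ v.asIdeal ∧
    pv K v ≤ absNorm v.asIdeal ∧ (¬ (absNorm v.asIdeal).Prime → pv K v ^ 2 ≤ absNorm v.asIdeal) ∧
    ((absNorm v.asIdeal).Prime → pv K v = absNorm v.asIdeal) := by
  obtain ⟨p, n, hp, hn, hN, hpv⟩ := exists_pp K v
  have h : pv K v = p := by
    unfold pv
    rw [hN]
    exact hp.pow_minFac hn.ne'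
  rw [h, hN]
  refine ⟨hp, hpv, Nat.le_self_pow hn.ne' p, ?_, ?_⟩
  · intro h1
    have h2 : 2 ≤ n := by
      rcases Nat.lt_or_ge n 2 with h3 | h3
      · exfalso
        apply h1
        have : n = 1 := by omega
        rw [this, pow_one]
        exact hp
      · exact h3
    exact Nat.pow_le_pow_right hp.pos h2
  · intro h1
    rw [h1.eq_one_of_pow, pow_one]

lemma two_le (v : HeightOneSpectrum (𝓞 K)) : 2 ≤ absNorm v.asIdeal :=
  (pv_spec K v).1.two_le.trans (pv_spec K v).2.2.1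

/-- the bound for the number of primes above `p` -/
lemma card_le {p : ℕ} (hp : p.Prime) (T : Finset (HeightOneSpectrum (𝓞 K)))
    (hT : ∀ v ∈ T, (p : 𝓞 K) ∈ v.asIdeal) : T.card ≤ Module.finrank ℤ (𝓞 K) := by
  classical
  set d := Module.finrank ℤ (𝓞 K) with hd
  have hle : ∀ v ∈ T, span {(p : 𝓞 K)} ≤ v.asIdeal := fun v hv => by
    rw [span_singleton_le_iff_mem]; exact hT v hv
  have hN : absNorm (span {(p : 𝓞 K)}) = p ^ d := absNorm_span_natCast p
  have hp1 : ∀ v ∈ T, p ≤ absNorm v.asIdeal := by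
    intro v hv
    have h1 := absNorm_dvd_absNorm_of_le (hle v hv)
    rw [hN] at h1
    obtain ⟨k, -, hk⟩ := (Nat.dvd_prime_pow hp).1 h1
    have h2 := two_le K v
    rw [hk] at h2 ⊢
    refine Nat.le_self_pow ?_ p
    rintro rfl
    simp at h2
  have hinj : Set.InjOn (fun v : HeightOneSpectrum (𝓞 K) => v.asIdeal) T := by
    intro v _ w _ h
    exact HeightOneSpectrum.ext h
  have hdvd : ∏ v ∈ T, v.asIdeal ∣ span {(p : 𝓞 K)} := by
    rw [← Finset.prod_image (f := fun I : Ideal (𝓞 K) => I) hinj]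
    apply Finset.prod_primes_dvd
    · intro I hI
      obtain ⟨v, _, rfl⟩ := Finset.mem_image.1 hI
      exact prime_of_isPrime v.ne_bot v.isPrime
    · intro I hI
      obtain ⟨v, hv, rfl⟩ := Finset.mem_image.1 hI
      exact dvd_iff_le.2 (hle v hv)
  have h3 : absNorm (∏ v ∈ T, v.asIdeal) ∣ p ^ d := by
    rw [← hN]
    exact absNorm_dvd_absNorm_of_le (le_of_dvd hdvd)
  have h4 : p ^ T.card ≤ p ^ d := by
    calc p ^ T.card = ∏ v ∈ T, p := by rw [Finset.prod_const]
      _ ≤ ∏ v ∈ T, absNorm v.asIdeal := Finset.prod_le_prod' hp1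
      _ = absNorm (∏ v ∈ T, v.asIdeal) := by rw [map_prod]
      _ ≤ p ^ d := Nat.le_of_dvd (pow_pos hp.pos _) h3
  exact (Nat.pow_le_pow_iff_right hp.one_lt).1 h4

/-- the constant bounding all error sums -/
noncomputable def DD : ℝ := (Module.finrank ℤ (𝓞 K) : ℝ) * ∑' n : ℕ, 1 / (n : ℝ) ^ 2

lemma DD_nonneg : 0 ≤ DD K := by
  unfold DD
  have : 0 ≤ ∑' n : ℕ, 1 / (n : ℝ) ^ 2 := tsum_nonneg fun n => by positivity
  positivity

lemma sum_pv (S : Finset (HeightOneSpectrum (𝓞 K))) :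
    ∑ v ∈ S, 1 / (pv K v : ℝ) ^ 2 ≤ DD K := by
  classical
  have hs : Summable (fun n : ℕ => 1 / (n : ℝ) ^ 2) := Real.summable_one_div_nat_pow.2 one_lt_two
  calc ∑ v ∈ S, 1 / (pv K v : ℝ) ^ 2
      = ∑ b ∈ S.image (pv K), (S.filter (fun v => pv K v = b)).card • (1 / (b : ℝ) ^ 2) := by
        rw [Finset.sum_comp (fun b : ℕ => 1 / (b : ℝ) ^ 2) (pv K)]
    _ ≤ ∑ b ∈ S.image (pv K), (Module.finrank ℤ (𝓞 K) : ℝ) * (1 / (b : ℝ) ^ 2) := by
        refine Finset.sum_le_sum fun b hb => ?_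
        obtain ⟨v, _, rfl⟩ := Finset.mem_image.1 hb
        rw [nsmul_eq_mul]
        have h1 : (S.filter (fun w => pv K w = pv K v)).card ≤ Module.finrank ℤ (𝓞 K) := by
          apply card_le K (pv_spec K v).1
          intro w hw
          rw [Finset.mem_filter] at hw
          rw [← hw.2]
          exact (pv_spec K w).2.1
        gcongr
    _ = (Module.finrank ℤ (𝓞 K) : ℝ) * ∑ b ∈ S.image (pv K), (1 / (b : ℝ) ^ 2) := by
        rw [Finset.mul_sum]
    _ ≤ DD K := by
        unfold DD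
        gcongr
        exact hs.sum_le_tsum _ (fun n _ => by positivity)

/-- the term attached to a prime ideal -/
noncomputable def pf (s : ℝ) (v : HeightOneSpectrum (𝓞 K)) : ℝ := nf K s v.asIdeal

lemma pf_nonneg (s : ℝ) (v : HeightOneSpectrum (𝓞 K)) : 0 ≤ pf K s v := nf_nonneg K s _

lemma pf_le_inv {s : ℝ} (hs : 1 ≤ s) (v : HeightOneSpectrum (𝓞 K)) :
    pf K s v ≤ 1 / (absNorm v.asIdeal : ℝ) := by
  have h2 : (2 : ℝ) ≤ absNorm v.asIdeal := by exact_mod_cast two_le K v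
  rw [pf, nf_apply, one_div, ← Real.rpow_neg_one]
  exact Real.rpow_le_rpow_of_exponent_le (by linarith) (by linarith)

lemma pf_le_half {s : ℝ} (hs : 1 ≤ s) (v : HeightOneSpectrum (𝓞 K)) : pf K s v ≤ 1 / 2 := by
  have h2 : (2 : ℝ) ≤ absNorm v.asIdeal := by exact_mod_cast two_le K v
  refine (pf_le_inv K hs v).trans ?_
  exact one_div_le_one_div_of_le (by norm_num) h2

lemma pf_sq_le {s : ℝ} (hs : 1 ≤ s) (v : HeightOneSpectrum (𝓞 K)) :
    pf K s v ^ 2 ≤ 1 / (pv K v : ℝ) ^ 2 := by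
  have hp : (0 : ℝ) < pv K v := by exact_mod_cast (pv_spec K v).1.pos
  have hle : (pv K v : ℝ) ≤ absNorm v.asIdeal := by exact_mod_cast (pv_spec K v).2.2.1
  calc pf K s v ^ 2 ≤ (1 / (absNorm v.asIdeal : ℝ)) ^ 2 :=
        pow_le_pow_left₀ (pf_nonneg K s v) (pf_le_inv K hs v) 2
    _ ≤ (1 / (pv K v : ℝ)) ^ 2 := by gcongr
    _ = 1 / (pv K v : ℝ) ^ 2 := by rw [div_pow, one_pow]

lemma pf_le_of_not_prime {s : ℝ} (hs : 1 ≤ s) (v : HeightOneSpectrum (𝓞 K))
    (hv : ¬ (absNorm v.asIdeal).Prime) : pf K s v ≤ 1 / (pv K v : ℝ) ^ 2 := by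
  have hp : (0 : ℝ) < pv K v := by exact_mod_cast (pv_spec K v).1.pos
  have hle : (pv K v : ℝ) ^ 2 ≤ absNorm v.asIdeal := by exact_mod_cast (pv_spec K v).2.2.2.1 hv
  refine (pf_le_inv K hs v).trans ?_
  gcongr

lemma asIdeal_inj : Function.Injective (fun v : HeightOneSpectrum (𝓞 K) => v.asIdeal) := by
  intro v w h
  exact HeightOneSpectrum.ext h

lemma summable_pf {s : ℝ} (hs : 1 < s) : Summable (pf K s) :=
  (summable_nf K s hs).comp_injective (asIdeal_inj K)

lemma exp_le_one_add {t : ℝ} (ht : 0 ≤ t) : Real.exp (t - t ^ 2) ≤ 1 + t := by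
  have h1 : 0 < 1 + t := by linarith
  have h2 : t - t ^ 2 ≤ t / (1 + t) := by
    rw [le_div_iff₀ h1]; nlinarith [pow_nonneg ht 3]
  have h3 := Real.add_one_le_exp (-(t / (1 + t)))
  have h4 : -(t / (1 + t)) + 1 = (1 + t)⁻¹ := by field_simp; ring
  rw [h4, Real.exp_neg] at h3
  have h5 : Real.exp (t / (1 + t)) ≤ 1 + t := by
    have := inv_anti₀ (inv_pos.2 h1) h3
    rwa [inv_inv, inv_inv] at this
  exact (Real.exp_le_exp.2 h2).trans h5

lemma inv_le_exp {t : ℝ} (ht : 0 ≤ t) (ht2 : t ≤ 1 / 2) :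
    (1 - t)⁻¹ ≤ Real.exp (t + 2 * t ^ 2) := by
  have h1 : 0 < 1 - t := by linarith
  have h2 : t / (1 - t) ≤ t + 2 * t ^ 2 := by
    rw [div_le_iff₀ h1]; nlinarith [mul_nonneg (mul_nonneg ht ht) (by linarith : (0:ℝ) ≤ 1 - 2 * t)]
  have h3 := Real.add_one_le_exp (t / (1 - t))
  have h4 : t / (1 - t) + 1 = (1 - t)⁻¹ := by field_simp; ring
  rw [h4] at h3
  exact h3.trans (Real.exp_le_exp.2 h2)

/-- lower bound for the zeta function -/
lemma prod_le_Z {s : ℝ} (hs : 1 < s) (S : Finset (HeightOneSpectrum (𝓞 K))) :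
    ∏ v ∈ S, (1 + pf K s v) ≤ Z K s := by
  classical
  rw [Finset.prod_one_add]
  have hinj : Set.InjOn (fun A : Finset (HeightOneSpectrum (𝓞 K)) => ∏ v ∈ A, v.asIdeal)
      (S.powerset : Set (Finset (HeightOneSpectrum (𝓞 K)))) := by
    have key : ∀ A B : Finset (HeightOneSpectrum (𝓞 K)),
        ∏ v ∈ A, v.asIdeal = ∏ v ∈ B, v.asIdeal → A ⊆ B := by
      intro A B h v hv
      have h1 : v.asIdeal ∣ ∏ v ∈ B, v.asIdeal := by
        rw [← h]; exact Finset.dvd_prod_of_mem _ hv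
      have hvp : Prime v.asIdeal := prime_of_isPrime v.ne_bot v.isPrime
      obtain ⟨w, hw, hvw⟩ := hvp.exists_mem_finset_dvd h1
      have hwp : Prime w.asIdeal := prime_of_isPrime w.ne_bot w.isPrime
      rw [hvp.dvd_prime_iff_associated hwp, associated_iff_eq] at hvw
      rw [HeightOneSpectrum.ext hvw]
      exact hw
    intro A _ B _ h
    exact Finset.Subset.antisymm (key A B h) (key B A h.symm)
  have h1 : ∀ A : Finset (HeightOneSpectrum (𝓞 K)), ∏ v ∈ A, pf K s v =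
      nf K s (∏ v ∈ A, v.asIdeal) := by
    intro A; rw [map_prod]; rfl
  rw [Finset.sum_congr rfl fun A _ => h1 A,
    ← Finset.sum_image (f := fun I : Ideal (𝓞 K) => nf K s I) hinj]
  exact (summable_nf K s hs).sum_le_tsum _ (fun I _ => nf_nonneg K s I)

/-- upper bound for finite partial sums of the zeta function -/
lemma sum_le_exp {s : ℝ} (hs : 1 < s) (T : Finset (Ideal (𝓞 K))) :
    ∑ I ∈ T, nf K s I ≤ Real.exp (∑' v, pf K s v + 2 * DD K) := by
  classical
  set c : HeightOneSpectrum (𝓞 K) → Ideal (𝓞 K) → ℕ :=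
    fun v I => (Associates.mk v.asIdeal).count (Associates.mk I).factors with hc
  set T' := T.filter (fun I => I ≠ 0) with hT'
  have h0 : ∑ I ∈ T, nf K s I = ∑ I ∈ T', nf K s I := by
    rw [hT', Finset.sum_filter]
    refine Finset.sum_congr rfl fun I _ => ?_
    by_cases hI : I = 0
    · rw [if_neg (not_not.2 hI), hI, nf_apply, map_zero, Nat.cast_zero,
        Real.zero_rpow (by linarith)]
    · rw [if_pos hI]
  have hfin : (⋃ I ∈ T', Function.mulSupport
      (fun v : HeightOneSpectrum (𝓞 K) => v.maxPowDividing I)).Finite := by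
    refine (Finset.finite_toSet T').biUnion fun I hI => ?_
    exact hasFiniteMulSupport (Finset.mem_filter.1 hI).2
  set S := hfin.toFinset with hS
  have hfac : ∀ I ∈ T', I = ∏ v ∈ S, v.asIdeal ^ c v I := by
    intro I hI
    have hI0 := (Finset.mem_filter.1 hI).2
    conv_lhs => rw [← finprod_heightOneSpectrum_factorization hI0]
    rw [finprod_eq_prod_of_mulSupport_subset (s := S)]
    · rfl
    · intro v hv
      rw [hS, Set.Finite.coe_toFinset]
      exact Set.mem_biUnion hI hv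
  have hnf : ∀ I ∈ T', nf K s I = ∏ v : S, pf K s v.1 ^ c v.1 I := by
    intro I hI
    conv_lhs => rw [hfac I hI]
    rw [map_prod, ← Finset.prod_coe_sort S (fun v => (nf K s) (v.asIdeal ^ c v I))]
    refine Finset.prod_congr rfl fun v _ => ?_
    rw [map_pow]; rfl
  set φ : Ideal (𝓞 K) → (S → ℕ) := fun I v => c v.1 I with hφ
  have hinj : Set.InjOn φ (T' : Set (Ideal (𝓞 K))) := by
    intro I hI J hJ h
    rw [hfac I hI, hfac J hJ]
    refine Finset.prod_congr rfl fun v hv => ?_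
    have := congrFun h ⟨v, hv⟩
    simp only [hφ] at this
    rw [this]
  set M := T'.sup (fun I => S.sup (fun v => c v I)) with hM
  have hcM : ∀ I ∈ T', ∀ v ∈ S, c v I ≤ M := by
    intro I hI v hv
    exact (Finset.le_sup (f := fun v => c v I) hv).trans
      (Finset.le_sup (f := fun I => S.sup (fun v => c v I)) hI)
  have hnn : ∀ v, 0 ≤ pf K s v := pf_nonneg K s
  have hsq : Summable (fun v => pf K s v ^ 2) := by
    refine Summable.of_nonneg_of_le (fun v => by positivity) (fun v => ?_) (summable_pf K hs)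
    have h1 := pf_le_half K hs.le v
    have h2 := hnn v
    nlinarith
  rw [h0]
  calc ∑ I ∈ T', nf K s I = ∑ I ∈ T', (fun x : S → ℕ => ∏ v : S, pf K s v.1 ^ x v) (φ I) :=
        Finset.sum_congr rfl hnf
    _ = ∑ x ∈ T'.image φ, ∏ v : S, pf K s v.1 ^ x v := by
        rw [Finset.sum_image hinj]
    _ ≤ ∑ x ∈ Fintype.piFinset (fun _ : S => Finset.range (M + 1)), ∏ v : S, pf K s v.1 ^ x v := by
        apply Finset.sum_le_sum_of_subset_of_nonneg
        · intro x hx
          obtain ⟨I, hI, rfl⟩ := Finset.mem_image.1 hx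
          rw [Fintype.mem_piFinset]
          intro v
          rw [Finset.mem_range]
          exact Nat.lt_succ_of_le (hcM I hI v.1 v.2)
        · intro x _ _
          exact Finset.prod_nonneg fun v _ => pow_nonneg (hnn _) _
    _ = ∏ v : S, ∑ k ∈ Finset.range (M + 1), pf K s v.1 ^ k := by
        rw [Finset.prod_univ_sum]
    _ ≤ ∏ v : S, Real.exp (pf K s v.1 + 2 * pf K s v.1 ^ 2) := by
        refine Finset.prod_le_prod (fun v _ => Finset.sum_nonneg fun k _ => pow_nonneg (hnn _) _)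
          fun v _ => ?_
        have hlt : pf K s v.1 < 1 := by linarith [pf_le_half K hs.le v.1]
        refine le_trans ?_ (inv_le_exp (hnn v.1) (pf_le_half K hs.le v.1))
        rw [← tsum_geometric_of_lt_one (hnn v.1) hlt]
        exact (summable_geometric_of_lt_one (hnn v.1) hlt).sum_le_tsum _
          (fun k _ => pow_nonneg (hnn _) _)
    _ = Real.exp (∑ v ∈ S, (pf K s v + 2 * pf K s v ^ 2)) := by
        rw [Real.exp_sum, ← Finset.prod_coe_sort S
          (fun v => Real.exp (pf K s v + 2 * pf K s v ^ 2))]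
    _ ≤ Real.exp (∑' v, pf K s v + 2 * DD K) := by
        rw [Real.exp_le_exp, Finset.sum_add_distrib, ← Finset.mul_sum]
        have h1 : ∑ v ∈ S, pf K s v ≤ ∑' v, pf K s v :=
          (summable_pf K hs).sum_le_tsum _ (fun v _ => hnn v)
        have h2 : ∑ v ∈ S, pf K s v ^ 2 ≤ DD K :=
          (Finset.sum_le_sum fun v _ => pf_sq_le K hs.le v).trans (sum_pv K S)
        linarith

/-- `∑_P N(P)^{-s} = log Z(s) + O(1)` -/
lemma sum_pf_log {s : ℝ} (hs : 1 < s) :
    |∑' v, pf K s v - Real.log (Z K s)| ≤ 2 * DD K := by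
  have hZ := one_le_Z K s hs
  have hZ0 : 0 < Z K s := by linarith
  have hD := DD_nonneg K
  rw [abs_le]
  constructor
  · have h1 : Z K s ≤ Real.exp (∑' v, pf K s v + 2 * DD K) :=
      (summable_nf K s hs).tsum_le_of_sum_le (sum_le_exp K hs)
    have h2 := (Real.log_le_iff_le_exp hZ0).2 h1
    linarith
  · have h1 : ∑' v, pf K s v ≤ Real.log (Z K s) + DD K := by
      refine (summable_pf K hs).tsum_le_of_sum_le fun S => ?_
      have h2 := prod_le_Z K hs S
      have h3 : Real.exp (∑ v ∈ S, (pf K s v - pf K s v ^ 2)) ≤ Z K s := by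
        rw [Real.exp_sum]
        refine le_trans ?_ h2
        exact Finset.prod_le_prod (fun v _ => (Real.exp_pos _).le)
          fun v _ => exp_le_one_add (pf_nonneg K s v)
      have h4 := (Real.le_log_iff_exp_le hZ0).2 h3
      rw [Finset.sum_sub_distrib] at h4
      have h5 : ∑ v ∈ S, pf K s v ^ 2 ≤ DD K :=
        (Finset.sum_le_sum fun v _ => pf_sq_le K hs.le v).trans (sum_pv K S)
      linarith
    linarith

end Pool.Agent.Helper19.Sec.ZetaAux
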